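import Pool.Agent.NCC.Defs

/-!
# NCC: the adjugate of a triangular matrix

A nonzero entry of the adjugate gives a permutation along which all entries are nonzero; compare the sums of the levels.
-/

set_option autoImplicit false

namespace NCC

open Finset ITA

variable {E V : Type} [DecidableEq V] [Fintype E] [DecidableEq E]

theorem adj_tri (T : Matrix E E ℤ) (b b' : E → ℤ) (hT : ∀ e j, T e j ≠ 0 → b' j ≤ b e)
    (hs : ∑ e, b' e = ∑ e, b e) {j e : E} (h : T.adjugate j e ≠ 0) : b e ≤ b' j := by
  rw [Matrix.adjugate_apply, Matrix.det_apply] at h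
  obtain ⟨σ, -, hσ⟩ := Finset.exists_ne_zero_of_sum_ne_zero h
  have h1 : ∏ i, (T.updateRow e (Pi.single j 1)) (σ i) i ≠ 0 := by
    intro h0
    rw [h0, smul_zero] at hσ
    exact hσ rfl
  rw [Finset.prod_ne_zero_iff] at h1
  have h2 : σ j = e := by
    have h3 := h1 (σ.symm e) (Finset.mem_univ _)
    rw [Equiv.apply_symm_apply, Matrix.updateRow_self] at h3
    have h4 : σ.symm e = j := by
      by_contra hne
      exact h3 (Pi.single_eq_of_ne hne _)
    rw [← h4, Equiv.apply_symm_apply]
  have h3 : ∀ i ∈ Finset.univ.erase j, b' i ≤ b (σ i) := by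
    intro i hi
    have hij : i ≠ j := (Finset.mem_erase.1 hi).1
    have hne : σ i ≠ e := fun h0 => hij (σ.injective (h0.trans h2.symm))
    have h4 := h1 i (Finset.mem_univ _)
    rw [Matrix.updateRow_ne hne] at h4
    exact hT _ _ h4
  have h4 := Finset.sum_le_sum h3
  have h5 := Finset.add_sum_erase Finset.univ b' (Finset.mem_univ j)
  have h6 := Finset.add_sum_erase Finset.univ (fun i => b (σ i)) (Finset.mem_univ j)
  have h7 : ∑ i, b (σ i) = ∑ i, b i := Equiv.sum_comp σ b
  rw [h2] at h6
  linarith

end NCC
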