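import Pool.Agent.NCC.Blk
import Pool.Agent.ITA.Fb

/-!
# NCC: degrees and values for the group of a labelled oriented tree

`deg_exists`: the group has a degree with `deg (g v) = deg g + 1` for every generator `v`, and every function `h` with
the relations `RelAt` gives a value `κ` with `κ (g v) = κ g + h v (deg g)`. The shifts `ITA.TT h v` satisfy the relations
of the group, hence give a position in `ℤ × ℚ` of every element of the group (`ITA.exists_pos`); the first coordinate
is the degree, it does not depend on `h` (`ITA.deg_unique`).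
-/

set_option autoImplicit false

namespace NCC

open Finset ITA

private theorem Fb_rel {m : ℕ} (i lam t : Fin m → Fin (m + 1)) {h : Fin (m + 1) → ℤ → ℚ} {e : Fin m}
    (he : RelAt i lam t h e) : TT h (lam e) * TT h (i e) = TT h (t e) * TT h (lam e) := by
  refine Equiv.ext fun x => ?_
  show ((x.1 + 1) + 1, (x.2 + h (i e) x.1) + h (lam e) (x.1 + 1))
    = ((x.1 + 1) + 1, (x.2 + h (lam e) x.1) + h (t e) (x.1 + 1))
  refine Prod.ext rfl ?_
  show (x.2 + h (i e) x.1) + h (lam e) (x.1 + 1) = (x.2 + h (lam e) x.1) + h (t e) (x.1 + 1)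
  linarith [he x.1]

private theorem Fb_word {m : ℕ} (i lam t : Fin m → Fin (m + 1)) {G : Type} [Group G] (T : Fin (m + 1) → G)
    (e : Fin m) : FreeGroup.lift T (FreeGroup.mk (NCL.relWord i lam t e)) =
      T (i e) * T (lam e) * (T (t e))⁻¹ * (T (lam e))⁻¹ := by
  have h2 : FreeGroup.mk (NCL.relWord i lam t e)
      = FreeGroup.of (i e) * FreeGroup.of (lam e) * (FreeGroup.of (t e))⁻¹
        * (FreeGroup.of (lam e))⁻¹ := rfl
  rw [h2, map_mul, map_mul, map_mul, map_inv, map_inv, FreeGroup.lift_apply_of, FreeGroup.lift_apply_of,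
    FreeGroup.lift_apply_of]

theorem deg_exists {m : ℕ} (i lam t : Fin m → Fin (m + 1)) :
    ∃ deg : NCL.LOTGroup i lam t → ℤ, (∀ g v, deg (g * NCL.gen i lam t v) = deg g + 1) ∧
      ∀ h : Fin (m + 1) → ℤ → ℚ, (∀ e, RelAt i lam t h e) →
        ∃ κ : NCL.LOTGroup i lam t → ℚ, ∀ g v, κ (g * NCL.gen i lam t v) = κ g + h v (deg g) := by
  have key : ∀ h : Fin (m + 1) → ℤ → ℚ, (∀ e, RelAt i lam t h e) →
      ∃ pos : NCL.LOTGroup i lam t → ℤ × ℚ, pos 1 = (0, 0) ∧
        ∀ g v, pos (g * NCL.gen i lam t v) = ((pos g).1 + 1, (pos g).2 + h v (pos g).1) := by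
    intro h hh
    have hT : ∀ ρ ∈ Set.range (fun e : Fin m => FreeGroup.mk (NCL.relWord i lam t e)),
        FreeGroup.lift (fun v => if true then (TT h v)⁻¹ else TT h v) ρ = 1 := by
      rintro _ ⟨e, rfl⟩
      have h2 : FreeGroup.lift (fun v => if true then (TT h v)⁻¹ else TT h v)
          (FreeGroup.mk (NCL.relWord i lam t e)) =
          (TT h (i e))⁻¹ * (TT h (lam e))⁻¹ * ((TT h (t e))⁻¹)⁻¹ * ((TT h (lam e))⁻¹)⁻¹ :=
        Fb_word i lam t (fun v => (TT h v)⁻¹) e
      refine h2.trans ?_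
      rw [inv_inv, inv_inv, mul_assoc, ← Fb_rel i lam t (hh e)]
      group
    obtain ⟨pos, h1, h2⟩ := exists_pos _ true (TT h) hT
    exact ⟨pos, h1, fun g v => h2 g v⟩
  have h0 : ∀ e, RelAt i lam t (fun _ _ => 0) e := fun _ _ => by ring
  obtain ⟨pos0, a1, a2⟩ := key _ h0
  refine ⟨fun g => (pos0 g).1, fun g v => by simp only [a2], fun h hh => ?_⟩
  obtain ⟨pos, b1, b2⟩ := key h hh
  have h3 : (fun g => (pos g).1) = fun g => (pos0 g).1 :=
    deg_unique (NCL.gen i lam t) (Or.inl fun v => rfl) _ _ (by simp only [a1, b1])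
      (fun g v => by simp only [b2]) (fun g v => by simp only [a2])
  refine ⟨fun g => (pos g).2, fun g v => ?_⟩
  have h4 : (pos g).1 = (pos0 g).1 := congrFun h3 g
  simp only [b2, h4]

end NCC
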