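import Pool.Agent.NCC.Xi
import Pool.Agent.NCC.Fb

/-!
# NCC: values for a block

A harmonic function of the block `K` (of the reversed block, after the substitution `d ↦ -d - 1`) extends by zero on lower blocks and by
`ext_all` on higher blocks to a function with all relations; `hdeg` gives the function `κ` on the group.
-/

set_option autoImplicit false

namespace NCC

open Finset ITA

private theorem Bh_ext {m : ℕ} {i lam t : Fin m → Fin (m + 1)} {ρ : Fin (m + 1) → ℕ}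
    (hlam : ∀ e, ρ (lam e) ≤ max (ρ (i e)) (ρ (t e)))
    (hblk : ∀ k, ∃ c, NCL.IsColumns i t ρ k c ∧ Uni (blk i lam t ρ k c)) {K : ℕ}
    {c : NCL.Block i t ρ K → Fin (m + 1)} (hc : NCL.IsColumns i t ρ K c)
    (h0 : Fin (m + 1) → ℤ → ℚ) (off : ∀ v, (∀ j, c j ≠ v) → ∀ d, h0 v d = 0)
    (rel : ∀ e, max (ρ (i e)) (ρ (t e)) = K → ∀ d,
      h0 (i e) d - h0 (lam e) d + h0 (lam e) (d + 1) - h0 (t e) (d + 1) = 0) :
    ∃ h : Fin (m + 1) → ℤ → ℚ, (∀ v, ρ v ≤ K → h v = h0 v) ∧ ∀ e, RelAt i lam t h e := by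
  obtain ⟨h, hh, hr⟩ := ext_all hlam hblk K h0
  refine ⟨h, fun v hv => hh v (Or.inr hv), fun e => ?_⟩
  rcases Nat.lt_or_ge K (max (ρ (i e)) (ρ (t e))) with h1 | h1
  · exact hr e h1
  · intro d
    have hi : ρ (i e) ≤ K := (le_max_left _ _).trans h1
    have ht : ρ (t e) ≤ K := (le_max_right _ _).trans h1
    have hl : ρ (lam e) ≤ K := (hlam e).trans h1
    rw [hh (i e) (Or.inr hi), hh (lam e) (Or.inr hl), hh (t e) (Or.inr ht)]
    rcases Nat.lt_or_ge (max (ρ (i e)) (ρ (t e))) K with h2 | h2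
    · have h3 : ∀ v, ρ v < K → ∀ d, h0 v d = 0 := by
        intro v hv
        refine off v fun j hj => ?_
        have h4 := ((hc.2 v).1 ⟨j, hj⟩).2
        omega
      rw [h3 (i e) ((le_max_left _ _).trans_lt h2), h3 (lam e) ((hlam e).trans_lt h2),
        h3 (lam e) ((hlam e).trans_lt h2), h3 (t e) ((le_max_right _ _).trans_lt h2)]
      norm_num
    · exact rel e (le_antisymm h1 h2) d

theorem kappa_low {m : ℕ} {i lam t : Fin m → Fin (m + 1)} {ρ : Fin (m + 1) → ℕ}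
    (hlam : ∀ e, ρ (lam e) ≤ max (ρ (i e)) (ρ (t e)))
    (hblk : ∀ k, ∃ c, NCL.IsColumns i t ρ k c ∧ Uni (blk i lam t ρ k c)) {K : ℕ}
    {c : NCL.Block i t ρ K → Fin (m + 1)} (hc : NCL.IsColumns i t ρ K c)
    {deg : NCL.LOTGroup i lam t → ℤ}
    (hdeg : ∀ h : Fin (m + 1) → ℤ → ℚ, (∀ e, RelAt i lam t h e) →
        ∃ κ : NCL.LOTGroup i lam t → ℚ, ∀ g v, κ (g * NCL.gen i lam t v) = κ g + h v (deg g))
    (h : Fin (m + 1) → ℤ → ℚ) (hh : Hrm (blk i lam t ρ K c) h) :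
    ∃ κ : NCL.LOTGroup i lam t → ℚ, ∀ g (e : NCL.Block i t ρ K),
      κ (g * NCL.gen i lam t (lam e.1)) = κ g + h (lam e.1) (deg g) := by
  obtain ⟨h', h1, h2⟩ := Bh_ext hlam hblk hc h hh.off (fun e he d => hh.rel ⟨e, he⟩ d)
  obtain ⟨κ, hκ⟩ := hdeg h' h2
  refine ⟨κ, fun g e => ?_⟩
  rw [hκ, h1 (lam e.1) ((hlam e.1).trans e.2.le)]

theorem kappa_high {m : ℕ} {i lam t : Fin m → Fin (m + 1)} {ρ : Fin (m + 1) → ℕ}
    (hlam : ∀ e, ρ (lam e) ≤ max (ρ (i e)) (ρ (t e)))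
    (hblk : ∀ k, ∃ c, NCL.IsColumns i t ρ k c ∧ Uni (blk i lam t ρ k c)) {K : ℕ}
    {c : NCL.Block i t ρ K → Fin (m + 1)} (hc : NCL.IsColumns i t ρ K c)
    {deg : NCL.LOTGroup i lam t → ℤ} (hd : ∀ g v, deg (g * NCL.gen i lam t v) = deg g + 1)
    (hdeg : ∀ h : Fin (m + 1) → ℤ → ℚ, (∀ e, RelAt i lam t h e) →
        ∃ κ : NCL.LOTGroup i lam t → ℚ, ∀ g v, κ (g * NCL.gen i lam t v) = κ g + h v (deg g))
    (h : Fin (m + 1) → ℤ → ℚ) (hh : Hrm (blk i lam t ρ K c).rev h) :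
    ∃ κ : NCL.LOTGroup i lam t → ℚ, ∀ g (e : NCL.Block i t ρ K),
      κ (g * (NCL.gen i lam t (lam e.1))⁻¹) = κ g + h (lam e.1) (- deg g) := by
  obtain ⟨h', h1, h2⟩ := Bh_ext hlam hblk hc (fun v d => - h v (- d - 1))
    (fun v hv d => by rw [hh.off v hv, neg_zero])
    (fun e he d => by
      have h3 : h (t e) (- d - 2) - h (lam e) (- d - 2) + h (lam e) (- d - 2 + 1) -
        h (i e) (- d - 2 + 1) = 0 := hh.rel ⟨e, he⟩ (- d - 2)
      have e1 : - d - 2 + 1 = - d - 1 := by ring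
      have e2 : - (d + 1) - 1 = - d - 2 := by ring
      rw [e1] at h3
      rw [e2]
      linarith)
  obtain ⟨κ, hκ⟩ := hdeg h' h2
  refine ⟨κ, fun g e => ?_⟩
  have h3 := hκ (g * (NCL.gen i lam t (lam e.1))⁻¹) (lam e.1)
  have h4 := hd (g * (NCL.gen i lam t (lam e.1))⁻¹) (lam e.1)
  rw [inv_mul_cancel_right] at h3 h4
  rw [h1 (lam e.1) ((hlam e.1).trans e.2.le)] at h3
  have h5 : - deg (g * (NCL.gen i lam t (lam e.1))⁻¹) - 1 = - deg g := by
    rw [h4]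
    ring
  simp only [h5] at h3
  linarith

end NCC
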