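import Pool.Agent.ITA.Lot

/-!
# NCC (MP_c801b5_gt): labelled oriented trees, the presentation, the boundary map and the states

The definitions used in the statement of the theorem, the relations in the group and the value of the Fox
derivatives of the relators.
-/

set_option autoImplicit false

namespace NCL

open Finset

/-- `m` directed edges `i(e) → t(e)` on the `m + 1` vertices `0, ..., m` forming a tree -/
def IsOrientedTree {m : ℕ} (i t : Fin m → Fin (m + 1)) : Prop :=
  (SimpleGraph.fromRel (fun a b => ∃ e, i e = a ∧ t e = b)).IsTree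

/-- the relator `i(e) λ(e) t(e)^{-1} λ(e)^{-1}` of the edge `e` as a word (`(v, true)` is the letter `v`,
`(v, false)` is `v^{-1}`) -/
def relWord {m : ℕ} (i lam t : Fin m → Fin (m + 1)) (e : Fin m) : List (Fin (m + 1) × Bool) :=
  [(i e, true), (lam e, true), (t e, false), (lam e, false)]

/-- the group of the presentation `P(Γ)`: one generator for every vertex, one relator for every edge -/
abbrev LOTGroup {m : ℕ} (i lam t : Fin m → Fin (m + 1)) : Type :=
  PresentedGroup (Set.range (fun e : Fin m => FreeGroup.mk (relWord i lam t e)))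

/-- the generator of `LOTGroup` given by the vertex `v` -/
def gen {m : ℕ} (i lam t : Fin m → Fin (m + 1)) (v : Fin (m + 1)) : LOTGroup i lam t := PresentedGroup.of v

/-- Fox derivative with respect to the generator `v` of a word, with values in the group ring:
`∂(a w) = ∂a + a ∂w`, `∂(a^{-1} w) = -a^{-1} ∂a + a^{-1} ∂w`, `∂a = 1` if `a = v` and `0` otherwise -/
noncomputable def fox {m : ℕ} (i lam t : Fin m → Fin (m + 1)) (v : Fin (m + 1)) :
    List (Fin (m + 1) × Bool) → MonoidAlgebra ℤ (LOTGroup i lam t)
  | [] => 0
  | (a, true) :: w => (if a = v then 1 else 0) + MonoidAlgebra.single (gen i lam t a) 1 * fox i lam t v w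
  | (a, false) :: w => -(MonoidAlgebra.single (gen i lam t a)⁻¹ 1 * (if a = v then 1 else 0))
      + MonoidAlgebra.single (gen i lam t a)⁻¹ 1 * fox i lam t v w

/-- The cellular boundary map `C_2 → C_1` of the universal covering of the presentation complex `K(Γ)`: `C_2` is the
free `ℤ[G]`-module on the edges (2-cells), `C_1` the free `ℤ[G]`-module on the vertices of `Γ` (1-cells), and the
basis element `e` is mapped to `∑ v, (∂ r_e / ∂ v) v`. -/
noncomputable def boundary {m : ℕ} (i lam t : Fin m → Fin (m + 1))
    (x : Fin m → MonoidAlgebra ℤ (LOTGroup i lam t)) (v : Fin (m + 1)) : MonoidAlgebra ℤ (LOTGroup i lam t) :=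
  ∑ e, x e * fox i lam t v (relWord i lam t e)

/-- `K(Γ)` is aspherical: `C_2 → C_1` is injective, i.e. `π_2(K(Γ)) = H_2` of the universal covering vanishes -/
def Aspherical {m : ℕ} (i lam t : Fin m → Fin (m + 1)) : Prop :=
  Function.Injective (boundary i lam t)

/-- The matrix of a choice `F`. The rows are the edges, the columns the vertices `c j`; the row of the edge `e` is
`i(e) - λ(e)` if `F e = false` and `λ(e) - t(e)` if `F e = true` (a vertex is the corresponding unit vector, or zero if
it is not a column). -/
def stateMatrix {E V : Type} [DecidableEq V] (i lam t c : E → V) (F : E → Bool) : Matrix E E ℤ :=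
  Matrix.of fun e j =>
    if F e then (if lam e = c j then 1 else 0) - (if t e = c j then 1 else 0)
    else (if i e = c j then 1 else 0) - (if lam e = c j then 1 else 0)

/-- the exponent of the choice `F`: the number of edges with `F e = true` -/
def expo {E : Type} [Fintype E] (F : E → Bool) : ℕ := (univ.filter fun e => F e = true).card

/-- `F` is a state (nonzero determinant) of least exponent -/
def IsLowest {E V : Type} [DecidableEq V] [Fintype E] [DecidableEq E] (i lam t c : E → V) (F : E → Bool) : Prop :=
  (stateMatrix i lam t c F).det ≠ 0 ∧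
    ∀ F', (stateMatrix i lam t c F').det ≠ 0 → expo F ≤ expo F'

/-- `F` is a state of greatest exponent -/
def IsHighest {E V : Type} [DecidableEq V] [Fintype E] [DecidableEq E] (i lam t c : E → V) (F : E → Bool) : Prop :=
  (stateMatrix i lam t c F).det ≠ 0 ∧
    ∀ F', (stateMatrix i lam t c F').det ≠ 0 → expo F' ≤ expo F

/-- no cancellation in the lowest degree: the determinants of all states of least exponent have the same sign -/
def NoCancelLow {E V : Type} [DecidableEq V] [Fintype E] [DecidableEq E] (i lam t c : E → V) : Prop :=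
  ∀ F F', IsLowest i lam t c F → IsLowest i lam t c F' →
    0 < (stateMatrix i lam t c F).det * (stateMatrix i lam t c F').det

/-- no cancellation in the highest degree -/
def NoCancelHigh {E V : Type} [DecidableEq V] [Fintype E] [DecidableEq E] (i lam t c : E → V) : Prop :=
  ∀ F F', IsHighest i lam t c F → IsHighest i lam t c F' →
    0 < (stateMatrix i lam t c F).det * (stateMatrix i lam t c F').det

/-- the edges of rank `k` for the rank function `ρ` of the vertices -/
abbrev Block {m : ℕ} (i t : Fin m → Fin (m + 1)) (ρ : Fin (m + 1) → ℕ) (k : ℕ) : Type :=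
  {e : Fin m // max (ρ (i e)) (ρ (t e)) = k}

/-- `c` enumerates the vertices of rank `k` different from the vertex `0` by the edges of rank `k` -/
def IsColumns {m : ℕ} (i t : Fin m → Fin (m + 1)) (ρ : Fin (m + 1) → ℕ) (k : ℕ)
    (c : Block i t ρ k → Fin (m + 1)) : Prop :=
  Function.Injective c ∧ ∀ v, (∃ j, c j = v) ↔ (v ≠ 0 ∧ ρ v = k)

theorem relator_trivial {m : ℕ} (i lam t : Fin m → Fin (m + 1)) (e : Fin m) :
    gen i lam t (i e) * gen i lam t (lam e) = gen i lam t (lam e) * gen i lam t (t e) := by
  have h : PresentedGroup.mk (Set.range (fun e : Fin m => FreeGroup.mk (relWord i lam t e)))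
      (FreeGroup.mk (relWord i lam t e)) = 1 := by
    refine (QuotientGroup.eq_one_iff _).2 (Subgroup.subset_normalClosure ⟨e, rfl⟩)
  have h2 : FreeGroup.mk (relWord i lam t e)
      = FreeGroup.of (i e) * FreeGroup.of (lam e) * (FreeGroup.of (t e))⁻¹
        * (FreeGroup.of (lam e))⁻¹ := by
    rfl
  rw [h2, map_mul, map_mul, map_mul, map_inv, map_inv] at h
  have h3 : gen i lam t (i e) * gen i lam t (lam e) * (gen i lam t (t e))⁻¹ * (gen i lam t (lam e))⁻¹ = 1 := h
  rw [mul_inv_eq_one, mul_inv_eq_iff_eq_mul] at h3
  exact h3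

theorem fox_rel {m : ℕ} (i lam t : Fin m → Fin (m + 1)) (e : Fin m) (v : Fin (m + 1)) :
    fox i lam t v (relWord i lam t e) = ITA.jac i t lam (gen i lam t) e v := by
  have h1 := relator_trivial i lam t e
  have h2 : gen i lam t (i e) * (gen i lam t (lam e) * (gen i lam t (t e))⁻¹) = gen i lam t (lam e) := by
    rw [← mul_assoc, h1, mul_inv_cancel_right]
  have h3 : gen i lam t (i e) * (gen i lam t (lam e) * ((gen i lam t (t e))⁻¹ * (gen i lam t (lam e))⁻¹)) = 1 := by
    rw [← mul_assoc (gen i lam t (lam e)), ← mul_assoc, h2, mul_inv_cancel]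
  have h4 : ITA.jac i t lam (gen i lam t) e v
      = (if i e = v then 1 else 0)
    + (if lam e = v then MonoidAlgebra.single (gen i lam t (i e)) 1 else 0)
    - (if t e = v then MonoidAlgebra.single (gen i lam t (lam e)) 1 else 0)
    - (if lam e = v then 1 else 0) := rfl
  rw [h4]
  simp only [fox, relWord]
  have e1 : (MonoidAlgebra.single (gen i lam t (i e)) (1 : ℤ))
      * (MonoidAlgebra.single (gen i lam t (lam e)) (1 : ℤ)
      * (MonoidAlgebra.single (gen i lam t (t e))⁻¹ (1 : ℤ)))
      = MonoidAlgebra.single (gen i lam t (lam e)) 1 := by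
    rw [MonoidAlgebra.single_mul_single, MonoidAlgebra.single_mul_single, h2, one_mul, one_mul]
  have e2 : (MonoidAlgebra.single (gen i lam t (i e)) (1 : ℤ))
      * (MonoidAlgebra.single (gen i lam t (lam e)) (1 : ℤ)
      * (MonoidAlgebra.single (gen i lam t (t e))⁻¹ (1 : ℤ)
        * MonoidAlgebra.single (gen i lam t (lam e))⁻¹ (1 : ℤ))) = 1 := by
    rw [MonoidAlgebra.single_mul_single, MonoidAlgebra.single_mul_single,
      MonoidAlgebra.single_mul_single, h3]
    simp [MonoidAlgebra.one_def]
  have e3 : (MonoidAlgebra.single (gen i lam t (i e)) (1 : ℤ)) * (if lam e = v then 1 else 0)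
      = (if lam e = v then MonoidAlgebra.single (gen i lam t (i e)) 1 else 0) := by
    split_ifs <;> simp
  have e4 : MonoidAlgebra.single (gen i lam t (i e)) (1 : ℤ)
      * (MonoidAlgebra.single (gen i lam t (lam e)) (1 : ℤ)
      * (MonoidAlgebra.single (gen i lam t (t e))⁻¹ (1 : ℤ) * (if t e = v then 1 else 0)))
      = (if t e = v then MonoidAlgebra.single (gen i lam t (lam e)) 1 else 0) := by
    split_ifs
    · rw [mul_one, e1]
    · simp
  have e5 : MonoidAlgebra.single (gen i lam t (i e)) (1 : ℤ)
      * (MonoidAlgebra.single (gen i lam t (lam e)) (1 : ℤ)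
      * (MonoidAlgebra.single (gen i lam t (t e))⁻¹ (1 : ℤ)
        * (MonoidAlgebra.single (gen i lam t (lam e))⁻¹ (1 : ℤ) * (if lam e = v then 1 else 0))))
      = (if lam e = v then 1 else 0) := by
    split_ifs
    · rw [mul_one, e2]
    · simp
  simp only [mul_add, mul_neg, mul_zero, add_zero, e3, e4, e5]
  abel

end NCL
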