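import Pool.Agent.NCC.Defs
import Pool.Agent.NCC.Lot

/-!
# NCC: the system of a block

`blk i lam t ρ k c` is the system of the edges of rank `k` with the columns `c`.
-/

set_option autoImplicit false

namespace NCC

open Finset ITA

/-- the system of the edges of rank `k` -/
def blk {m : ℕ} (i lam t : Fin m → Fin (m + 1)) (ρ : Fin (m + 1) → ℕ) (k : ℕ)
    (c : NCL.Block i t ρ k → Fin (m + 1)) : Sys (NCL.Block i t ρ k) (Fin (m + 1)) :=
  ⟨fun e => i e.1, fun e => lam e.1, fun e => t e.1, c⟩

/-- the relation of harmonic functions at the edge `e` -/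
def RelAt {m : ℕ} (i lam t : Fin m → Fin (m + 1)) (h : Fin (m + 1) → ℤ → ℚ) (e : Fin m) : Prop :=
  ∀ d, h (i e) d - h (lam e) d + h (lam e) (d + 1) - h (t e) (d + 1) = 0

end NCC
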