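import Pool.Agent.NCC.Tc
import Pool.Agent.NCC.Blk

/-!
# NCC: blocks are unimodular

The matrix with the rows `i(e) - t(e)` of the whole tree is block triangular with respect to the rank, so its determinant is the
product of the determinants of the blocks, which are integers.
-/

set_option autoImplicit false

namespace NCC

open Finset ITA

theorem uni_block {m : ℕ} {i t : Fin m → Fin (m + 1)} (hT : NCL.IsOrientedTree i t)
    (lam : Fin m → Fin (m + 1)) (ρ : Fin (m + 1) → ℕ)
    (hcol : ∀ k, ∃ c : NCL.Block i t ρ k → Fin (m + 1), NCL.IsColumns i t ρ k c) (k : ℕ)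
    (c : NCL.Block i t ρ k → Fin (m + 1)) (hc : NCL.IsColumns i t ρ k c) :
    Uni (blk i lam t ρ k c) := by
  obtain ⟨C, hC, hCk⟩ : ∃ C : (k' : ℕ) → NCL.Block i t ρ k' → Fin (m + 1),
      (∀ k', NCL.IsColumns i t ρ k' (C k')) ∧ C k = c := by
    refine ⟨Function.update (fun k' => (hcol k').choose) k c, fun k' => ?_, Function.update_self _ _ _⟩
    by_cases h : k' = k
    · subst h
      rw [Function.update_self]
      exact hc
    · rw [Function.update_of_ne h]
      exact (hcol k').choose_spec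
  let rk : Fin m → ℕ := fun e => max (ρ (i e)) (ρ (t e))
  let cc : Fin m → Fin (m + 1) := fun e => C (rk e) ⟨e, rfl⟩
  have hcc : ∀ (k' : ℕ) (e : Fin m) (h : max (ρ (i e)) (ρ (t e)) = k'), cc e = C k' ⟨e, h⟩ := by
    rintro k' e rfl
    rfl
  have hcc1 : ∀ e, cc e ≠ 0 ∧ ρ (cc e) = rk e := fun e => ((hC (rk e)).2 (cc e)).1 ⟨⟨e, rfl⟩, rfl⟩
  have hinj : Function.Injective cc := by
    intro e e' h
    have h1 : rk e = rk e' := by rw [← (hcc1 e).2, ← (hcc1 e').2, h]
    have h2 : cc e = C (rk e') ⟨e, h1⟩ := hcc (rk e') e h1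
    have h3 : cc e' = C (rk e') ⟨e', rfl⟩ := rfl
    rw [h2, h3] at h
    exact congrArg Subtype.val ((hC (rk e')).1 h)
  have hU := uni_tree hT lam cc hinj (fun j => (hcc1 j).1)
  let A : Matrix (Fin m) (Fin m) ℤ := Matrix.of fun e j : Fin m =>
    ((if i e = cc j then 1 else 0) - (if t e = cc j then 1 else 0) : ℤ)
  have hA : A.det = 1 ∨ A.det = -1 := hU
  have hAu : IsUnit A.det := Int.isUnit_iff.2 hA
  -- block triangular
  have hb : Matrix.BlockTriangular A (fun e => OrderDual.toDual (rk e)) := by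
    intro e j hej
    have h1 : rk e < rk j := hej
    have h2 : ∀ v, ρ v ≤ rk e → v ≠ cc j := by
      rintro v hv rfl
      rw [(hcc1 j).2] at hv
      omega
    show ((if i e = cc j then 1 else 0) - (if t e = cc j then 1 else 0) : ℤ) = 0
    rw [if_neg (h2 _ (le_max_left _ _)), if_neg (h2 _ (le_max_right _ _)), sub_zero]
  -- the block
  have hblk : (Matrix.of fun e j : NCL.Block i t ρ k =>
      u (blk i lam t ρ k c) ((blk i lam t ρ k c).i e) j - u (blk i lam t ρ k c) ((blk i lam t ρ k c).t e) j).det =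
      (A.toSquareBlock (fun e => OrderDual.toDual (rk e)) (OrderDual.toDual k)).det := by
    let φ : NCL.Block i t ρ k ≃ {e : Fin m // OrderDual.toDual (rk e) = OrderDual.toDual k} :=
      Equiv.subtypeEquivRight fun e => (OrderDual.toDual_inj (a := rk e) (b := k)).symm
    rw [← Matrix.det_submatrix_equiv_self φ
      (A.toSquareBlock (fun e => OrderDual.toDual (rk e)) (OrderDual.toDual k))]
    congr 1
    ext e j
    have h1 : cc j.1 = c j := by
      rw [hcc k j.1 j.2, hCk]
    show ((if i e.1 = c j then 1 else 0) - (if t e.1 = c j then 1 else 0) : ℤ) =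
      ((if i e.1 = cc j.1 then 1 else 0) - (if t e.1 = cc j.1 then 1 else 0) : ℤ)
    rw [h1]
  unfold Uni
  rw [hblk, ← Int.isUnit_iff]
  by_cases hk : ∃ e, rk e = k
  · refine isUnit_of_dvd_unit ?_ hAu
    rw [hb.det]
    obtain ⟨e, he⟩ := hk
    refine Finset.dvd_prod_of_mem (fun a => (A.toSquareBlock (fun e => OrderDual.toDual (rk e)) a).det) ?_
    rw [Finset.mem_image]
    exact ⟨e, Finset.mem_univ e, by rw [he]⟩
  · have : IsEmpty {e : Fin m // OrderDual.toDual (rk e) = OrderDual.toDual k} :=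
      ⟨fun x => hk ⟨x.1, OrderDual.toDual_inj.1 x.2⟩⟩
    rw [Matrix.det_isEmpty]
    exact isUnit_one

end NCC
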