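import Pool.Agent.NCC.Defs

/-!
# NCC: unimodularity of the matrices of choices

The determinant of a matrix whose rows are differences of two coordinate vectors (or zero vectors) is `0`, `1` or `-1`: either
some row has at most one nonzero entry, and the determinant is expanded along it, or all row sums vanish.
-/

set_option autoImplicit false

namespace NCC

open Finset ITA

variable {E V : Type} [DecidableEq V] [Fintype E] [DecidableEq E]

/-- the matrix of differences -/
private def Un_M {E : Type} (c a b : E → V) : Matrix E E ℤ :=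
  Matrix.of fun e j : E => ((if a e = c j then 1 else 0) - (if b e = c j then 1 else 0) : ℤ)

/-- expansion along a row with one entry -/
private theorem Un_row {n : ℕ} (M : Matrix (Fin (n + 1)) (Fin (n + 1)) ℤ) (e j0 : Fin (n + 1)) (s : ℤ)
    (hs : s = 1 ∨ s = -1) (hM : ∀ j, M e j = if j = j0 then s else 0)
    (h : (M.submatrix e.succAbove j0.succAbove).det = 0 ∨ (M.submatrix e.succAbove j0.succAbove).det = 1 ∨
      (M.submatrix e.succAbove j0.succAbove).det = -1) : M.det = 0 ∨ M.det = 1 ∨ M.det = -1 := by
  have h1 : M.det = (-1) ^ ((e : ℕ) + (j0 : ℕ)) * s * (M.submatrix e.succAbove j0.succAbove).det := by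
    rw [Matrix.det_succ_row M e, Finset.sum_eq_single j0]
    · rw [hM j0, if_pos rfl]
    · intro j _ hj
      rw [hM j, if_neg hj, mul_zero, zero_mul]
    · intro h2
      exact absurd (Finset.mem_univ j0) h2
  rw [h1]
  rcases neg_one_pow_eq_or ℤ ((e : ℕ) + (j0 : ℕ)) with h2 | h2 <;> rcases hs with h3 | h3 <;>
    rcases h with h4 | h4 | h4 <;> rw [h2, h3, h4] <;> norm_num

private theorem Un_fin (n : ℕ) : ∀ (c a b : Fin n → V), Function.Injective c →
    (Un_M c a b).det = 0 ∨ (Un_M c a b).det = 1 ∨ (Un_M c a b).det = -1 := by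
  induction n with
  | zero =>
    intro c a b _
    right
    left
    exact Matrix.det_isEmpty
  | succ n ih =>
    intro c a b hc
    have hsub : ∀ e j0 : Fin (n + 1), ((Un_M c a b).submatrix e.succAbove j0.succAbove).det = 0 ∨
        ((Un_M c a b).submatrix e.succAbove j0.succAbove).det = 1 ∨
        ((Un_M c a b).submatrix e.succAbove j0.succAbove).det = -1 := by
      intro e j0
      exact ih (fun j => c (j0.succAbove j)) (fun k => a (e.succAbove k)) (fun k => b (e.succAbove k))
        (hc.comp Fin.succAbove_right_injective)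
    by_cases hall : ∀ e, (∃ j, a e = c j) ∧ ∃ j, b e = c j
    · left
      rw [← Matrix.exists_mulVec_eq_zero_iff]
      refine ⟨fun _ => 1, fun h => one_ne_zero (congrFun h 0), ?_⟩
      funext e
      obtain ⟨⟨j1, h1⟩, j2, h2⟩ := hall e
      have h3 : ∀ j1 : Fin (n + 1), ∑ j, (if c j1 = c j then (1 : ℤ) else 0) = 1 := by
        intro j1
        rw [Finset.sum_eq_single j1]
        · rw [if_pos rfl]
        · intro j _ hj
          rw [if_neg fun h4 => hj (hc h4).symm]
        · intro h4
          exact absurd (Finset.mem_univ j1) h4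
      simp only [Matrix.mulVec, dotProduct, Un_M, Matrix.of_apply, mul_one, Pi.zero_apply]
      rw [Finset.sum_sub_distrib, h1, h2, h3, h3, sub_self]
    · push Not at hall
      obtain ⟨e, he⟩ := hall
      by_cases ha : ∃ j, a e = c j
      · have hb := he ha
        obtain ⟨j0, hj0⟩ := ha
        refine Un_row _ e j0 1 (Or.inl rfl) (fun j => ?_) (hsub e j0)
        simp only [Un_M, Matrix.of_apply]
        rw [if_neg (hb j), sub_zero, hj0]
        by_cases hj : j = j0
        · rw [if_pos (by rw [hj]), if_pos hj]
        · rw [if_neg fun h4 => hj (hc h4).symm, if_neg hj]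
      · have ha' : ∀ j, a e ≠ c j := fun j h => ha ⟨j, h⟩
        by_cases hb : ∃ j, b e = c j
        · obtain ⟨j0, hj0⟩ := hb
          refine Un_row _ e j0 (-1) (Or.inr rfl) (fun j => ?_) (hsub e j0)
          simp only [Un_M, Matrix.of_apply]
          rw [if_neg (ha' j), zero_sub, hj0]
          by_cases hj : j = j0
          · rw [if_pos (by rw [hj]), if_pos hj]
          · rw [if_neg fun h4 => hj (hc h4).symm, if_neg hj, neg_zero]
        · have hb' : ∀ j, b e ≠ c j := fun j h => hb ⟨j, h⟩
          left
          refine Matrix.det_eq_zero_of_row_eq_zero e fun j => ?_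
          simp only [Un_M, Matrix.of_apply]
          rw [if_neg (ha' j), if_neg (hb' j), sub_zero]

theorem tu (c : E → V) (hc : Function.Injective c) (a b : E → V) :
    (Matrix.of fun e j : E => ((if a e = c j then 1 else 0) - (if b e = c j then 1 else 0) : ℤ)).det = 0 ∨
    (Matrix.of fun e j : E => ((if a e = c j then 1 else 0) - (if b e = c j then 1 else 0) : ℤ)).det = 1 ∨
    (Matrix.of fun e j : E => ((if a e = c j then 1 else 0) - (if b e = c j then 1 else 0) : ℤ)).det = -1 := by
  have φ := Fintype.equivFin E
  have h1 := Un_fin (Fintype.card E) (fun j => c (φ.symm j)) (fun j => a (φ.symm j)) (fun j => b (φ.symm j))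
    (hc.comp φ.symm.injective)
  have h2 : (Un_M (fun j => c (φ.symm j)) (fun j => a (φ.symm j)) (fun j => b (φ.symm j))).det =
      (Matrix.of fun e j : E => ((if a e = c j then 1 else 0) - (if b e = c j then 1 else 0) : ℤ)).det :=
    Matrix.det_submatrix_equiv_self φ.symm
      (Matrix.of fun e j : E => ((if a e = c j then 1 else 0) - (if b e = c j then 1 else 0) : ℤ))
  rw [h2] at h1
  exact h1

theorem un (Γ : Sys E V) (hc : Function.Injective Γ.c) (F : E → Bool) :
    D Γ F = 0 ∨ D Γ F = 1 ∨ D Γ F = -1 := by
  exact tu Γ.c hc (fun e => Γ.tail (F e) e) (fun e => Γ.head (F e) e)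

end NCC
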