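import Pool.Agent.NCC.Me
import Pool.Agent.NCC.Un

/-!
# NCC: existence of a state
-/

set_option autoImplicit false

namespace NCC

open Finset ITA

variable {E V : Type} [DecidableEq V] [Fintype E] [DecidableEq E]

theorem row_add (Γ : Sys E V) (e j : E) :
    row Γ false e j + row Γ true e j = u Γ (Γ.i e) j - u Γ (Γ.t e) j := by
  unfold row Sys.tail Sys.head
  simp only [Bool.false_eq_true, if_false, if_true]
  ring

theorem sum_D (Γ : Sys E V) :
    (Matrix.of fun e j : E => u Γ (Γ.i e) j - u Γ (Γ.t e) j).det = ∑ F : E → Bool, D Γ F := by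
  have h := det_expand (R := ℤ) (fun e j => row Γ false e j) (fun e j => row Γ true e j)
    (fun _ => 1)
  simp only [one_mul, row_add, ite_self, Finset.prod_const_one] at h
  rw [h]
  refine Finset.sum_congr rfl fun F _ => ?_
  unfold D Mat
  refine congrArg Matrix.det (Matrix.ext fun e j => ?_)
  simp only [Matrix.of_apply]
  cases F e <;> rfl

theorem exists_min {Γ : Sys E V} (hU : Uni Γ) : ∃ F, MinSt Γ F := by
  classical
  have h1 : ∃ F, D Γ F ≠ 0 := by
    by_contra hne
    push Not at hne
    have h2 : ∑ F : E → Bool, D Γ F = 0 := Finset.sum_eq_zero fun F _ => hne F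
    rw [← sum_D] at h2
    rcases hU with h | h
    · rw [h2] at h
      exact absurd h (by norm_num)
    · rw [h2] at h
      exact absurd h (by norm_num)
  obtain ⟨F0, h0⟩ := h1
  obtain ⟨F, hF, hm⟩ := Finset.exists_min_image (Finset.univ.filter fun F => D Γ F ≠ 0)
    (fun F => cost F) ⟨F0, Finset.mem_filter.mpr ⟨Finset.mem_univ _, h0⟩⟩
  exact ⟨F, (Finset.mem_filter.mp hF).2,
    fun F' h' => hm F' (Finset.mem_filter.mpr ⟨Finset.mem_univ _, h'⟩)⟩

end NCC
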