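import Pool.Agent.NCC.Fd
import Pool.Agent.NCC.St
import Pool.Agent.ITA.Mc

/-!
# NCC: exchange cycles at the best state are positive

`bst_exists`: among the finitely many states of minimum cost there is one with least value, and the values of different
states of minimum cost differ by `hsep`. `bst_cycle`: the minimal cycle lemma `ITA.mc` with weights in `ℤ ×ₗ ℚ` (change
of the cost, change of the value).
-/

set_option autoImplicit false

namespace NCC

open Finset ITA

variable {E V : Type} [DecidableEq V] [Fintype E] [DecidableEq E]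

private theorem Bs_sub (F F' : E → Bool) (g : E → ℚ) :
    ∑ e, (eps F F' e : ℚ) * g e = ∑ e, (if F e then g e else 0) - ∑ e, (if F' e then g e else 0) := by
  rw [← Finset.sum_sub_distrib]
  refine Finset.sum_congr rfl fun v _ => ?_
  unfold eps
  cases F v <;> cases F' v <;> simp

theorem bst_exists {Γ : Sys E V} (hU : Uni Γ) {τ : E → ℤ} {h : V → ℤ → ℚ}
    (hsep : ∀ F F', MinSt Γ F → MinSt Γ F' → F ≠ F' →
      ∑ e, (eps F F' e : ℚ) * h (Γ.l e) (τ e) ≠ 0) : ∃ F, Bst Γ τ h F := by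
  classical
  obtain ⟨F0, hF0⟩ := exists_min hU
  obtain ⟨F, hF, hmin⟩ := Finset.exists_min_image (univ.filter fun F : E → Bool => MinSt Γ F)
    (fun F => ∑ e, (if F e then h (Γ.l e) (τ e) else 0)) ⟨F0, Finset.mem_filter.2 ⟨Finset.mem_univ _, hF0⟩⟩
  have hF1 := (Finset.mem_filter.1 hF).2
  refine ⟨F, hF1, fun F' hF' hne => ?_⟩
  refine lt_of_le_of_ne (hmin F' (Finset.mem_filter.2 ⟨Finset.mem_univ _, hF'⟩)) fun heq => ?_
  refine hsep F' F hF' hF1 hne ?_
  rw [Bs_sub F' F (fun e => h (Γ.l e) (τ e)), heq, sub_self]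

private theorem Bs_sum (n : ℕ) (g1 : ℕ → ℤ) (g2 : ℕ → ℚ) :
    ∑ a ∈ range n, (toLex (g1 a, g2 a) : ℤ ×ₗ ℚ) =
      toLex (∑ a ∈ range n, g1 a, ∑ a ∈ range n, g2 a) := by
  induction n with
  | zero => rfl
  | succ n ih =>
    rw [Finset.sum_range_succ, Finset.sum_range_succ, Finset.sum_range_succ, ih]
    rfl

private theorem Bs_pos (a : ℤ) (b : ℚ) : (0 : ℤ ×ₗ ℚ) < toLex (a, b) ↔ 0 < a ∨ 0 = a ∧ 0 < b := by
  have h0 : (0 : ℤ ×ₗ ℚ) = toLex ((0 : ℤ), (0 : ℚ)) := rfl
  rw [h0, Prod.Lex.toLex_lt_toLex]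

theorem bst_cycle {Γ : Sys E V} {τ : E → ℤ} {h : V → ℤ → ℚ} {F : E → Bool} (hB : Bst Γ τ h F) {n : ℕ}
    {x : ℕ → E} (hx : Cyc (fun j i => crd Γ F (!F i) i j ≠ 0) n x)
    (h1 : ∑ a ∈ range n, (if F (x a) then (-1 : ℤ) else 1) = 0)
    (h2 : ∑ a ∈ range n,
      (if F (x a) then - h (Γ.l (x a)) (τ (x a)) else h (Γ.l (x a)) (τ (x a))) ≤ 0) : False := by
  have key := mc (Γ := ℤ ×ₗ ℚ) (fun i j => crd Γ F (!F i) i j)
    (fun v => toLex ((if F v then (-1 : ℤ) else 1),
      (if F v then - h (Γ.l v) (τ v) else h (Γ.l v) (τ v))))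
    (by
      intro m y hm hy hdet
      rw [Bs_sum, Bs_pos]
      have hA : D Γ (ITA.flip F m y) ≠ 0 := flip_det hB.1.1 hy hdet
      have hc := cost_flip F hy
      have hs := sum_flip F hy (fun v => h (Γ.l v) (τ v))
      have hle : cost F ≤ cost (ITA.flip F m y) := hB.1.2 _ hA
      rcases lt_or_eq_of_le hle with hlt | heq
      · left
        omega
      · right
        refine ⟨by omega, ?_⟩
        have hM : MinSt Γ (ITA.flip F m y) := ⟨hA, fun F' hF' => heq ▸ hB.1.2 F' hF'⟩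
        have hlt := hB.2 _ hM (flip_ne F hm)
        rw [hs] at hlt
        linarith) n x hx
  rw [Bs_sum, Bs_pos, h1] at key
  rcases key with key | ⟨_, key⟩
  · exact lt_irrefl _ key
  · exact absurd h2 (not_le.2 key)

end NCC
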