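import Pool.Agent.NCC.Co

/-!
# NCC: the core for elements of the group ring

The coefficients of the relations are the equations of `core2`.
-/

set_option autoImplicit false

namespace NCC

open Finset ITA

variable {E V : Type} [DecidableEq V] [Fintype E] [DecidableEq E]

private theorem Ce_int {G : Type} [Group G] (Z : MonoidAlgebra ℤ G) (n : ℤ) (g : G) :
    (Z * ((n : ℤ) : MonoidAlgebra ℤ G)).coeff g = Z.coeff g * n := by
  have h1 : Z * ((n : ℤ) : MonoidAlgebra ℤ G) = n • Z := (zsmul_eq_mul' Z n).symm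
  rw [h1, MonoidAlgebra.coeff_smul_apply, smul_eq_mul, mul_comm]

private theorem Ce_coeff {G : Type} [Group G] (Z : MonoidAlgebra ℤ G) (y g : G) (n m : ℤ) :
    (Z * (((n : ℤ) : MonoidAlgebra ℤ G) + MonoidAlgebra.single y 1 * ((m : ℤ) : MonoidAlgebra ℤ G))).coeff g =
      Z.coeff g * n + Z.coeff (g * y⁻¹) * m := by
  rw [mul_add, ← mul_assoc, MonoidAlgebra.coeff_add, Finsupp.add_apply, Ce_int, Ce_int,
    MonoidAlgebra.coeff_mul_single_apply, mul_one]

theorem core3 {Γ : Sys E V} (hc : Function.Injective Γ.c) (hU : Uni Γ) (hcoh : Coh Γ) {G : Type}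
    [Group G] (y : E → G) (deg : G → ℤ) (hdeg : ∀ g e, deg (g * y e) = deg g + 1)
    (hκ : ∀ h : V → ℤ → ℚ, Hrm Γ h → ∃ κ : G → ℚ, ∀ g e, κ (g * y e) = κ g + h (Γ.l e) (deg g))
    (Z : E → MonoidAlgebra ℤ G)
    (hZ : ∀ j, ∑ e, Z e * (((row Γ false e j : ℤ) : MonoidAlgebra ℤ G) +
      MonoidAlgebra.single (y e) 1 * ((row Γ true e j : ℤ) : MonoidAlgebra ℤ G)) = 0) :
    ∀ e, Z e = 0 := by
  have hfin : ∀ e, (Function.support (fun g => (Z e).coeff g)).Finite := by
    intro e
    refine (Z e).coeff.support.finite_toSet.subset ?_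
    intro g hg
    rw [Function.mem_support] at hg
    exact Finset.mem_coe.2 (Finsupp.mem_support_iff.2 hg)
  have hk : ∀ j g, ∑ e, ((fun e g => (Z e).coeff g) e g * row Γ false e j +
      (fun e g => (Z e).coeff g) e (g * (y e)⁻¹) * row Γ true e j) = 0 := by
    intro j g
    have h0 := congrArg (fun Y : MonoidAlgebra ℤ G => Y.coeff g) (hZ j)
    simp only [MonoidAlgebra.coeff_sum, Finsupp.finsetSum_apply, Ce_coeff, MonoidAlgebra.coeff_zero,
      Finsupp.zero_apply] at h0
    exact h0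
  have hall := core2 hc hU hcoh y deg hdeg hκ (fun e g => (Z e).coeff g) hfin hk
  intro e
  apply MonoidAlgebra.ext
  apply Finsupp.ext
  intro g
  exact hall e g

end NCC
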