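import Pool.Agent.NCC.Cr

/-!
# NCC: functions constant on the pairs of low level

If `g` is constant on all pairs of level at most `μ`, then the rows of `F0` which occur in the
coordinates of such a pair have the same value: the vector `crd j * (g (l j) - g (l e))` is
annihilated by the nonsingular matrix of `F0`.
-/

set_option autoImplicit false

namespace NCC

open Finset ITA

variable {E V : Type} [DecidableEq V] [Fintype E] [DecidableEq E]

omit [Fintype E] [DecidableEq E] in
private theorem Gc_row {Γ : Sys E V} {g : V → ℤ} {b : Bool} {e : E}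
    (h : g (Γ.tail b e) = g (Γ.head b e)) (k : E) :
    row Γ b e k * g (Γ.c k) = row Γ b e k * g (Γ.l e) := by
  have hu : ∀ v, u Γ v k * g (Γ.c k) = u Γ v k * g v := by
    intro v
    unfold u
    split_ifs with hv
    · rw [hv]
    · simp
  have h1 : g (Γ.tail b e) = g (Γ.l e) ∧ g (Γ.head b e) = g (Γ.l e) := by
    cases b
    · have h2 : Γ.head false e = Γ.l e := rfl
      rw [h, h2]
      exact ⟨rfl, rfl⟩
    · have h2 : Γ.tail true e = Γ.l e := rfl
      rw [← h, h2]
      exact ⟨rfl, rfl⟩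
  unfold row
  rw [sub_mul, sub_mul, hu, hu, h1.1, h1.2]

theorem g_const {Γ : Sys E V} {τ : E → ℤ} {F0 : E → Bool} (hLC : LC Γ τ F0) (h0 : D Γ F0 ≠ 0) {μ : ℤ}
    {g : V → ℤ} (hg : ∀ b e, lv τ b e ≤ μ → g (Γ.tail b e) = g (Γ.head b e)) {b : Bool} {e j : E}
    (hb : lv τ b e ≤ μ) (h : crd Γ F0 b e j ≠ 0) : g (Γ.l e) = g (Γ.l j) := by
  have hx : (fun j => crd Γ F0 b e j * (g (Γ.l j) - g (Γ.l e))) = 0 := by
    refine Matrix.eq_zero_of_vecMul_eq_zero (M := Mat Γ F0) h0 ?_
    funext k
    show ∑ j, (crd Γ F0 b e j * (g (Γ.l j) - g (Γ.l e))) * row Γ (F0 j) j k = 0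
    have h1 : ∀ j, (crd Γ F0 b e j * (g (Γ.l j) - g (Γ.l e))) * row Γ (F0 j) j k =
        crd Γ F0 b e j * row Γ (F0 j) j k * (g (Γ.c k) - g (Γ.l e)) := by
      intro j
      by_cases hj : crd Γ F0 b e j = 0
      · rw [hj]
        ring
      · have h2 := Gc_row (hg (F0 j) j ((hLC b e j hj).trans hb)) k
        linear_combination -crd Γ F0 b e j * h2
    rw [Finset.sum_congr rfl fun j _ => h1 j, ← Finset.sum_mul, crd_mul]
    have h3 := Gc_row (hg b e hb) k
    linear_combination D Γ F0 * h3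
  have h2 := congrFun hx j
  have h3 : g (Γ.l j) - g (Γ.l e) = 0 := (mul_eq_zero.mp h2).resolve_left h
  omega

end NCC
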