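import Pool.Agent.NCC.Pm
import Pool.Agent.NCC.Gc

/-!
# NCC: sums over the labels of a level

For a state `F` of the same cost as `F0` the permutation of `perm_level` shows that the sum of `g (Γ.l e)` over the edges
`e` with `lv τ (F e) e ≤ μ` does not depend on `F` (`g_const`). The indicator of `lv τ (F e) e ≤ μ` changes only at the edges
of level `μ`, by `- eps F F0 e` (`Cn_point`).
-/

set_option autoImplicit false

namespace NCC

open Finset ITA

variable {E V : Type} [DecidableEq V] [Fintype E] [DecidableEq E]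

omit [Fintype E] [DecidableEq E] in
private theorem Cn_point {τ : E → ℤ} (F F0 : E → Bool) (μ z : ℤ) (e : E) :
    (if τ e = μ then eps F F0 e * z else 0) =
      (if lv τ (F0 e) e ≤ μ then z else 0) - (if lv τ (F e) e ≤ μ then z else 0) := by
  unfold lv eps
  cases hF : F e <;> cases hF0 : F0 e <;> simp only [Bool.false_eq_true, if_true, if_false] <;>
    split_ifs <;> omega

theorem cn1 {Γ : Sys E V} {τ : E → ℤ} {F0 F : E → Bool} (hLC : LC Γ τ F0) (h0 : D Γ F0 ≠ 0)
    (hF : D Γ F ≠ 0) (hc : cost F = cost F0) {μ : ℤ} {g : V → ℤ}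
    (hg : ∀ b e, lv τ b e ≤ μ → g (Γ.tail b e) = g (Γ.head b e)) :
    ∑ e, (if τ e = μ then eps F F0 e * g (Γ.l e) else 0) = 0 := by
  obtain ⟨σ, hσ⟩ := perm_level hLC h0 hF hc
  have h1 : ∑ e, (if lv τ (F0 e) e ≤ μ then g (Γ.l e) else 0) =
      ∑ e, (if lv τ (F e) e ≤ μ then g (Γ.l e) else 0) := by
    rw [← Equiv.sum_comp σ]
    refine Finset.sum_congr rfl fun e _ => ?_
    rw [(hσ e).2]
    by_cases h2 : lv τ (F e) e ≤ μ
    · rw [if_pos h2, if_pos h2]
      exact (g_const hLC h0 hg h2 (hσ e).1).symm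
    · rw [if_neg h2, if_neg h2]
  have h2 : ∀ e, (if τ e = μ then eps F F0 e * g (Γ.l e) else 0) =
      (if lv τ (F0 e) e ≤ μ then g (Γ.l e) else 0) - (if lv τ (F e) e ≤ μ then g (Γ.l e) else 0) :=
    fun e => Cn_point F F0 μ (g (Γ.l e)) e
  rw [Finset.sum_congr rfl fun e _ => h2 e, Finset.sum_sub_distrib, h1, sub_self]

theorem cn {Γ : Sys E V} {τ : E → ℤ} {F0 F F' : E → Bool} (hLC : LC Γ τ F0) (h0 : D Γ F0 ≠ 0)
    (hF : D Γ F ≠ 0) (hc : cost F = cost F0) (hF' : D Γ F' ≠ 0) (hc' : cost F' = cost F0) {μ : ℤ}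
    {g : V → ℤ} (hg : ∀ b e, lv τ b e ≤ μ → g (Γ.tail b e) = g (Γ.head b e)) :
    ∑ e, (if τ e = μ then eps F F' e * g (Γ.l e) else 0) = 0 := by
  have h1 := cn1 hLC h0 hF hc hg
  have h2 := cn1 hLC h0 hF' hc' hg
  have h3 : ∀ e, (if τ e = μ then eps F F' e * g (Γ.l e) else 0) =
      (if τ e = μ then eps F F0 e * g (Γ.l e) else 0) -
        (if τ e = μ then eps F' F0 e * g (Γ.l e) else 0) := by
    intro e
    by_cases h4 : τ e = μ
    · rw [if_pos h4, if_pos h4, if_pos h4]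
      unfold eps
      ring
    · rw [if_neg h4, if_neg h4, if_neg h4, sub_self]
  rw [Finset.sum_congr rfl fun e _ => h3 e, Finset.sum_sub_distrib, h1, h2, sub_self]

end NCC
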