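import Pool.Agent.NCC.Fd
import Pool.Agent.ITA.Mc
import Pool.Agent.ITA.Ce
import Pool.Agent.ITA.Pt

/-!
# NCC: levels adapted to one state of minimum cost

`tau_one`: as `ITA.exists_tau` (module ITA/Tau). `L v = if F v then -1 else 1`, `N = card E`. For distinct `x a` with
nonzero minor of `Q i j = crd Γ F (!F i) i j` the choice `ITA.flip F n x` is a state (`flip_det`), so `0 ≤ ∑ L (x a)`
(`ITA.cost_flip`, `hF.2`). `ITA.mc` with weights `N * L v + 1`, `cyc_len` give `0 ≤ ∑ L` for all cycles of
`E j i := Q i j ≠ 0`; `ITA.pot` gives `q` with `q j ≤ L i + q i`; put `τ v = q v - (if F v then 1 else 0)`. Then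
`lv τ (F j) j = q j` and `lv τ (!F i) i = L i + q i`. `LC`: for `b = F e` use `crd_self` (nonzero only for `e = j`), for
`b = !F e` the inequality of `q`.
-/

set_option autoImplicit false

namespace NCC

open Finset ITA

variable {E V : Type} [DecidableEq V] [Fintype E] [DecidableEq E]

theorem tau_one {Γ : Sys E V} {F : E → Bool} (hF : MinSt Γ F) : ∃ τ : E → ℤ, LC Γ τ F := by
  let L : E → ℤ := fun v => if F v then -1 else 1
  have hX : ∀ (n : ℕ) (x : ℕ → E), Inj n x →
      (Matrix.of fun a b : Fin n => crd Γ F (!F (x a)) (x a) (x b)).det ≠ 0 →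
      0 ≤ ∑ a ∈ range n, L (x a) := by
    intro n x hx hdet
    have h1 := hF.2 _ (flip_det hF.1 hx hdet)
    have h2 := cost_flip F hx
    have h3 : (cost F : ℤ) ≤ cost (ITA.flip F n x) := by exact_mod_cast h1
    have h4 : ∑ a ∈ range n, L (x a) = ∑ a ∈ range n, (if F (x a) then (-1 : ℤ) else 1) := rfl
    omega
  have hC : ∀ (n : ℕ) (x : ℕ → E), Cyc (fun j i => crd Γ F (!F i) i j ≠ 0) n x →
      0 ≤ ∑ a ∈ range n, L (x a) := by
    intro n x hx
    have h1 := mc (fun i j => crd Γ F (!F i) i j) (fun v => (Fintype.card E : ℤ) * L v + 1)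
      (fun n x hn hx hdet => by
        have h2 := hX n x hx hdet
        rw [Finset.sum_add_distrib, ← Finset.mul_sum]
        simp only [Finset.sum_const, Finset.card_range, nsmul_eq_mul, mul_one]
        have h3 : (0 : ℤ) ≤ (Fintype.card E : ℤ) * ∑ a ∈ range n, L (x a) :=
          mul_nonneg (by positivity) h2
        have h4 : (0 : ℤ) < (n : ℤ) := by exact_mod_cast hn
        omega) n x hx
    rw [Finset.sum_add_distrib, ← Finset.mul_sum] at h1
    simp only [Finset.sum_const, Finset.card_range, nsmul_eq_mul, mul_one] at h1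
    have h5 : (n : ℤ) ≤ (Fintype.card E : ℤ) := by exact_mod_cast cyc_len hx
    by_contra h6
    have h7 : ∑ a ∈ range n, L (x a) ≤ -1 := by omega
    have h8 : (Fintype.card E : ℤ) * ∑ a ∈ range n, L (x a) ≤ (Fintype.card E : ℤ) * (-1) :=
      mul_le_mul_of_nonneg_left h7 (by positivity)
    omega
  obtain ⟨q, hq⟩ := pot (fun j i => crd Γ F (!F i) i j ≠ 0) L hC
  refine ⟨fun v => q v - (if F v then 1 else 0), ?_⟩
  have hl1 : ∀ j, lv (fun v => q v - (if F v then 1 else 0)) (F j) j = q j := by
    intro j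
    unfold lv
    cases h : F j
    · simp [h]
    · simp [h]
  have hl2 : ∀ j, lv (fun v => q v - (if F v then 1 else 0)) (!F j) j = L j + q j := by
    intro j
    have hL : L j = if F j then -1 else 1 := rfl
    rw [hL]
    unfold lv
    cases h : F j
    · simp [h]
      ring
    · simp [h]
      ring
  intro b e j hne
  by_cases hb : b = F e
  · rw [hb, crd_self] at hne
    by_cases hej : e = j
    · subst hej
      rw [hb]
    · rw [if_neg hej] at hne
      exact absurd rfl hne
  · have hb2 : b = !F e := by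
      cases h : F e <;> cases b <;> simp_all
    rw [hb2] at hne ⊢
    rw [hl1, hl2]
    exact hq j e hne

end NCC
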