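import Pool.Agent.NCC.Pm
import Pool.Agent.NCC.Aj
import Pool.Agent.NCC.Ta
import Pool.Agent.NCC.St

/-!
# NCC: levels adapted to all states of minimum cost

`lc_transfer`: levels adapted to one state are adapted to every state of the same cost (adjugate of the matrix of
the transition between the two states). `exists_tau`: levels adapted to all states of minimum cost.
-/

set_option autoImplicit false

namespace NCC

open Finset ITA

variable {E V : Type} [DecidableEq V] [Fintype E] [DecidableEq E]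

private theorem Lt_mul (Γ : Sys E V) (F0 F : E → Bool) :
    (Matrix.of fun e j : E => crd Γ F0 (F e) e j) = Mat Γ F * (Mat Γ F0).adjugate := by
  ext e j
  rw [Matrix.mul_apply, Matrix.of_apply, crd_eq]
  rfl

private theorem Lt_sum (Γ : Sys E V) (F0 F : E → Bool) (b : Bool) (e j : E) :
    ∑ k, crd Γ F0 b e k * (Matrix.of fun e j : E => crd Γ F0 (F e) e j).adjugate k j =
      (Mat Γ F0).adjugate.det * crd Γ F b e j := by
  rw [Lt_mul, Matrix.adjugate_mul_distrib]
  have h1 : ∀ k, crd Γ F0 b e k = Matrix.vecMul (fun i => row Γ b e i) (Mat Γ F0).adjugate k := by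
    intro k
    rw [crd_eq]
    rfl
  have h2 : crd Γ F b e j = Matrix.vecMul (fun i => row Γ b e i) (Mat Γ F).adjugate j := by
    rw [crd_eq]
    rfl
  have h3 : ∑ k, crd Γ F0 b e k * ((Mat Γ F0).adjugate.adjugate * (Mat Γ F).adjugate) k j =
      Matrix.vecMul (Matrix.vecMul (fun i => row Γ b e i) (Mat Γ F0).adjugate)
        ((Mat Γ F0).adjugate.adjugate * (Mat Γ F).adjugate) j := by
    simp only [h1]
    rfl
  rw [h3, h2, Matrix.vecMul_vecMul, ← Matrix.mul_assoc, Matrix.mul_adjugate, Matrix.smul_mul, Matrix.one_mul,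
    Matrix.vecMul_smul]
  rfl

theorem lc_transfer {Γ : Sys E V} {τ : E → ℤ} {F0 F : E → Bool} (hLC : LC Γ τ F0) (h0 : D Γ F0 ≠ 0)
    (hc : cost F = cost F0) : LC Γ τ F := by
  intro b e j hne
  have hs := Lt_sum Γ F0 F b e j
  have hne' : (Mat Γ F0).adjugate.det * crd Γ F b e j ≠ 0 := mul_ne_zero (adj_det_ne h0) hne
  rw [← hs] at hne'
  obtain ⟨k, -, hk⟩ := Finset.exists_ne_zero_of_sum_ne_zero hne'
  have hk1 := left_ne_zero_of_mul hk
  have hk2 := right_ne_zero_of_mul hk
  have h1 := hLC b e k hk1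
  have h2 : lv τ (F j) j ≤ lv τ (F0 k) k := by
    refine adj_tri (Matrix.of fun e j : E => crd Γ F0 (F e) e j) (fun e => lv τ (F e) e)
      (fun e => lv τ (F0 e) e) ?_ ?_ hk2
    · intro e' j' h
      exact hLC (F e') e' j' h
    · rw [sum_lv, sum_lv, hc]
  exact h2.trans h1

theorem exists_tau {Γ : Sys E V} (hU : Uni Γ) : ∃ τ : E → ℤ, ∀ F, MinSt Γ F → LC Γ τ F := by
  obtain ⟨F0, hF0⟩ := exists_min hU
  obtain ⟨τ, hτ⟩ := tau_one hF0
  refine ⟨τ, fun F hF => lc_transfer hτ hF0.1 ?_⟩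
  exact le_antisymm (hF.2 F0 hF0.1) (hF0.2 F hF.1)

end NCC
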