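import Pool.Agent.NCC.Nm

/-!
# NCC: a harmonic function separating the states of minimum cost

A linear functional on the quotient by the span of the relations which does not vanish on any of the finitely many
differences of values.
-/

set_option autoImplicit false

namespace NCC

open Finset ITA

variable {E V : Type} [DecidableEq V] [Fintype E] [DecidableEq E]

theorem sep2 {Γ : Sys E V} (hc : Function.Injective Γ.c) (hU : Uni Γ) (hcoh : Coh Γ) {τ : E → ℤ}
    (hτ : ∀ F, MinSt Γ F → LC Γ τ F) :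
    ∃ h : V → ℤ → ℚ, Hrm Γ h ∧ ∀ F F', MinSt Γ F → MinSt Γ F' → F ≠ F' →
      ∑ e, (eps F F' e : ℚ) * h (Γ.l e) (τ e) ≠ 0 := by
  let K : Submodule ℚ ((E × ℤ) →₀ ℚ) := Submodule.span ℚ (Set.range (rl Γ))
  obtain ⟨φ, hφ⟩ := Module.exists_dual_forall_apply_ne_zero (K := ℚ)
    (M := ((E × ℤ) →₀ ℚ) ⧸ K)
    (ι := {x : (E → Bool) × (E → Bool) // MinSt Γ x.1 ∧ MinSt Γ x.2 ∧ x.1 ≠ x.2})
    (fun x => K.mkQ (ww Γ τ x.1.1 x.1.2)) (by
      intro x hx
      have h1 : ww Γ τ x.1.1 x.1.2 ∈ K := by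
        rwa [Submodule.mkQ_apply, Submodule.Quotient.mk_eq_zero] at hx
      exact x.2.2.2 (not_mem2 hc hU hcoh hτ x.2.1 x.2.2.1 h1))
  let ψ : ((E × ℤ) →₀ ℚ) →ₗ[ℚ] ℚ := LinearMap.comp φ K.mkQ
  have hψ : ∀ x : E × ℤ, ψ (rl Γ x) = 0 := by
    intro x
    have h1 : K.mkQ (rl Γ x) = 0 := by
      rw [Submodule.mkQ_apply, Submodule.Quotient.mk_eq_zero]
      exact Submodule.subset_span ⟨x, rfl⟩
    show φ (K.mkQ (rl Γ x)) = 0
    rw [h1, map_zero]
  refine ⟨fun v d => ψ (vec Γ v d), ⟨?_, ?_⟩, ?_⟩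
  · intro v hv d
    have h2 : vec Γ v d = 0 := by
      unfold vec
      refine Finset.sum_eq_zero fun j _ => ?_
      have h3 : u Γ v j = 0 := if_neg fun h => hv j h.symm
      rw [h3, Int.cast_zero, Finsupp.single_zero]
    show ψ (vec Γ v d) = 0
    rw [h2, map_zero]
  · intro e d
    have h2 := hψ (e, d)
    unfold rl at h2
    rw [map_sub, map_add, map_sub] at h2
    exact h2
  · intro F F' hF hF' hne
    have h3 := hφ ⟨(F, F'), hF, hF', hne⟩
    have h4 : ψ (ww Γ τ F F') = ∑ e, (eps F F' e : ℚ) * ψ (vec Γ (Γ.l e) (τ e)) := by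
      unfold ww
      rw [map_sum]
      refine Finset.sum_congr rfl (fun e _ => ?_)
      rw [map_smul, smul_eq_mul]
    rw [← h4]
    exact h3

end NCC
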