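import Pool.Agent.NCC.Lc
import Pool.Agent.NCC.Bs
import Pool.Agent.NCC.Sp
import Pool.Agent.NCC.Lt

/-!
# NCC: the core: injectivity over the group ring
-/

set_option autoImplicit false

namespace NCC

open Finset ITA

variable {E V : Type} [DecidableEq V] [Fintype E] [DecidableEq E]

omit [DecidableEq V] [Fintype E] [DecidableEq E] in
private theorem Co_lv (τ : E → ℤ) (k : ℤ) (b : Bool) (e : E) :
    lv (fun e => τ e + k) b e = lv τ b e + k := by
  unfold lv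
  cases b
  · simp
  · simp only [if_true]
    ring

theorem lc_shift {Γ : Sys E V} {τ : E → ℤ} {F : E → Bool} (k : ℤ) (h : LC Γ τ F) :
    LC Γ (fun e => τ e + k) F := by
  intro b e j hne
  have h1 := h b e j hne
  rw [Co_lv, Co_lv]
  omega

theorem core2 {Γ : Sys E V} (hc : Function.Injective Γ.c) (hU : Uni Γ) (hcoh : Coh Γ) {G : Type}
    [Group G] (y : E → G) (deg : G → ℤ) (hdeg : ∀ g e, deg (g * y e) = deg g + 1)
    (hκ : ∀ h : V → ℤ → ℚ, Hrm Γ h → ∃ κ : G → ℚ, ∀ g e, κ (g * y e) = κ g + h (Γ.l e) (deg g))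
    (c : E → G → ℤ) (hfin : ∀ e, (Function.support (c e)).Finite)
    (hk : ∀ j g, ∑ e, (c e g * row Γ false e j + c e (g * (y e)⁻¹) * row Γ true e j) = 0) :
    ∀ e g, c e g = 0 := by
  intro e0 g0
  by_contra hne0
  obtain ⟨τ0, hτ0⟩ := exists_tau hU
  have hS : ({y : E × G | c y.1 y.2 ≠ 0} : Set (E × G)).Finite := by
    refine Set.Finite.subset (Set.finite_iUnion (fun e => (hfin e).image (Prod.mk e))) ?_
    rintro ⟨e, g⟩ h2
    exact Set.mem_iUnion.2 ⟨e, g, h2, rfl⟩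
  obtain ⟨⟨e1, g1⟩, h12, hmin⟩ := Set.exists_min_image _
    (fun y : E × G => deg y.2 - τ0 y.1) hS ⟨(e0, g0), hne0⟩
  have hLC : ∀ F, MinSt Γ F → LC Γ (fun e => τ0 e + (deg g1 - τ0 e1)) F :=
    fun F hF => lc_shift _ (hτ0 F hF)
  obtain ⟨h, hh, hsep⟩ := sep2 hc hU hcoh hLC
  obtain ⟨κ, hκ'⟩ := hκ h hh
  obtain ⟨F, hB⟩ := bst_exists hU hsep
  obtain ⟨n, x, hx, h1, h2⟩ := lead_cycle2 hB.1.1 (hLC F hB.1) y h (fun g => (deg g, κ g))
    (fun g e => by
      show (deg (g * y e), κ (g * y e)) = (deg g + 1, κ g + h (Γ.l e) (deg g))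
      rw [hdeg, hκ']) c hfin hk
    (fun e g hg => by
      have h3 := hmin (e, g) hg
      have h4 : deg g1 - τ0 e1 ≤ deg g - τ0 e := h3
      show τ0 e + (deg g1 - τ0 e1) ≤ deg g
      omega)
    ⟨e1, g1, h12, by
      show deg g1 = τ0 e1 + (deg g1 - τ0 e1)
      omega⟩
  exact bst_cycle hB hx h1 h2

end NCC
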