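import Pool.Agent.NCC.Defs

/-!
# NCC: coordinates with respect to the rows of a choice

`crv Γ F v` is the row vector `u Γ v` times the adjugate of `Mat Γ F`, `crd Γ F b e` is the row `row Γ b e` times the
adjugate. The identities of this file all come from `adjugate A * A = A.det • 1 = A * adjugate A`.
-/

set_option autoImplicit false

namespace NCC

open Finset ITA

variable {E V : Type} [DecidableEq V] [Fintype E] [DecidableEq E]

theorem crd_eq (Γ : Sys E V) (F : E → Bool) (b : Bool) (e j : E) :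
    crd Γ F b e j = ∑ k, row Γ b e k * (Mat Γ F).adjugate k j := by
  unfold crd crv row
  rw [← Finset.sum_sub_distrib]
  refine Finset.sum_congr rfl fun k _ => ?_
  ring

theorem crv_mul (Γ : Sys E V) (F : E → Bool) (v : V) (k : E) :
    ∑ j, crv Γ F v j * row Γ (F j) j k = D Γ F * u Γ v k := by
  have h1 : ∀ l, ∑ j, (Mat Γ F).adjugate l j * row Γ (F j) j k = if l = k then D Γ F else 0 := by
    intro l
    have h2 : ((Mat Γ F).adjugate * Mat Γ F) l k = ((Mat Γ F).det • (1 : Matrix E E ℤ)) l k := by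
      rw [Matrix.adjugate_mul]
    rw [Matrix.mul_apply, Matrix.smul_apply, Matrix.one_apply, smul_eq_mul] at h2
    rw [show ∑ j, (Mat Γ F).adjugate l j * row Γ (F j) j k = ∑ j, (Mat Γ F).adjugate l j * Mat Γ F j k from rfl, h2]
    by_cases h : l = k
    · rw [if_pos h, if_pos h, mul_one]
      rfl
    · rw [if_neg h, if_neg h, mul_zero]
  unfold crv
  calc ∑ j, (∑ l, u Γ v l * (Mat Γ F).adjugate l j) * row Γ (F j) j k
      = ∑ j, ∑ l, u Γ v l * ((Mat Γ F).adjugate l j * row Γ (F j) j k) := by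
        refine Finset.sum_congr rfl fun j _ => ?_
        rw [Finset.sum_mul]
        exact Finset.sum_congr rfl fun l _ => by ring
    _ = ∑ l, ∑ j, u Γ v l * ((Mat Γ F).adjugate l j * row Γ (F j) j k) := Finset.sum_comm
    _ = ∑ l, u Γ v l * (if l = k then D Γ F else 0) := by
        refine Finset.sum_congr rfl fun l _ => ?_
        rw [← Finset.mul_sum, h1 l]
    _ = u Γ v k * (if k = k then D Γ F else 0) := by
        refine Finset.sum_eq_single k ?_ ?_
        · intro l _ hl
          rw [if_neg hl, mul_zero]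
        · intro hk
          exact absurd (Finset.mem_univ k) hk
    _ = D Γ F * u Γ v k := by
        rw [if_pos rfl, mul_comm]

theorem crd_mul (Γ : Sys E V) (F : E → Bool) (b : Bool) (e k : E) :
    ∑ j, crd Γ F b e j * row Γ (F j) j k = D Γ F * row Γ b e k := by
  have h1 := crv_mul Γ F (Γ.tail b e) k
  have h2 := crv_mul Γ F (Γ.head b e) k
  calc ∑ j, crd Γ F b e j * row Γ (F j) j k
      = ∑ j, (crv Γ F (Γ.tail b e) j * row Γ (F j) j k - crv Γ F (Γ.head b e) j * row Γ (F j) j k) := by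
        refine Finset.sum_congr rfl fun j _ => ?_
        unfold crd
        ring
    _ = D Γ F * u Γ (Γ.tail b e) k - D Γ F * u Γ (Γ.head b e) k := by
        rw [Finset.sum_sub_distrib, h1, h2]
    _ = D Γ F * row Γ b e k := by
        unfold row
        ring

theorem crd_self (Γ : Sys E V) (F : E → Bool) (e j : E) :
    crd Γ F (F e) e j = if e = j then D Γ F else 0 := by
  rw [crd_eq]
  have h2 : (Mat Γ F * (Mat Γ F).adjugate) e j = ((Mat Γ F).det • (1 : Matrix E E ℤ)) e j := by
    rw [Matrix.mul_adjugate]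
  rw [Matrix.mul_apply, Matrix.smul_apply, Matrix.one_apply, smul_eq_mul] at h2
  rw [show ∑ k, row Γ (F e) e k * (Mat Γ F).adjugate k j = ∑ k, Mat Γ F e k * (Mat Γ F).adjugate k j from rfl, h2]
  by_cases h : e = j
  · rw [if_pos h, if_pos h, mul_one]
    rfl
  · rw [if_neg h, if_neg h, mul_zero]

theorem u_apply (Γ : Sys E V) (hc : Function.Injective Γ.c) {M : Type} [AddCommGroup M] (g : V → M)
    (hg : ∀ v, (∀ j, Γ.c j ≠ v) → g v = 0) (v : V) : ∑ j, u Γ v j • g (Γ.c j) = g v := by
  by_cases h : ∃ j, Γ.c j = v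
  · obtain ⟨j, rfl⟩ := h
    rw [Finset.sum_eq_single j]
    · unfold u
      rw [if_pos rfl, one_smul]
    · intro k _ hk
      unfold u
      rw [if_neg, zero_smul]
      intro h
      exact hk (hc h.symm)
    · intro hj
      exact absurd (Finset.mem_univ j) hj
  · have h' : ∀ j, Γ.c j ≠ v := fun j hj => h ⟨j, hj⟩
    rw [hg v h']
    refine Finset.sum_eq_zero fun j _ => ?_
    unfold u
    rw [if_neg (fun hv => h' j hv.symm), zero_smul]

theorem crv_off (Γ : Sys E V) (F : E → Bool) {v : V} (hv : ∀ j, Γ.c j ≠ v) (j : E) :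
    crv Γ F v j = 0 := by
  unfold crv
  refine Finset.sum_eq_zero fun k _ => ?_
  unfold u
  rw [if_neg (fun h => hv k h.symm), zero_mul]

theorem crv_apply (Γ : Sys E V) (hc : Function.Injective Γ.c) (F : E → Bool) {M : Type} [AddCommGroup M]
    (g : V → M) (hg : ∀ v, (∀ j, Γ.c j ≠ v) → g v = 0) (v : V) :
    D Γ F • g v = ∑ j, crv Γ F v j • (g (Γ.tail (F j) j) - g (Γ.head (F j) j)) := by
  have h1 : ∀ j, g (Γ.tail (F j) j) - g (Γ.head (F j) j) = ∑ k, row Γ (F j) j k • g (Γ.c k) := by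
    intro j
    rw [← u_apply Γ hc g hg (Γ.tail (F j) j), ← u_apply Γ hc g hg (Γ.head (F j) j), ← Finset.sum_sub_distrib]
    refine Finset.sum_congr rfl fun k _ => ?_
    rw [← sub_smul]
    rfl
  calc D Γ F • g v = D Γ F • ∑ k, u Γ v k • g (Γ.c k) := by rw [u_apply Γ hc g hg v]
    _ = ∑ k, (D Γ F * u Γ v k) • g (Γ.c k) := by
        rw [Finset.smul_sum]
        exact Finset.sum_congr rfl fun k _ => by rw [mul_smul]
    _ = ∑ k, ∑ j, (crv Γ F v j * row Γ (F j) j k) • g (Γ.c k) := by
        refine Finset.sum_congr rfl fun k _ => ?_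
        rw [← crv_mul Γ F v k, Finset.sum_smul]
    _ = ∑ j, ∑ k, (crv Γ F v j * row Γ (F j) j k) • g (Γ.c k) := Finset.sum_comm
    _ = ∑ j, crv Γ F v j • (g (Γ.tail (F j) j) - g (Γ.head (F j) j)) := by
        refine Finset.sum_congr rfl fun j _ => ?_
        rw [h1 j, Finset.smul_sum]
        exact Finset.sum_congr rfl fun k _ => by rw [mul_smul]

theorem crd_apply (Γ : Sys E V) (hc : Function.Injective Γ.c) (F : E → Bool) {M : Type} [AddCommGroup M]
    (g : V → M) (hg : ∀ v, (∀ j, Γ.c j ≠ v) → g v = 0) (b : Bool) (e : E) :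
    D Γ F • (g (Γ.tail b e) - g (Γ.head b e)) =
      ∑ j, crd Γ F b e j • (g (Γ.tail (F j) j) - g (Γ.head (F j) j)) := by
  rw [smul_sub, crv_apply Γ hc F g hg (Γ.tail b e), crv_apply Γ hc F g hg (Γ.head b e), ← Finset.sum_sub_distrib]
  refine Finset.sum_congr rfl fun j _ => ?_
  rw [← sub_smul]
  rfl

theorem crd_det (Γ : Sys E V) (F0 F : E → Bool) :
    (Matrix.of fun e j : E => crd Γ F0 (F e) e j).det = D Γ F * (Mat Γ F0).adjugate.det := by
  have h : (Matrix.of fun e j : E => crd Γ F0 (F e) e j) = Mat Γ F * (Mat Γ F0).adjugate := by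
    ext e j
    rw [Matrix.mul_apply]
    exact crd_eq Γ F0 (F e) e j
  rw [h, Matrix.det_mul]
  rfl

theorem adj_det_ne {Γ : Sys E V} {F : E → Bool} (h : D Γ F ≠ 0) : (Mat Γ F).adjugate.det ≠ 0 := by
  rw [Matrix.det_adjugate]
  exact pow_ne_zero _ h

end NCC
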