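import Pool.Agent.NCC.Defs

/-!
# NCC: invariance of the multiplicities

`inv_count`: apply `h` with `R = MonoidAlgebra ℤ (Multiplicative K)` and `s a = MonoidAlgebra.single (Multiplicative.ofAdd a) 1`
(or any commutative group ring of `K`, e.g. `AddMonoidAlgebra ℤ K`). It says `P * single k 1 = P` with
`P = ∑ y, single (w y) (d y)`. Compare the coefficients at `x + k`: `MonoidAlgebra.coeff_mul_single_apply` (see
ITA/Cc.lean, ITA/So.lean for its use), coefficient of `P` at `x` is `∑ y, if w y = x then d y else 0`.
-/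

set_option autoImplicit false

namespace NCC

open Finset ITA

variable {E V : Type} [DecidableEq V] [Fintype E] [DecidableEq E]

theorem inv_count {K : Type} [AddCommGroup K] [DecidableEq K] {ι : Type} [Fintype ι] (d : ι → ℤ)
    (w : ι → K) (k : K)
    (h : ∀ (R : Type) [CommRing R] (s : K → R), s 0 = 1 → (∀ a b, s (a + b) = s a * s b) →
      (∑ y, ((d y : ℤ) : R) * s (w y)) * (s k - 1) = 0) (x : K) :
    ∑ y, (if w y = x + k then d y else 0) = ∑ y, (if w y = x then d y else 0) := by
  have hc : ∀ z : K, (∑ y, ((d y : ℤ) : AddMonoidAlgebra ℤ K) * AddMonoidAlgebra.single (w y) 1).coeff z =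
      ∑ y, (if w y = z then d y else 0) := by
    intro z
    rw [AddMonoidAlgebra.coeff_sum, Finsupp.finsetSum_apply]
    refine Finset.sum_congr rfl fun y _ => ?_
    rw [← zsmul_eq_mul, AddMonoidAlgebra.coeff_smul_apply, AddMonoidAlgebra.coeff_single, Finsupp.single_apply]
    split_ifs
    · rw [smul_eq_mul, mul_one]
    · rw [smul_zero]
  have h1 := h (AddMonoidAlgebra ℤ K) (fun a => AddMonoidAlgebra.single a 1) rfl (fun a b => by
    rw [AddMonoidAlgebra.single_mul_single, mul_one])
  rw [mul_sub, mul_one, sub_eq_zero] at h1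
  have h2 := congrArg (fun P => AddMonoidAlgebra.coeff P (x + k)) h1
  rw [AddMonoidAlgebra.coeff_mul_single_apply, mul_one, hc, hc, add_neg_cancel_right] at h2
  exact h2.symm

end NCC
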