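import Pool.Agent.NCC.Defs

/-!
# NCC: expansion of a determinant over all choices

`det_expand`: both sides are expanded over the permutations (Leibniz formula), the product of the sums by
`Finset.prod_univ_sum`.
-/

set_option autoImplicit false

namespace NCC

open Finset ITA

variable {E V : Type} [DecidableEq V] [Fintype E] [DecidableEq E]

theorem det_expand {R : Type} [CommRing R] (α β : E → E → R) (y : E → R) :
    (Matrix.of fun e j : E => α e j + y e * β e j).det =
      ∑ F : E → Bool, (∏ e, (if F e then y e else 1)) *
        (Matrix.of fun e j : E => if F e then β e j else α e j).det := by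
  have key : ∀ σ : Equiv.Perm E, ∏ e, (α e (σ e) + y e * β e (σ e)) =
      ∑ F : E → Bool, ∏ e, (if F e then y e * β e (σ e) else α e (σ e)) := by
    intro σ
    have h := Finset.prod_univ_sum (fun _ : E => (Finset.univ : Finset Bool))
      (fun e b => if b = true then y e * β e (σ e) else α e (σ e))
    rw [Fintype.piFinset_univ] at h
    rw [← h]
    refine Finset.prod_congr rfl fun e _ => ?_
    rw [Fintype.sum_bool]
    simp [add_comm]
  rw [← Matrix.det_transpose, Matrix.det_apply']
  have hl : ∀ σ : Equiv.Perm E, (∏ i, (Matrix.of fun e j : E => α e j + y e * β e j).transpose (σ i) i) =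
      ∑ F : E → Bool, ∏ e, (if F e then y e * β e (σ e) else α e (σ e)) := by
    intro σ
    rw [← key]
    rfl
  simp_rw [hl, Finset.mul_sum]
  rw [Finset.sum_comm]
  refine Finset.sum_congr rfl fun F _ => ?_
  rw [← Matrix.det_transpose, Matrix.det_apply', Finset.mul_sum]
  refine Finset.sum_congr rfl fun σ _ => ?_
  have h2 : (∏ e, (if F e then y e * β e (σ e) else α e (σ e))) =
      (∏ e, (if F e then y e else 1)) *
        ∏ i, (Matrix.of fun e j : E => if F e then β e j else α e j).transpose (σ i) i := by
    rw [← Finset.prod_mul_distrib]
    refine Finset.prod_congr rfl fun e _ => ?_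
    show (if F e then y e * β e (σ e) else α e (σ e)) = (if F e then y e else 1) * (if F e then β e (σ e) else α e (σ e))
    by_cases h : F e = true
    · rw [if_pos h, if_pos h, if_pos h]
    · rw [if_neg h, if_neg h, if_neg h, one_mul]
  rw [h2]
  ring

end NCC
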