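import Pool.Agent.NCC.Pm
import Pool.Agent.NCC.Me

/-!
# NCC: determinants of the initial matrices

`ini_det`: the determinant of the initial parts of the coordinates of the rows of the choice `F` is the determinant of
the coordinates if `F` and `F0` have the same cost, and `0` otherwise. `ini_expand`, `ini_one`: the determinant of
the sum of the initial matrices of both types, expanded over all choices.
-/

set_option autoImplicit false

namespace NCC

open Finset ITA

variable {E V : Type} [DecidableEq V] [Fintype E] [DecidableEq E]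

theorem ini_det {Γ : Sys E V} {τ : E → ℤ} {F0 : E → Bool} (hLC : LC Γ τ F0) (F : E → Bool) :
    (Matrix.of fun e j : E => ini Γ τ F0 (F e) e j).det =
      (Mat Γ F0).adjugate.det * (if cost F = cost F0 then D Γ F else 0) := by
  classical
  have hs : ∀ σ : Equiv.Perm E, ∑ i, lv τ (F (σ i)) (σ i) = ∑ e, τ e + (cost F : ℤ) := by
    intro σ
    rw [Equiv.sum_comp σ (fun e => lv τ (F e) e)]
    exact sum_lv τ F
  have hs0 : ∑ i, lv τ (F0 i) i = ∑ e, τ e + (cost F0 : ℤ) := sum_lv τ F0
  by_cases hc : cost F = cost F0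
  · rw [if_pos hc, mul_comm, ← crd_det, Matrix.det_apply, Matrix.det_apply]
    refine Finset.sum_congr rfl fun σ _ => ?_
    have hp : ∏ i, ini Γ τ F0 (F (σ i)) (σ i) i = ∏ i, crd Γ F0 (F (σ i)) (σ i) i := by
      by_cases h : ∀ i, crd Γ F0 (F (σ i)) (σ i) i ≠ 0
      · have hle : ∀ i ∈ (univ : Finset E), lv τ (F0 i) i ≤ lv τ (F (σ i)) (σ i) :=
          fun i _ => hLC (F (σ i)) (σ i) i (h i)
        have hsum : ∑ i, lv τ (F0 i) i = ∑ i, lv τ (F (σ i)) (σ i) := by
          rw [hs σ, hs0, hc]
        have heq := (Finset.sum_eq_sum_iff_of_le hle).1 hsum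
        refine Finset.prod_congr rfl fun i hi => ?_
        unfold ini
        rw [if_pos (heq i hi)]
      · push Not at h
        obtain ⟨i, hi⟩ := h
        have h1 : ini Γ τ F0 (F (σ i)) (σ i) i = 0 := by
          unfold ini
          rw [hi, ite_self]
        exact (Finset.prod_eq_zero (f := fun i => ini Γ τ F0 (F (σ i)) (σ i) i) (mem_univ i) h1).trans
          (Finset.prod_eq_zero (f := fun i => crd Γ F0 (F (σ i)) (σ i) i) (mem_univ i) hi).symm
    simp only [Matrix.of_apply]
    rw [hp]
  · rw [if_neg hc, mul_zero, Matrix.det_apply]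
    refine Finset.sum_eq_zero fun σ _ => ?_
    have hp : ∏ i, ini Γ τ F0 (F (σ i)) (σ i) i = 0 := by
      by_contra hne
      have hall := Finset.prod_ne_zero_iff.1 hne
      have heq : ∀ i, lv τ (F0 i) i = lv τ (F (σ i)) (σ i) := by
        intro i
        by_contra hi
        apply hall i (mem_univ i)
        unfold ini
        rw [if_neg hi]
      apply hc
      have h1 : ∑ i, lv τ (F0 i) i = ∑ i, lv τ (F (σ i)) (σ i) :=
        Finset.sum_congr rfl fun i _ => heq i
      rw [hs σ, hs0] at h1
      have h2 : (cost F0 : ℤ) = (cost F : ℤ) := add_left_cancel h1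
      exact_mod_cast h2.symm
    simp only [Matrix.of_apply]
    rw [hp, smul_zero]

theorem ini_expand {Γ : Sys E V} {τ : E → ℤ} {F0 : E → Bool} (hLC : LC Γ τ F0) {R : Type} [CommRing R]
    (y : E → R) :
    (Matrix.of fun e j : E => ((ini Γ τ F0 false e j : ℤ) : R) + y e * ((ini Γ τ F0 true e j : ℤ) : R)).det =
      (((Mat Γ F0).adjugate.det : ℤ) : R) * ∑ F : E → Bool,
        (((if cost F = cost F0 then D Γ F else 0) : ℤ) : R) * ∏ e, (if F e then y e else 1) := by
  rw [det_expand (fun e j => ((ini Γ τ F0 false e j : ℤ) : R)) (fun e j => ((ini Γ τ F0 true e j : ℤ) : R)) y,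
    Finset.mul_sum]
  refine Finset.sum_congr rfl fun F _ => ?_
  have h1 : (Matrix.of fun e j : E => if F e then ((ini Γ τ F0 true e j : ℤ) : R) else
      ((ini Γ τ F0 false e j : ℤ) : R)) =
      (Int.castRingHom R).mapMatrix (Matrix.of fun e j : E => ini Γ τ F0 (F e) e j) := by
    ext e j
    simp only [Matrix.of_apply, RingHom.mapMatrix_apply, Matrix.map_apply, eq_intCast]
    cases F e <;> simp
  rw [h1, ← RingHom.map_det, ini_det hLC F, eq_intCast, Int.cast_mul]
  ring

theorem ini_one {Γ : Sys E V} {τ : E → ℤ} {F0 : E → Bool} (hLC : LC Γ τ F0) :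
    (Matrix.of fun e j : E => ini Γ τ F0 false e j + ini Γ τ F0 true e j).det =
      (Mat Γ F0).adjugate.det * ∑ F : E → Bool, (if cost F = cost F0 then D Γ F else 0) := by
  have h := ini_expand hLC (R := ℤ) (fun _ => (1 : ℤ))
  simp only [Int.cast_id, one_mul, ite_self, Finset.prod_const_one, mul_one] at h
  exact h

end NCC
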