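import Pool.Agent.NCC.Kv
import Pool.Agent.NCC.In

/-!
# NCC: invariance of the signed sum of the values

`inv`: the signed sum of the values of the choices with the cost of `F0` annihilates
`s (χ a p - χ a q) - 1` for the pair `p, q` of `j` in `F0` and its level `a`: a vector in the kernel of the
matrix of the initial parts (`kernel`) is annihilated by the determinant (`ini_expand`).
-/

set_option autoImplicit false

namespace NCC

open Finset ITA

variable {E V : Type} [DecidableEq V] [Fintype E] [DecidableEq E]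

private theorem Iv_adj {Γ : Sys E V} (hc : Function.Injective Γ.c) {F0 : E → Bool} (h0 : D Γ F0 ≠ 0) :
    (Mat Γ F0).adjugate.det = 1 ∨ (Mat Γ F0).adjugate.det = -1 := by
  rw [Matrix.det_adjugate]
  change (D Γ F0) ^ _ = 1 ∨ (D Γ F0) ^ _ = -1
  rcases un Γ hc F0 with h | h | h
  · exact absurd h h0
  · rw [h]
    exact Or.inl (one_pow _)
  · rw [h]
    exact neg_one_pow_eq_or ℤ _

private theorem Iv_ker {R : Type} [CommRing R] (M : Matrix E E R) (z : E → R)
    (h : ∀ e, ∑ j, M e j * z j = 0) (j : E) : M.det * z j = 0 := by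
  have h1 : M.mulVec z = 0 := funext fun e => h e
  have h2 : M.adjugate.mulVec (M.mulVec z) = 0 := by
    rw [h1]
    exact Matrix.mulVec_zero _
  rw [Matrix.mulVec_mulVec, Matrix.adjugate_mul, Matrix.smul_mulVec, Matrix.one_mulVec] at h2
  exact congrFun h2 j

theorem inv {Γ : Sys E V} (hc : Function.Injective Γ.c) {τ : E → ℤ} {F0 : E → Bool} (hLC : LC Γ τ F0)
    (h0 : D Γ F0 ≠ 0) {H : Type} [AddCommGroup H] {χ : ℤ → V → H} (hχ : Chi Γ τ χ)
    {R : Type} [CommRing R] (s : H → R) (s0 : s 0 = 1) (sa : ∀ a b, s (a + b) = s a * s b) (j : E) :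
    (∑ F : E → Bool, (((if cost F = cost F0 then D Γ F else 0) : ℤ) : R) *
      ∏ e, (if F e then s (χ (τ e) (Γ.l e)) else 1)) *
      (s (χ (lv τ (F0 j) j) (Γ.tail (F0 j) j) - χ (lv τ (F0 j) j) (Γ.head (F0 j) j)) - 1) = 0 := by
  obtain ⟨ψ, k0, k1, kA, kB⟩ := psi_exists hχ
  set z : E → R := fun j => s (ψ (lv τ (F0 j) j) (Γ.tail (F0 j) j))
      - s (ψ (lv τ (F0 j) j) (Γ.head (F0 j) j)) with hz
  have h1 := Iv_ker (Matrix.of fun e j : E => ((ini Γ τ F0 false e j : ℤ) : R) +
    s (χ (τ e) (Γ.l e)) * ((ini Γ τ F0 true e j : ℤ) : R)) z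
    (fun e => kernel hc hLC hχ k0 k1 kA kB s s0 sa e) j
  rw [ini_expand hLC (fun e => s (χ (τ e) (Γ.l e)))] at h1
  generalize (∑ F : E → Bool, (((if cost F = cost F0 then D Γ F else 0) : ℤ) : R) *
      ∏ e, (if F e then s (χ (τ e) (Γ.l e)) else 1)) = S at h1 ⊢
  have h2 : S * z j = 0 := by
    rcases Iv_adj hc h0 with h | h
    · rw [h] at h1
      simpa using h1
    · rw [h] at h1
      simpa using h1
  have h3 : ψ (lv τ (F0 j) j + 1) (Γ.tail (F0 j) j) = ψ (lv τ (F0 j) j + 1) (Γ.head (F0 j) j) := by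
    cases hF : F0 j with
    | false =>
      have := kA j (lv τ false j + 1) (by simp [lv])
      simpa [Sys.tail, Sys.head] using this
    | true =>
      have := kB j (lv τ true j + 1) (by simp [lv])
      simpa [Sys.tail, Sys.head] using this
  set a := lv τ (F0 j) j with ha
  set p := Γ.tail (F0 j) j with hp
  set q := Γ.head (F0 j) j with hq
  have h4 : z j = s (ψ a q) * (s (χ a p - χ a q) - 1) := by
    show s (ψ a p) - s (ψ a q) = _
    have h5 : ψ a p = ψ a q + (χ a p - χ a q) := by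
      rw [k0 a p, k0 a q, h3]
      abel
    rw [h5, sa]
    ring
  have h6 : s (ψ a q) * s (-(ψ a q)) = 1 := by
    rw [← sa, add_neg_cancel, s0]
  rw [h4] at h2
  calc S * (s (χ a p - χ a q) - 1)
      = S * (s (ψ a q) * (s (χ a p - χ a q) - 1)) * s (-(ψ a q)) := by
        linear_combination (-(S * (s (χ a p - χ a q) - 1))) * h6
    _ = 0 := by rw [h2, zero_mul]

end NCC
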