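import Pool.Agent.NCC.Kq
import Pool.Agent.NCC.Iv
import Pool.Agent.NCC.Ic

/-!
# NCC: states of minimum cost have distinct values in the finite group

MODULE Cu. `coh_sum`: all terms have the sign of `D Γ F0`. `w_inj`: the signed multiplicity of the values is constant on
the finite group, hence `1` or `-1`; two states of minimum cost with the same value would give at least `2`.
-/

set_option autoImplicit false

namespace NCC

open Finset ITA

variable {E V : Type} [DecidableEq V] [Fintype E] [DecidableEq E]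

private theorem Cu_min {Γ : Sys E V} {F0 F : E → Bool} (h0 : MinSt Γ F0) (hc : cost F = cost F0)
    (hD : D Γ F ≠ 0) : MinSt Γ F :=
  ⟨hD, fun F' h => by rw [hc]; exact h0.2 F' h⟩

private theorem Cu_cost {Γ : Sys E V} {F0 F : E → Bool} (h0 : MinSt Γ F0) (h : MinSt Γ F) :
    cost F = cost F0 := le_antisymm (h.2 F0 h0.1) (h0.2 F h.1)

private theorem Cu_nonneg {Γ : Sys E V} (hcoh : Coh Γ) {F0 : E → Bool} (h0 : MinSt Γ F0)
    (F : E → Bool) : 0 ≤ D Γ F0 * (if cost F = cost F0 then D Γ F else 0) := by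
  by_cases hc : cost F = cost F0
  · rw [if_pos hc]
    by_cases hD : D Γ F = 0
    · rw [hD, mul_zero]
    · exact hcoh F0 F h0 (Cu_min h0 hc hD)
  · rw [if_neg hc, mul_zero]

theorem coh_sum {Γ : Sys E V} (hcoh : Coh Γ) {F0 : E → Bool} (h0 : MinSt Γ F0) :
    (∑ F : E → Bool, (if cost F = cost F0 then D Γ F else 0)) ≠ 0 := by
  intro h
  have h1 : D Γ F0 * (∑ F : E → Bool, (if cost F = cost F0 then D Γ F else 0)) = 0 := by
    rw [h, mul_zero]
  rw [Finset.mul_sum] at h1
  have h2 := (Finset.sum_eq_zero_iff_of_nonneg fun F _ => Cu_nonneg hcoh h0 F).1 h1 F0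
    (Finset.mem_univ F0)
  rw [if_pos rfl] at h2
  exact h0.1 (mul_self_eq_zero.1 h2)

private theorem Cu_prod {K R : Type} [AddCommGroup K] [CommRing R] (s : K → R) (s0 : s 0 = 1)
    (sa : ∀ a b, s (a + b) = s a * s b) (S : Finset E) (g : E → K) (G : E → Bool) :
    ∏ e ∈ S, (if G e then s (g e) else 1) = s (∑ e ∈ S, (if G e then g e else 0)) := by
  induction S using Finset.induction_on with
  | empty => rw [Finset.prod_empty, Finset.sum_empty, s0]
  | insert a S ha ih =>
    rw [Finset.prod_insert ha, Finset.sum_insert ha, sa, ih]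
    by_cases h : G a = true
    · rw [if_pos h, if_pos h]
    · rw [if_neg h, if_neg h, s0]

/-- a function which is invariant under the generators is constant -/
private theorem Cu_const {N : Submodule ℤ (E → ℤ)} (f : ((E → ℤ) ⧸ N) → ℤ)
    (h : ∀ j x, f (x + Submodule.Quotient.mk (Pi.single j 1)) = f x) (y : (E → ℤ) ⧸ N) :
    f y = f 0 := by
  let A : AddSubgroup ((E → ℤ) ⧸ N) :=
    { carrier := {k | ∀ x, f (x + k) = f x}
      zero_mem' := fun x => by rw [add_zero]
      add_mem' := fun {a b} ha hb x => by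
        rw [← add_assoc, hb, ha]
      neg_mem' := fun {a} ha x => by
        have h1 := ha (x + -a)
        rw [neg_add_cancel_right] at h1
        exact h1.symm }
  have hA : ∀ j, N.mkQ (Pi.single j 1) ∈ A := fun j x => h j x
  obtain ⟨v, rfl⟩ := N.mkQ_surjective y
  have hv : N.mkQ v ∈ A := by
    have h1 : v = ∑ j, v j • (Pi.single j (1 : ℤ) : E → ℤ) := by
      funext e
      rw [Finset.sum_apply]
      simp only [Pi.smul_apply, Pi.single_apply, smul_eq_mul, mul_ite, mul_one, mul_zero]
      rw [Finset.sum_ite_eq, if_pos (Finset.mem_univ e)]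
    rw [h1, map_sum]
    refine A.sum_mem fun j _ => ?_
    rw [map_smul]
    exact A.zsmul_mem (hA j) (v j)
  have h2 := hv 0
  rw [zero_add] at h2
  exact h2

theorem w_inj {Γ : Sys E V} (hc : Function.Injective Γ.c) (hcoh : Coh Γ) {τ : E → ℤ} {F0 : E → Bool}
    (hLC : LC Γ τ F0) (h0 : MinSt Γ F0) {F F' : E → Bool} (hF : MinSt Γ F) (hF' : MinSt Γ F')
    (hw : ∑ e, (if F e then chK Γ τ F0 (τ e) (Γ.l e) else 0) =
      ∑ e, (if F' e then chK Γ τ F0 (τ e) (Γ.l e) else 0)) : F = F' := by
  classical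
  by_contra hne
  let w : (E → Bool) → KK Γ τ F0 := fun G => ∑ e, (if G e then chK Γ τ F0 (τ e) (Γ.l e) else 0)
  let d : (E → Bool) → ℤ := fun G => if cost G = cost F0 then D Γ G else 0
  let f : KK Γ τ F0 → ℤ := fun x => ∑ G, (if w G = x then d G else 0)
  have hinv : ∀ j x, f (x + Submodule.Quotient.mk (Pi.single j 1)) = f x := by
    intro j x
    refine inv_count d w (Submodule.Quotient.mk (Pi.single j 1)) ?_ x
    intro R _ s s0 sa
    have h1 := inv hc hLC h0.1 (chK_chi hLC) s s0 sa j
    rw [chK_gen hc h0.1 j] at h1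
    rw [← h1]
    congr 1
    refine Finset.sum_congr rfl fun G _ => ?_
    rw [Cu_prod s s0 sa Finset.univ (fun e => chK Γ τ F0 (τ e) (Γ.l e)) G]
  have hconst : ∀ y, f y = f 0 := fun y => Cu_const f hinv y
  have hP := coh_sum hcoh h0
  have hcard := card_KK hc hLC h0.1 hP
  have hpos : Nat.card (KK Γ τ F0) ≠ 0 := by
    rw [hcard]
    exact Int.natAbs_ne_zero.2 hP
  haveI : Finite (KK Γ τ F0) := Nat.finite_of_card_ne_zero hpos
  haveI := Fintype.ofFinite (KK Γ τ F0)
  have hsum : ∑ x : KK Γ τ F0, f x = ∑ G, d G := by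
    show ∑ x : KK Γ τ F0, ∑ G, (if w G = x then d G else 0) = ∑ G, d G
    rw [Finset.sum_comm]
    refine Finset.sum_congr rfl fun G _ => ?_
    rw [Finset.sum_ite_eq, if_pos (Finset.mem_univ _)]
  have hN : (Nat.card (KK Γ τ F0) : ℤ) * f 0 = ∑ G, d G := by
    rw [← hsum, Finset.sum_congr rfl fun x _ => hconst x, Finset.sum_const, Finset.card_univ,
      Nat.card_eq_fintype_card, nsmul_eq_mul]
  have hf0 : (f 0).natAbs = 1 := by
    have h1 := congrArg Int.natAbs hN
    rw [Int.natAbs_mul, Int.natAbs_natCast, hcard] at h1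
    have h2 : 0 < (∑ G : E → Bool, (if cost G = cost F0 then D Γ G else 0)).natAbs :=
      Int.natAbs_pos.2 hP
    exact Nat.eq_of_mul_eq_mul_left h2 (by rw [mul_one]; exact h1)
  have hDabs : ∀ G, D Γ G ≠ 0 → (D Γ G).natAbs = 1 := by
    intro G hG
    rcases un Γ hc G with h | h | h
    · exact absurd h hG
    · rw [h]
      rfl
    · rw [h]
      rfl
  have hone : ∀ G, MinSt Γ G → D Γ F0 * D Γ G = 1 := by
    intro G hG
    have h1 := hcoh F0 G h0 hG
    have h2 : (D Γ F0 * D Γ G).natAbs = 1 := by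
      rw [Int.natAbs_mul, hDabs F0 h0.1, hDabs G hG.1]
    omega
  have hge : 2 ≤ D Γ F0 * f (w F) := by
    have h1 : D Γ F0 * f (w F) = ∑ G, (if w G = w F then D Γ F0 * d G else 0) := by
      show D Γ F0 * ∑ G, (if w G = w F then d G else 0) = _
      rw [Finset.mul_sum]
      refine Finset.sum_congr rfl fun G _ => ?_
      by_cases h : w G = w F
      · rw [if_pos h, if_pos h]
      · rw [if_neg h, if_neg h, mul_zero]
    have h2 : ∑ G ∈ ({F, F'} : Finset (E → Bool)), (if w G = w F then D Γ F0 * d G else 0) ≤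
        ∑ G, (if w G = w F then D Γ F0 * d G else 0) := by
      refine Finset.sum_le_sum_of_subset_of_nonneg (Finset.subset_univ _) fun G _ _ => ?_
      by_cases h : w G = w F
      · rw [if_pos h]
        exact Cu_nonneg hcoh h0 G
      · rw [if_neg h]
    rw [Finset.sum_pair hne, if_pos rfl, if_pos hw.symm] at h2
    have h3 : D Γ F0 * d F = 1 := by
      show D Γ F0 * (if cost F = cost F0 then D Γ F else 0) = 1
      rw [if_pos (Cu_cost h0 hF), hone F hF]
    have h4 : D Γ F0 * d F' = 1 := by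
      show D Γ F0 * (if cost F' = cost F0 then D Γ F' else 0) = 1
      rw [if_pos (Cu_cost h0 hF'), hone F' hF']
    rw [h3, h4] at h2
    rw [h1]
    omega
  have habs : (D Γ F0 * f (w F)).natAbs = 1 := by
    rw [Int.natAbs_mul, hDabs F0 h0.1, hconst, hf0]
  omega

end NCC
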