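import Pool.Agent.NCC.Un
import Pool.Agent.NCC.Lot

/-!
# NCC: change of the deleted column

`col_change`: the determinants of the matrices of the choices with the columns `Fin.succ` and with the columns `c`
(injective) differ by a sign which does not depend on the choice: the first matrix is the second one times the matrix
`U` of the change of the deleted vertex, and `U` is unimodular.
-/

set_option autoImplicit false

namespace NCC

open Finset ITA

/-- the missing vertex -/
private theorem Cx_miss {m : ℕ} (c : Fin m → Fin (m + 1)) (hc : Function.Injective c) :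
    ∃ w : Fin (m + 1), (∀ k, c k ≠ w) ∧ ∀ v, v ≠ w → ∃ k, c k = v := by
  have h1 : (Finset.univ.image c)ᶜ.card = 1 := by
    rw [Finset.card_compl, Finset.card_image_of_injective _ hc, Finset.card_univ, Fintype.card_fin,
      Fintype.card_fin]
    omega
  obtain ⟨w, hw⟩ := Finset.card_eq_one.mp h1
  refine ⟨w, fun k hk => ?_, fun v hv => ?_⟩
  · have h2 : w ∈ (Finset.univ.image c)ᶜ := by
      rw [hw]
      exact Finset.mem_singleton_self w
    exact Finset.mem_compl.mp h2 (Finset.mem_image.mpr ⟨k, Finset.mem_univ k, hk⟩)
  · by_contra hn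
    have h2 : v ∈ (Finset.univ.image c)ᶜ := by
      rw [Finset.mem_compl, Finset.mem_image]
      rintro ⟨k, _, hk⟩
      exact hn ⟨k, hk⟩
    rw [hw] at h2
    exact hv (Finset.mem_singleton.mp h2)

/-- expansion of a vector of sum zero -/
private theorem Cx_expand {m : ℕ} (c : Fin m → Fin (m + 1)) (hc : Function.Injective c)
    (w : Fin (m + 1)) (h1 : ∀ k, c k ≠ w) (h2 : ∀ v, v ≠ w → ∃ k, c k = v)
    (x : Fin (m + 1) → ℤ) (hx : ∑ v, x v = 0) (v : Fin (m + 1)) :
    x v = ∑ k, x (c k) * ((if c k = v then (1 : ℤ) else 0) - (if w = v then (1 : ℤ) else 0)) := by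
  by_cases hv : v = w
  · subst hv
    have h3 : (Finset.univ : Finset (Fin (m + 1))) = insert v (Finset.univ.image c) := by
      ext u
      constructor
      · intro _
        by_cases hu : u = v
        · exact Finset.mem_insert.mpr (Or.inl hu)
        · obtain ⟨k, hk⟩ := h2 u hu
          exact Finset.mem_insert.mpr (Or.inr (Finset.mem_image.mpr ⟨k, Finset.mem_univ k, hk⟩))
      · intro _
        exact Finset.mem_univ u
    have h4 : v ∉ Finset.univ.image c := by
      rw [Finset.mem_image]
      rintro ⟨k, _, hk⟩
      exact h1 k hk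
    rw [h3, Finset.sum_insert h4, Finset.sum_image fun a _ b _ hab => hc hab] at hx
    have h5 : ∀ k ∈ (Finset.univ : Finset (Fin m)),
        x (c k) * ((if c k = v then (1 : ℤ) else 0) - (if v = v then (1 : ℤ) else 0)) =
          - x (c k) := by
      intro k _
      rw [if_neg (h1 k), if_pos rfl]
      ring
    rw [Finset.sum_congr rfl h5, Finset.sum_neg_distrib]
    linarith
  · obtain ⟨k0, hk0⟩ := h2 v hv
    rw [Finset.sum_eq_single k0]
    · rw [if_pos hk0, if_neg fun h => hv h.symm, hk0, sub_zero, mul_one]
    · intro k _ hk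
      rw [if_neg fun h => hk (hc (h.trans hk0.symm)), if_neg fun h => hv h.symm, sub_zero, mul_zero]
    · intro h
      exact absurd (Finset.mem_univ k0) h

theorem col_change {m : ℕ} (i lam t c : Fin m → Fin (m + 1)) (hc : Function.Injective c) :
    ∃ s : ℤ, (s = 1 ∨ s = -1) ∧ ∀ F, (NCL.stateMatrix i lam t Fin.succ F).det =
      s * (NCL.stateMatrix i lam t c F).det := by
  obtain ⟨w, h1, h2⟩ := Cx_miss c hc
  let U : Matrix (Fin m) (Fin m) ℤ := Matrix.of fun k j : Fin m =>
    ((if c k = Fin.succ j then 1 else 0) - (if w = Fin.succ j then 1 else 0) : ℤ)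
  have hU0 : U.det ≠ 0 := by
    intro h0
    obtain ⟨g, hg0, hg⟩ := Matrix.exists_mulVec_eq_zero_iff.mpr h0
    apply hg0
    let G : Fin (m + 1) → ℤ := Fin.cons 0 g
    have hG0 : G 0 = 0 := rfl
    have hGs : ∀ j : Fin m, G j.succ = g j := fun _ => rfl
    have hsum : ∀ v : Fin (m + 1), ∑ j : Fin m, (if v = Fin.succ j then (1 : ℤ) else 0) * g j = G v := by
      intro v
      rcases Fin.eq_zero_or_eq_succ v with hv | ⟨j0, hv⟩
      · rw [hv, hG0]
        refine Finset.sum_eq_zero fun j _ => ?_
        rw [if_neg (Fin.succ_ne_zero j).symm, zero_mul]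
      · rw [hv, hGs, Finset.sum_eq_single j0]
        · rw [if_pos rfl, one_mul]
        · intro j _ hj
          rw [if_neg fun h => hj (Fin.succ_injective m h).symm, zero_mul]
        · intro h
          exact absurd (Finset.mem_univ j0) h
    have hk : ∀ k, G (c k) = G w := by
      intro k
      have h3 := congrFun hg k
      simp only [Matrix.mulVec, dotProduct, U, Matrix.of_apply, Pi.zero_apply, sub_mul] at h3
      rw [Finset.sum_sub_distrib, hsum, hsum] at h3
      linarith
    have hall : ∀ v, G v = G w := by
      intro v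
      by_cases hv : v = w
      · rw [hv]
      · obtain ⟨k, hk'⟩ := h2 v hv
        rw [← hk', hk k]
    funext j
    have h4 := hall j.succ
    have h5 := hall 0
    rw [hGs] at h4
    rw [hG0] at h5
    rw [h4, ← h5]
    rfl
  refine ⟨U.det, ?_, fun F => ?_⟩
  · rcases tu (Fin.succ : Fin m → Fin (m + 1)) (Fin.succ_injective m) c (fun _ => w) with h | h | h
    · exact absurd h hU0
    · exact Or.inl h
    · exact Or.inr h
  · have h3 : NCL.stateMatrix i lam t Fin.succ F = NCL.stateMatrix i lam t c F * U := by
      ext e j
      rw [Matrix.mul_apply]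
      have hx : ∀ a b : Fin (m + 1), ∑ v : Fin (m + 1),
          ((if a = v then (1 : ℤ) else 0) - (if b = v then (1 : ℤ) else 0)) = 0 := by
        intro a b
        rw [Finset.sum_sub_distrib, Finset.sum_ite_eq, Finset.sum_ite_eq, if_pos (Finset.mem_univ _),
          if_pos (Finset.mem_univ _), sub_self]
      by_cases hF : F e = true
      · have h4 := Cx_expand c hc w h1 h2
          (fun v => (if lam e = v then (1 : ℤ) else 0) - (if t e = v then (1 : ℤ) else 0))
          (hx _ _) j.succ
        simp only [NCL.stateMatrix, Matrix.of_apply, hF, if_true, U]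
        exact h4
      · have h4 := Cx_expand c hc w h1 h2
          (fun v => (if i e = v then (1 : ℤ) else 0) - (if lam e = v then (1 : ℤ) else 0))
          (hx _ _) j.succ
        simp only [NCL.stateMatrix, Matrix.of_apply, if_neg hF, U]
        exact h4
    rw [h3, Matrix.det_mul, mul_comm]

end NCC
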