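import Pool.Agent.NCC.Defs

/-!
# NCC: the determinant of the identity minus a partial map

The determinant of `1 - s P`, `P` the matrix of the partial map, is continuous in `s`, equal to `1` for `s = 0` and not
zero for `0 ≤ s < 1` (strict diagonal dominance of the rows), so it is not negative for `s = 1`.
-/

set_option autoImplicit false

namespace NCC

open Finset ITA

private def Dd_A {E : Type} [DecidableEq E] (f : E → Option E) (s : ℝ) : Matrix E E ℝ :=
  Matrix.of fun e j : E => (if e = j then 1 else 0) - s * (if f e = some j then 1 else 0)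

private theorem Dd_ne {E : Type} [Fintype E] [DecidableEq E] (f : E → Option E) {s : ℝ}
    (h0 : 0 ≤ s) (h1 : s < 1) : (Dd_A f s).det ≠ 0 := by
  refine det_ne_zero_of_sum_row_lt_diag fun k => ?_
  have hoff : ∀ j ∈ univ.erase k, ‖Dd_A f s k j‖ = if f k = some j then s else 0 := by
    intro j hj
    have hjk : ¬ k = j := fun h => (Finset.ne_of_mem_erase hj) h.symm
    show ‖(if k = j then 1 else 0) - s * (if f k = some j then 1 else 0)‖ = _
    rw [if_neg hjk]
    by_cases h : f k = some j
    · rw [if_pos h, if_pos h, mul_one, zero_sub, norm_neg, Real.norm_of_nonneg h0]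
    · rw [if_neg h, if_neg h, mul_zero, sub_zero, norm_zero]
  rw [Finset.sum_congr rfl hoff]
  have hd : Dd_A f s k k = 1 - s * (if f k = some k then 1 else 0) := by
    show (if k = k then 1 else 0) - s * (if f k = some k then 1 else 0) = _
    rw [if_pos rfl]
  rw [hd]
  by_cases hk : f k = some k
  · rw [if_pos hk, mul_one, Real.norm_of_nonneg (by linarith)]
    have h2 : ∑ j ∈ univ.erase k, (if f k = some j then s else 0) = 0 := by
      refine Finset.sum_eq_zero fun j hj => ?_
      rw [if_neg]
      intro h
      rw [hk] at h
      exact (Finset.ne_of_mem_erase hj) (Option.some.inj h).symm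
    rw [h2]
    linarith
  · rw [if_neg hk, mul_zero, sub_zero, norm_one]
    rcases hfk : f k with _ | i
    · have h2 : ∑ j ∈ univ.erase k, (if (none : Option E) = some j then s else 0) = 0 :=
        Finset.sum_eq_zero fun j _ => by rw [if_neg (by simp)]
      rw [h2]
      exact one_pos
    · have h2 : ∑ j ∈ univ.erase k, (if (some i : Option E) = some j then s else 0) ≤ s := by
        have h3 : ∀ j, (if (some i : Option E) = some j then s else 0) = if i = j then s else 0 := by
          intro j
          by_cases h : i = j
          · rw [if_pos h, if_pos (by rw [h])]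
          · rw [if_neg h, if_neg (fun h' => h (Option.some.inj h'))]
        rw [Finset.sum_congr rfl fun j _ => h3 j, Finset.sum_ite_eq]
        split_ifs
        · exact le_rfl
        · exact h0
      exact lt_of_le_of_lt h2 h1

theorem det_one_sub {E : Type} [Fintype E] [DecidableEq E] (f : E → Option E) :
    0 ≤ (Matrix.of fun e j : E =>
      ((if e = j then 1 else 0) - (if f e = some j then 1 else 0) : ℤ)).det := by
  have hcont : Continuous fun s : ℝ => (Dd_A f s).det := by
    refine Continuous.matrix_det ?_
    refine continuous_matrix fun e j => ?_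
    show Continuous fun s : ℝ => (if e = j then (1 : ℝ) else 0) - s * (if f e = some j then 1 else 0)
    exact continuous_const.sub (continuous_id.mul continuous_const)
  have h0 : (Dd_A f 0).det = 1 := by
    have h : Dd_A f 0 = 1 := by
      ext e j
      show (if e = j then (1 : ℝ) else 0) - 0 * (if f e = some j then 1 else 0) = (1 : Matrix E E ℝ) e j
      rw [zero_mul, sub_zero, Matrix.one_apply]
    rw [h, Matrix.det_one]
  have h1 : 0 ≤ (Dd_A f 1).det := by
    by_contra hneg
    rw [not_le] at hneg
    have h2 : (0 : ℝ) ∈ Set.Icc ((Dd_A f 1).det) ((Dd_A f 0).det) :=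
      ⟨hneg.le, by rw [h0]; exact zero_le_one⟩
    obtain ⟨c, hc, hc0⟩ := intermediate_value_Icc' (zero_le_one : (0 : ℝ) ≤ 1)
      hcont.continuousOn h2
    have hc0' : (Dd_A f c).det = 0 := hc0
    rcases hc.2.lt_or_eq with h3 | h3
    · exact Dd_ne f hc.1 h3 hc0'
    · rw [h3] at hc0'
      exact hneg.ne hc0'
  have h2 : ((Matrix.of fun e j : E =>
      ((if e = j then 1 else 0) - (if f e = some j then 1 else 0) : ℤ)).det : ℝ) =
      (Dd_A f 1).det := by
    have h3 := RingHom.map_det (Int.castRingHom ℝ) (Matrix.of fun e j : E =>
      ((if e = j then 1 else 0) - (if f e = some j then 1 else 0) : ℤ))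
    have h4 : (Int.castRingHom ℝ).mapMatrix (Matrix.of fun e j : E =>
      ((if e = j then 1 else 0) - (if f e = some j then 1 else 0) : ℤ)) = Dd_A f 1 := by
      ext e j
      show (((if e = j then 1 else 0) - (if f e = some j then 1 else 0) : ℤ) : ℝ) =
        (if e = j then (1 : ℝ) else 0) - 1 * (if f e = some j then 1 else 0)
      rw [one_mul]
      push_cast
      rfl
    rw [h4] at h3
    exact h3
  have h3 : (0 : ℝ) ≤ ((Matrix.of fun e j : E =>
      ((if e = j then 1 else 0) - (if f e = some j then 1 else 0) : ℤ)).det : ℝ) := by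
    rw [h2]
    exact h1
  exact_mod_cast h3

end NCC
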