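import Pool.Agent.ITA.Defs

/-!
# NCC (MP_c801b5_gt): labelled oriented trees without cancellation, definitions

`Sys E V`: edges `E`, vertices `V`, initial vertex `i`, label `l`, terminal vertex `t` of every edge, and the vertices
`c j`, `j : E`, used as columns (all vertices except the root, or the vertices of one block). A choice `F : E → Bool`
selects for every edge `e` the pair `i(e), l(e)` (`F e = false`) or the pair `l(e), t(e)` (`F e = true`); `D Γ F` is
the determinant of the matrix whose rows are the differences of the two vertices of the selected pairs.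
`cost F` (number of `e` with `F e = true`), `lv τ b e` (`τ e` or `τ e + 1`), `eps`, `ITA.flip`, `Inj`, `Cyc` are the
definitions of `ITA.Defs` (with `E` in the place of `V`).
-/

set_option autoImplicit false

namespace NCC

open Finset ITA

/-- a system of labelled oriented edges, with the vertices `c j` of the columns -/
structure Sys (E V : Type) where
  i : E → V
  l : E → V
  t : E → V
  c : E → V

variable {E V : Type}

/-- the reversed system -/
def Sys.rev (Γ : Sys E V) : Sys E V := ⟨Γ.t, Γ.l, Γ.i, Γ.c⟩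

/-- first vertex of the pair of type `b` at `e` -/
def Sys.tail (Γ : Sys E V) (b : Bool) (e : E) : V := if b then Γ.l e else Γ.i e

/-- second vertex of the pair of type `b` at `e` -/
def Sys.head (Γ : Sys E V) (b : Bool) (e : E) : V := if b then Γ.t e else Γ.l e

/-- coordinates of the vertex `v` -/
def u [DecidableEq V] (Γ : Sys E V) (v : V) (j : E) : ℤ := if v = Γ.c j then 1 else 0

/-- the row of the pair of type `b` at `e` -/
def row [DecidableEq V] (Γ : Sys E V) (b : Bool) (e j : E) : ℤ := u Γ (Γ.tail b e) j - u Γ (Γ.head b e) j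

/-- the matrix of a choice -/
def Mat [DecidableEq V] (Γ : Sys E V) (F : E → Bool) : Matrix E E ℤ :=
  Matrix.of fun e j => row Γ (F e) e j

/-- harmonic functions -/
structure Hrm (Γ : Sys E V) (h : V → ℤ → ℚ) : Prop where
  off : ∀ v, (∀ j, Γ.c j ≠ v) → ∀ d, h v d = 0
  rel : ∀ e d, h (Γ.i e) d - h (Γ.l e) d + h (Γ.l e) (d + 1) - h (Γ.t e) (d + 1) = 0

variable [DecidableEq V] [Fintype E] [DecidableEq E]

/-- the determinant of a choice -/
noncomputable def D (Γ : Sys E V) (F : E → Bool) : ℤ := (Mat Γ F).det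

/-- coordinates of the vertex `v` with respect to the rows of the choice `F`, times `D Γ F` -/
noncomputable def crv (Γ : Sys E V) (F : E → Bool) (v : V) (j : E) : ℤ :=
  ∑ k, u Γ v k * (Mat Γ F).adjugate k j

/-- coordinates of the row of the pair of type `b` at `e` with respect to the rows of `F`, times `D Γ F` -/
noncomputable def crd (Γ : Sys E V) (F : E → Bool) (b : Bool) (e j : E) : ℤ :=
  crv Γ F (Γ.tail b e) j - crv Γ F (Γ.head b e) j

/-- the levels `τ` are adapted to `F`: a row is a combination of rows of `F` of at most the same level -/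
def LC (Γ : Sys E V) (τ : E → ℤ) (F : E → Bool) : Prop :=
  ∀ b e j, crd Γ F b e j ≠ 0 → lv τ (F j) j ≤ lv τ b e

/-- the matrix with the rows `i(e) - t(e)` is unimodular -/
def Uni (Γ : Sys E V) : Prop :=
  (Matrix.of fun e j : E => u Γ (Γ.i e) j - u Γ (Γ.t e) j).det = 1 ∨
    (Matrix.of fun e j : E => u Γ (Γ.i e) j - u Γ (Γ.t e) j).det = -1

/-- state of minimum cost -/
def MinSt (Γ : Sys E V) (F : E → Bool) : Prop :=
  D Γ F ≠ 0 ∧ ∀ F', D Γ F' ≠ 0 → cost F ≤ cost F'

/-- no cancellation: all states of minimum cost have the same sign -/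
def Coh (Γ : Sys E V) : Prop :=
  ∀ F F', MinSt Γ F → MinSt Γ F' → 0 ≤ D Γ F * D Γ F'

/-- initial part of the coordinates -/
noncomputable def ini (Γ : Sys E V) (τ : E → ℤ) (F0 : E → Bool) (b : Bool) (e j : E) : ℤ :=
  if lv τ (F0 j) j = lv τ b e then crd Γ F0 b e j else 0

/-- abstract values of the vertices in the levels -/
structure Chi (Γ : Sys E V) (τ : E → ℤ) {H : Type} [AddCommGroup H] (χ : ℤ → V → H) : Prop where
  off : ∀ a v, (∀ j, Γ.c j ≠ v) → χ a v = 0
  lowA : ∀ e a, τ e < a → χ a (Γ.i e) = χ a (Γ.l e)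
  lowB : ∀ e a, τ e + 1 < a → χ a (Γ.l e) = χ a (Γ.t e)
  rel : ∀ e, χ (τ e) (Γ.i e) - χ (τ e) (Γ.l e) + χ (τ e + 1) (Γ.l e) - χ (τ e + 1) (Γ.t e) = 0
  top : ∃ N, ∀ a, N ≤ a → ∀ v, χ a v = 0

/-- the finite group of the initial relations -/
abbrev KK (Γ : Sys E V) (τ : E → ℤ) (F0 : E → Bool) : Type :=
  (E → ℤ) ⧸ Submodule.span ℤ (Set.range fun e : E => fun j : E =>
    ini Γ τ F0 false e j + ini Γ τ F0 true e j)

/-- values in `KK` -/
noncomputable def chK (Γ : Sys E V) (τ : E → ℤ) (F0 : E → Bool) (a : ℤ) (v : V) : KK Γ τ F0 :=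
  Submodule.Quotient.mk (fun j => if lv τ (F0 j) j = a then D Γ F0 * crv Γ F0 v j else 0)

/-- the Laplacian on functions on `E × ℤ` -/
def Lap (Γ : Sys E V) {R : Type} [CommRing R] (n : E → ℤ → R) (j : E) (d : ℤ) : R :=
  ∑ e, (n e d * (row Γ false e j : R) + n e (d - 1) * (row Γ true e j : R))

/-- the vector of the vertex `v` in degree `d` -/
noncomputable def vec (Γ : Sys E V) (v : V) (d : ℤ) : (E × ℤ) →₀ ℚ :=
  ∑ j, Finsupp.single (j, d) (u Γ v j : ℚ)

/-- the relations of harmonic functions -/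
noncomputable def rl (Γ : Sys E V) (x : E × ℤ) : (E × ℤ) →₀ ℚ :=
  vec Γ (Γ.i x.1) x.2 - vec Γ (Γ.l x.1) x.2 + vec Γ (Γ.l x.1) (x.2 + 1) - vec Γ (Γ.t x.1) (x.2 + 1)

/-- difference of the values of two choices -/
noncomputable def ww (Γ : Sys E V) (τ : E → ℤ) (F F' : E → Bool) : (E × ℤ) →₀ ℚ :=
  ∑ e, (eps F F' e : ℚ) • vec Γ (Γ.l e) (τ e)

/-- coefficient of the flow on the pair of type `b` at `e` -/
def cof {G : Type} [Group G] (y : E → G) (c : E → G → ℤ) (b : Bool) (e : E) (g : G) : ℤ :=
  if b then c e (g * (y e)⁻¹) else c e g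

/-- `F` is the best state of minimum cost for the function `h` -/
def Bst (Γ : Sys E V) (τ : E → ℤ) (h : V → ℤ → ℚ) (F : E → Bool) : Prop :=
  MinSt Γ F ∧ ∀ F', MinSt Γ F' → F' ≠ F →
    ∑ e, (if F e then h (Γ.l e) (τ e) else 0) < ∑ e, (if F' e then h (Γ.l e) (τ e) else 0)

end NCC
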