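import Pool.Agent.NCC.Defs
import Pool.Agent.NCC.Lot

/-!
# NCC: no cancellation in lowest and highest degree

The matrix of a choice is the matrix `NCL.stateMatrix`; for the reversed system it is the negative of the matrix of the
opposite choice, and states of minimum cost become states of greatest exponent.
-/

set_option autoImplicit false

namespace NCC

open Finset ITA

variable {E V : Type} [DecidableEq V] [Fintype E] [DecidableEq E]

omit [Fintype E] [DecidableEq E] in
private theorem Rv_mat (i lam t c : E → V) (F : E → Bool) :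
    Mat (⟨i, lam, t, c⟩ : Sys E V) F = NCL.stateMatrix i lam t c F := by
  ext e j
  show row (⟨i, lam, t, c⟩ : Sys E V) (F e) e j = (if F e then (if lam e = c j then 1 else 0) - (if t e = c j then 1 else 0)
    else (if i e = c j then 1 else 0) - (if lam e = c j then 1 else 0))
  cases F e <;> rfl

omit [Fintype E] [DecidableEq E] in
private theorem Rv_rev (i lam t c : E → V) (F : E → Bool) :
    Mat (⟨i, lam, t, c⟩ : Sys E V).rev F = -NCL.stateMatrix i lam t c (fun e => !F e) := by
  ext e j
  show row (⟨i, lam, t, c⟩ : Sys E V).rev (F e) e j =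
    -(if (!F e) then (if lam e = c j then 1 else 0) - (if t e = c j then 1 else 0)
    else (if i e = c j then 1 else 0) - (if lam e = c j then 1 else 0))
  cases F e
  · show (if t e = c j then (1 : ℤ) else 0) - (if lam e = c j then 1 else 0) =
      -((if lam e = c j then (1 : ℤ) else 0) - (if t e = c j then 1 else 0))
    ring
  · show (if lam e = c j then (1 : ℤ) else 0) - (if i e = c j then 1 else 0) =
      -((if i e = c j then (1 : ℤ) else 0) - (if lam e = c j then 1 else 0))
    ring

private theorem Rv_D (i lam t c : E → V) (F : E → Bool) :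
    D (⟨i, lam, t, c⟩ : Sys E V).rev F =
      (-1) ^ Fintype.card E * (NCL.stateMatrix i lam t c (fun e => !F e)).det := by
  unfold D
  rw [Rv_rev, Matrix.det_neg]

omit [DecidableEq E] in
private theorem Rv_cost (F : E → Bool) : cost F + NCL.expo (fun e => !F e) = Fintype.card E := by
  unfold cost NCL.expo
  have h : (univ.filter fun e : E => (!F e) = true) = univ.filter fun e : E => ¬ F e = true := by
    refine Finset.filter_congr fun e _ => ?_
    cases F e <;> simp
  rw [h, Finset.card_filter_add_card_filter_not, Finset.card_univ]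

theorem coh_low {i lam t c : E → V} (h : NCL.NoCancelLow i lam t c) :
    Coh (⟨i, lam, t, c⟩ : Sys E V) := by
  have hD : ∀ F, D (⟨i, lam, t, c⟩ : Sys E V) F = (NCL.stateMatrix i lam t c F).det := fun F => by
    unfold D
    rw [Rv_mat]
  have hM : ∀ F, MinSt (⟨i, lam, t, c⟩ : Sys E V) F → NCL.IsLowest i lam t c F := by
    intro F hF
    refine ⟨by rw [← hD]; exact hF.1, fun F' hF' => hF.2 F' (by rw [hD]; exact hF')⟩
  intro F F' hF hF'
  rw [hD, hD]
  exact (h F F' (hM F hF) (hM F' hF')).le

theorem coh_high {i lam t c : E → V} (h : NCL.NoCancelHigh i lam t c) :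
    Coh (⟨i, lam, t, c⟩ : Sys E V).rev := by
  have hne : ((-1 : ℤ)) ^ Fintype.card E ≠ 0 := pow_ne_zero _ (by norm_num)
  have hM : ∀ F, MinSt (⟨i, lam, t, c⟩ : Sys E V).rev F → NCL.IsHighest i lam t c (fun e => !F e) := by
    intro F hF
    refine ⟨fun h0 => hF.1 (by rw [Rv_D, h0, mul_zero]), fun F' hF' => ?_⟩
    have h1 : (fun e => !(fun e => !F' e) e) = F' := by
      funext e
      exact Bool.not_not _
    have h2 : D (⟨i, lam, t, c⟩ : Sys E V).rev (fun e => !F' e) ≠ 0 := by
      rw [Rv_D, h1]
      exact mul_ne_zero hne hF'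
    have h3 := hF.2 _ h2
    have h4 := Rv_cost F
    have h5 := Rv_cost (fun e => !F' e)
    rw [h1] at h5
    omega
  intro F F' hF hF'
  rw [Rv_D, Rv_D]
  have h1 := h _ _ (hM F hF) (hM F' hF')
  have h2 : ((-1 : ℤ) ^ Fintype.card E) * ((-1) ^ Fintype.card E) = 1 := by
    rw [← mul_pow]
    norm_num
  calc (0 : ℤ) ≤ (NCL.stateMatrix i lam t c (fun e => !F e)).det * (NCL.stateMatrix i lam t c (fun e => !F' e)).det := h1.le
    _ = ((-1 : ℤ) ^ Fintype.card E * (-1) ^ Fintype.card E) *
        ((NCL.stateMatrix i lam t c (fun e => !F e)).det * (NCL.stateMatrix i lam t c (fun e => !F' e)).det) := by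
      rw [h2, one_mul]
    _ = _ := by ring

end NCC
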