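import Pool.Agent.NCC.Jx
import Pool.Agent.NCC.Bk
import Pool.Agent.NCC.Bh
import Pool.Agent.NCC.Rv

/-!
# NCC: labelled oriented trees without cancellation are aspherical

Assembly: the blocks are treated from the highest to the lowest rank. The columns of the block `k` only meet the
rows of the edges of rank at least `k`, so `jac_min` or `jac_max` shows that the coefficients at the edges of rank `k`
vanish.
-/

set_option autoImplicit false

namespace NCC

open Finset ITA

private theorem Dm_inj {m : ℕ} (i lam t : Fin m → Fin (m + 1))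
    (h : ∀ y : Fin m → MonoidAlgebra ℤ (NCL.LOTGroup i lam t),
      (∀ v, ∑ e, y e * jac i t lam (NCL.gen i lam t) e v = 0) → y = 0) : NCL.Aspherical i lam t := by
  intro a b hab
  have h1 : (fun e => a e - b e) = 0 := by
    apply h
    intro v
    have h2 : NCL.boundary i lam t a v = NCL.boundary i lam t b v := by rw [hab]
    have h3 : NCL.boundary i lam t a v - NCL.boundary i lam t b v = 0 := sub_eq_zero.2 h2
    unfold NCL.boundary at h3
    rw [← Finset.sum_sub_distrib] at h3
    rw [← h3]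
    refine Finset.sum_congr rfl (fun e _ => ?_)
    rw [NCL.fox_rel, sub_mul]
  funext e
  have h2 := congrFun h1 e
  exact sub_eq_zero.1 h2

/-- the equation of a column of the block `K` only involves the edges of rank `K`, if the coefficients at the edges
of higher rank vanish -/
private theorem Dm_col {m : ℕ} {i lam t : Fin m → Fin (m + 1)} {ρ : Fin (m + 1) → ℕ}
    (hlam : ∀ e, ρ (lam e) ≤ max (ρ (i e)) (ρ (t e))) {K : ℕ}
    (y : Fin m → MonoidAlgebra ℤ (NCL.LOTGroup i lam t))
    (hup : ∀ e, K < max (ρ (i e)) (ρ (t e)) → y e = 0) {v : Fin (m + 1)} (hv : ρ v = K)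
    (hy : ∑ e, y e * jac i t lam (NCL.gen i lam t) e v = 0) :
    ∑ e : NCL.Block i t ρ K, y e.1 * jac i t lam (NCL.gen i lam t) e.1 v = 0 := by
  have h1 : ∑ e ∈ univ.filter (fun e => max (ρ (i e)) (ρ (t e)) = K),
      y e * jac i t lam (NCL.gen i lam t) e v
      = ∑ e : NCL.Block i t ρ K, y e.1 * jac i t lam (NCL.gen i lam t) e.1 v :=
    Finset.sum_subtype _ (fun e => by simp) _
  rw [← h1, Finset.sum_filter_of_ne, hy]
  intro e _ hne
  rcases lt_trichotomy (max (ρ (i e)) (ρ (t e))) K with hlt | heq | hgt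
  · exfalso
    apply hne
    have hi : i e ≠ v := by
      intro hh
      have := le_max_left (ρ (i e)) (ρ (t e))
      rw [hh, hv] at this
      rw [hh, hv] at hlt
      omega
    have ht : t e ≠ v := by
      intro hh
      have := le_max_right (ρ (i e)) (ρ (t e))
      rw [hh, hv] at this
      rw [hh, hv] at hlt
      omega
    have hl : lam e ≠ v := by
      intro hh
      have := hlam e
      rw [hh, hv] at this
      omega
    unfold jac
    rw [if_neg hi, if_neg ht, if_neg hl, if_neg hl]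
    simp
  · exact heq
  · exfalso
    apply hne
    rw [hup e hgt, zero_mul]

private theorem Dm_block {m : ℕ} {i lam t : Fin m → Fin (m + 1)} (hT : NCL.IsOrientedTree i t)
    {ρ : Fin (m + 1) → ℕ} (hlam : ∀ e, ρ (lam e) ≤ max (ρ (i e)) (ρ (t e)))
    (h : ∀ k, ∃ c : NCL.Block i t ρ k → Fin (m + 1), NCL.IsColumns i t ρ k c ∧
      (NCL.NoCancelLow (fun e : NCL.Block i t ρ k => i e.1) (fun e => lam e.1) (fun e => t e.1) c ∨
        NCL.NoCancelHigh (fun e : NCL.Block i t ρ k => i e.1) (fun e => lam e.1) (fun e => t e.1) c))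
    (K : ℕ) (y : Fin m → MonoidAlgebra ℤ (NCL.LOTGroup i lam t))
    (hup : ∀ e, K < max (ρ (i e)) (ρ (t e)) → y e = 0)
    (hy : ∀ v, ∑ e, y e * jac i t lam (NCL.gen i lam t) e v = 0) :
    ∀ e : NCL.Block i t ρ K, y e.1 = 0 := by
  have hcol : ∀ k, ∃ c : NCL.Block i t ρ k → Fin (m + 1), NCL.IsColumns i t ρ k c := by
    intro k
    obtain ⟨c, hc, _⟩ := h k
    exact ⟨c, hc⟩
  have hblk : ∀ k, ∃ c, NCL.IsColumns i t ρ k c ∧ Uni (blk i lam t ρ k c) := by
    intro k
    obtain ⟨c, hc⟩ := hcol k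
    exact ⟨c, hc, uni_block hT lam ρ hcol k c hc⟩
  obtain ⟨deg, hd, hdeg⟩ := deg_exists i lam t
  obtain ⟨c, hc, hlh⟩ := h K
  have hU : Uni (blk i lam t ρ K c) := uni_block hT lam ρ hcol K c hc
  have hrel : ∀ e : NCL.Block i t ρ K, NCL.gen i lam t ((blk i lam t ρ K c).i e)
      * NCL.gen i lam t ((blk i lam t ρ K c).l e)
      = NCL.gen i lam t ((blk i lam t ρ K c).l e) * NCL.gen i lam t ((blk i lam t ρ K c).t e) :=
    fun e => NCL.relator_trivial i lam t e.1
  have hyK : ∀ j, ∑ e : NCL.Block i t ρ K, (fun e : NCL.Block i t ρ K => y e.1) e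
      * jac (blk i lam t ρ K c).i (blk i lam t ρ K c).t (blk i lam t ρ K c).l (NCL.gen i lam t) e
        ((blk i lam t ρ K c).c j) = 0 := by
    intro j
    have hv : ρ (c j) = K := ((hc.2 (c j)).1 ⟨j, rfl⟩).2
    exact Dm_col hlam y hup hv (hy (c j))
  have hfin : (fun e : NCL.Block i t ρ K => y e.1) = 0 := by
    rcases hlh with hl | hh
    · exact jac_min (Γ := blk i lam t ρ K c) hc.1 hU (coh_low hl) (NCL.gen i lam t) hrel deg hd
        (kappa_low hlam hblk hc hdeg) _ hyK
    · refine jac_max (Γ := blk i lam t ρ K c) hc.1 hU (coh_high hh) (NCL.gen i lam t) hrel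
        (fun g => - deg g) ?_ (kappa_high hlam hblk hc hd hdeg) _ hyK
      intro g v
      have h5 := hd (g * (NCL.gen i lam t v)⁻¹) v
      rw [inv_mul_cancel_right] at h5
      omega
  intro e
  exact congrFun hfin e

theorem asph {m : ℕ} (i lam t : Fin m → Fin (m + 1)) (hT : NCL.IsOrientedTree i t)
    (ρ : Fin (m + 1) → ℕ) (hlam : ∀ e, ρ (lam e) ≤ max (ρ (i e)) (ρ (t e)))
    (h : ∀ k, ∃ c : NCL.Block i t ρ k → Fin (m + 1), NCL.IsColumns i t ρ k c ∧
      (NCL.NoCancelLow (fun e : NCL.Block i t ρ k => i e.1) (fun e => lam e.1) (fun e => t e.1) c ∨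
        NCL.NoCancelHigh (fun e : NCL.Block i t ρ k => i e.1) (fun e => lam e.1) (fun e => t e.1) c)) :
    NCL.Aspherical i lam t := by
  apply Dm_inj
  intro y hy
  obtain ⟨N, hN⟩ : ∃ N : ℕ, ∀ e : Fin m, max (ρ (i e)) (ρ (t e)) ≤ N :=
    ⟨univ.sup (fun e : Fin m => max (ρ (i e)) (ρ (t e))), fun e =>
      Finset.le_sup (f := fun e : Fin m => max (ρ (i e)) (ρ (t e))) (mem_univ e)⟩
  have hmain : ∀ n : ℕ, ∀ e : Fin m, N < max (ρ (i e)) (ρ (t e)) + n → y e = 0 := by
    intro n
    induction n with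
    | zero =>
      intro e he
      have := hN e
      omega
    | succ n ih =>
      intro e he
      by_cases h1 : N < max (ρ (i e)) (ρ (t e)) + n
      · exact ih e h1
      · refine Dm_block hT hlam h (max (ρ (i e)) (ρ (t e))) y ?_ hy ⟨e, rfl⟩
        intro e' he'
        apply ih e'
        omega
  funext e
  exact hmain (N + 1) e (by omega)

end NCC
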