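import Pool.Agent.NCC.Dd
import Pool.Agent.NCC.Cx
import Pool.Agent.NCC.Me

/-!
# NCC: directed trees have no cancellation

If `i` is injective, the determinant of a lowest state (columns `i`) is the determinant of the identity minus a partial
map, which is not negative (`directed_low`); if `t` is injective, the same holds up to the sign `(-1) ^ m` for the
highest states (`directed_high`). The lowest (highest) term is isolated with `det_expand`.
-/

set_option autoImplicit false

namespace NCC

open Finset ITA

private theorem Dr_pos {E V : Type} [Fintype E] [DecidableEq E] [DecidableEq V] {c : E → V}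
    (hc : Function.Injective c) (p : E → V) :
    0 ≤ (Matrix.of fun e j : E =>
      ((if c e = c j then 1 else 0) - (if p e = c j then 1 else 0) : ℤ)).det := by
  classical
  have h := det_one_sub (fun e : E => if h : ∃ j, c j = p e then some h.choose else none)
  have h2 : (Matrix.of fun e j : E =>
      ((if c e = c j then 1 else 0) - (if p e = c j then 1 else 0) : ℤ)) =
      Matrix.of fun e j : E => ((if e = j then 1 else 0) -
        (if (if h : ∃ j, c j = p e then some h.choose else none) = some j then 1 else 0) : ℤ) := by
    ext e j
    rw [Matrix.of_apply, Matrix.of_apply]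
    have h3 : (c e = c j) ↔ e = j := hc.eq_iff
    have h4 : (if h : ∃ j, c j = p e then some h.choose else none) = some j ↔ p e = c j := by
      by_cases hx : ∃ j, c j = p e
      · rw [dif_pos hx]
        constructor
        · intro h5
          rw [← hx.choose_spec, Option.some.inj h5]
        · intro h5
          rw [hc (hx.choose_spec.trans h5)]
      · rw [dif_neg hx]
        constructor
        · intro h5
          exact absurd h5 (by simp)
        · intro h5
          exact absurd ⟨j, h5.symm⟩ hx
    simp only [h3, h4]
  rw [h2]
  exact h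

private theorem Dr_expo {E : Type} [Fintype E] {G F : E → Bool} (h : ∀ e, G e = true → F e = true)
    (hne : G ≠ F) : NCL.expo G < NCL.expo F := by
  unfold NCL.expo
  apply Finset.card_lt_card
  rw [Finset.ssubset_iff_of_subset (fun e he => by
    rw [Finset.mem_filter] at he ⊢
    exact ⟨he.1, h e he.2⟩)]
  by_contra hx
  apply hne
  funext e
  by_contra he
  apply hx
  refine ⟨e, ?_, ?_⟩
  · rw [Finset.mem_filter]
    refine ⟨Finset.mem_univ e, ?_⟩
    cases hF : F e
    · cases hG : G e
      · exact absurd (hG.trans hF.symm) he
      · exact absurd (h e hG) (by rw [hF]; exact Bool.false_ne_true)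
    · rfl
  · rw [Finset.mem_filter]
    rintro ⟨_, hG⟩
    exact he (hG.trans (h e hG).symm)

private theorem Dr_low {E V : Type} [Fintype E] [DecidableEq E] [DecidableEq V] {i lam t : E → V}
    (hi : Function.Injective i) {F : E → Bool} (h0 : (NCL.stateMatrix i lam t i F).det ≠ 0)
    (h1 : ∀ G, (NCL.stateMatrix i lam t i G).det ≠ 0 → NCL.expo F ≤ NCL.expo G) :
    0 < (NCL.stateMatrix i lam t i F).det := by
  have h2 := Dr_pos hi (fun e => if F e then t e else lam e)
  have h3 := det_expand
    (fun e j : E => ((if i e = i j then 1 else 0) - (if lam e = i j then 1 else 0) : ℤ))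
    (fun e j : E => ((if lam e = i j then 1 else 0) - (if t e = i j then 1 else 0) : ℤ))
    (fun e => if F e then 1 else 0)
  have h4 : (Matrix.of fun e j : E =>
      ((if i e = i j then 1 else 0) - (if lam e = i j then 1 else 0) : ℤ) +
        (if F e then 1 else 0) * ((if lam e = i j then 1 else 0) - (if t e = i j then 1 else 0))) =
      Matrix.of fun e j : E => ((if i e = i j then 1 else 0) -
        (if (if F e then t e else lam e) = i j then 1 else 0) : ℤ) := by
    ext e j
    rw [Matrix.of_apply, Matrix.of_apply]
    cases F e
    · simp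
    · simp
  rw [h4] at h3
  rw [h3, Finset.sum_eq_single F] at h2
  · have h5 : ∏ e, (if F e then (if F e then (1 : ℤ) else 0) else 1) = 1 :=
      Finset.prod_eq_one fun e _ => by split_ifs <;> rfl
    rw [h5, one_mul] at h2
    exact lt_of_le_of_ne h2 (Ne.symm h0)
  · intro G _ hG
    by_cases hx : ∀ e, G e = true → F e = true
    · have h5 : (NCL.stateMatrix i lam t i G).det = 0 := by
        by_contra h6
        exact absurd (h1 G h6) (not_le.mpr (Dr_expo hx hG))
      have h6 : (Matrix.of fun e j : E => if G e then
          ((if lam e = i j then 1 else 0) - (if t e = i j then 1 else 0) : ℤ)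
          else ((if i e = i j then 1 else 0) - (if lam e = i j then 1 else 0) : ℤ)).det = 0 := h5
      rw [h6, mul_zero]
    · push Not at hx
      obtain ⟨e, he, he'⟩ := hx
      have h5 : (if G e then (if F e then (1 : ℤ) else 0) else 1) = 0 := by
        rw [if_pos he, if_neg he']
      rw [Finset.prod_eq_zero (Finset.mem_univ e) h5, zero_mul]
  · intro hx
    exact absurd (Finset.mem_univ F) hx

private theorem Dr_high {E V : Type} [Fintype E] [DecidableEq E] [DecidableEq V] {i lam t : E → V}
    (ht : Function.Injective t) {F : E → Bool} (h0 : (NCL.stateMatrix i lam t t F).det ≠ 0)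
    (h1 : ∀ G, (NCL.stateMatrix i lam t t G).det ≠ 0 → NCL.expo G ≤ NCL.expo F) :
    0 < (-1) ^ Fintype.card E * (NCL.stateMatrix i lam t t F).det := by
  have h2 := Dr_pos ht (fun e => if F e then lam e else i e)
  have h3 := det_expand
    (fun e j : E => ((if lam e = t j then 1 else 0) - (if t e = t j then 1 else 0) : ℤ))
    (fun e j : E => ((if i e = t j then 1 else 0) - (if lam e = t j then 1 else 0) : ℤ))
    (fun e => if F e then 0 else 1)
  have h4 : (Matrix.of fun e j : E =>
      ((if lam e = t j then 1 else 0) - (if t e = t j then 1 else 0) : ℤ) +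
        (if F e then 0 else 1) * ((if i e = t j then 1 else 0) - (if lam e = t j then 1 else 0))) =
      -Matrix.of fun e j : E => ((if t e = t j then 1 else 0) -
        (if (if F e then lam e else i e) = t j then 1 else 0) : ℤ) := by
    ext e j
    rw [Matrix.of_apply, Matrix.neg_apply, Matrix.of_apply]
    cases F e
    · simp
    · simp
  rw [h4, Matrix.det_neg, Finset.sum_eq_single fun e => !F e] at h3
  · have h5 : ∏ e, (if (!F e) = true then (if F e then (0 : ℤ) else 1) else 1) = 1 :=
      Finset.prod_eq_one fun e _ => by cases F e <;> rfl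
    rw [h5, one_mul] at h3
    have h6 : (Matrix.of fun e j : E => if (!F e) = true then
        ((if i e = t j then 1 else 0) - (if lam e = t j then 1 else 0) : ℤ)
        else ((if lam e = t j then 1 else 0) - (if t e = t j then 1 else 0) : ℤ)) =
        NCL.stateMatrix i lam t t F := by
      ext e j
      rw [Matrix.of_apply, NCL.stateMatrix, Matrix.of_apply]
      cases F e <;> rfl
    rw [h6] at h3
    have h7 : ((-1 : ℤ) ^ Fintype.card E) * (-1) ^ Fintype.card E = 1 := by
      rw [← mul_pow]
      norm_num
    have h8 : 0 ≤ (-1) ^ Fintype.card E * (NCL.stateMatrix i lam t t F).det := by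
      rw [← h3, ← mul_assoc, h7, one_mul]
      exact h2
    refine lt_of_le_of_ne h8 (Ne.symm (mul_ne_zero ?_ h0))
    exact pow_ne_zero _ (by norm_num)
  · intro G _ hG
    by_cases hx : ∀ e, G e = true → F e = false
    · have h5 : (NCL.stateMatrix i lam t t fun e => !G e).det = 0 := by
        by_contra h6
        refine absurd (h1 _ h6) (not_le.mpr (Dr_expo (fun e he => ?_) fun h7 => ?_))
        · cases hg : G e
          · rfl
          · rw [hx e hg] at he
            exact absurd he Bool.false_ne_true
        · apply hG
          funext e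
          rw [h7, Bool.not_not]
      have h6 : (Matrix.of fun e j : E => if G e then
          ((if i e = t j then 1 else 0) - (if lam e = t j then 1 else 0) : ℤ)
          else ((if lam e = t j then 1 else 0) - (if t e = t j then 1 else 0) : ℤ)) =
          NCL.stateMatrix i lam t t fun e => !G e := by
        ext e j
        rw [Matrix.of_apply, NCL.stateMatrix, Matrix.of_apply]
        cases G e <;> rfl
      rw [h6, h5, mul_zero]
    · push Not at hx
      obtain ⟨e, he, he'⟩ := hx
      have h5 : (if G e then (if F e then (0 : ℤ) else 1) else 1) = 0 := by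
        rw [if_pos he, if_pos (by simpa using he')]
      rw [Finset.prod_eq_zero (Finset.mem_univ e) h5, zero_mul]
  · intro hx
    exact absurd (Finset.mem_univ _) hx

theorem directed_low {m : ℕ} (i lam t : Fin m → Fin (m + 1)) (hi : Function.Injective i) :
    NCL.NoCancelLow i lam t Fin.succ := by
  obtain ⟨s, hs, hS⟩ := col_change i lam t i hi
  have hs0 : s ≠ 0 := by rcases hs with rfl | rfl <;> norm_num
  have key : ∀ F, NCL.IsLowest i lam t Fin.succ F → 0 < (NCL.stateMatrix i lam t i F).det := by
    intro F hF
    obtain ⟨h0, h1⟩ := hF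
    refine Dr_low hi (fun h => h0 ?_) (fun G hG => h1 G ?_)
    · rw [hS, h, mul_zero]
    · rw [hS]
      exact mul_ne_zero hs0 hG
  intro F F' hF hF'
  have h1 := mul_pos (key F hF) (key F' hF')
  rw [hS, hS]
  have h2 : s * s = 1 := by rcases hs with rfl | rfl <;> norm_num
  calc (0 : ℤ) < (NCL.stateMatrix i lam t i F).det * (NCL.stateMatrix i lam t i F').det := h1
    _ = s * (NCL.stateMatrix i lam t i F).det * (s * (NCL.stateMatrix i lam t i F').det) := by
      linear_combination (-((NCL.stateMatrix i lam t i F).det *
        (NCL.stateMatrix i lam t i F').det)) * h2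

theorem directed_high {m : ℕ} (i lam t : Fin m → Fin (m + 1)) (ht : Function.Injective t) :
    NCL.NoCancelHigh i lam t Fin.succ := by
  obtain ⟨s, hs, hS⟩ := col_change i lam t t ht
  have hs0 : s ≠ 0 := by rcases hs with rfl | rfl <;> norm_num
  have key : ∀ F, NCL.IsHighest i lam t Fin.succ F →
      0 < (-1) ^ Fintype.card (Fin m) * (NCL.stateMatrix i lam t t F).det := by
    intro F hF
    obtain ⟨h0, h1⟩ := hF
    refine Dr_high ht (fun h => h0 ?_) (fun G hG => h1 G ?_)
    · rw [hS, h, mul_zero]
    · rw [hS]
      exact mul_ne_zero hs0 hG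
  intro F F' hF hF'
  have h1 := mul_pos (key F hF) (key F' hF')
  rw [hS, hS]
  have h2 : s * s = 1 := by rcases hs with rfl | rfl <;> norm_num
  have h3 : ((-1 : ℤ) ^ Fintype.card (Fin m)) * (-1) ^ Fintype.card (Fin m) = 1 := by
    rw [← mul_pow]
    norm_num
  calc (0 : ℤ) < _ := h1
    _ = s * (NCL.stateMatrix i lam t t F).det * (s * (NCL.stateMatrix i lam t t F').det) := by
      linear_combination ((NCL.stateMatrix i lam t t F).det *
        (NCL.stateMatrix i lam t t F').det) * h3 - ((NCL.stateMatrix i lam t t F).det *
        (NCL.stateMatrix i lam t t F').det) * h2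

end NCC
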