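import Pool.Agent.NCC.Cr
import Pool.Agent.ITA.Fl

/-!
# NCC: changing a state along a nonzero minor

A vector in the left kernel of the matrix of the changed choice vanishes on the changed edges, since the minor is nonzero, and then everywhere, since `D Γ F ≠ 0`.
-/

set_option autoImplicit false

namespace NCC

open Finset ITA

variable {E V : Type} [DecidableEq V] [Fintype E] [DecidableEq E]

private theorem Fd_ker {Γ : Sys E V} {F F' : E → Bool} {y : E → ℤ} (hy : Matrix.vecMul y (Mat Γ F') = 0) (j : E) :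
    ∑ e, y e * crd Γ F (F' e) e j = 0 := by
  have h1 : ∀ k, ∑ e, y e * row Γ (F' e) e k = 0 := fun k => congrFun hy k
  calc ∑ e, y e * crd Γ F (F' e) e j
      = ∑ e, ∑ k, y e * row Γ (F' e) e k * (Mat Γ F).adjugate k j := by
        refine Finset.sum_congr rfl fun e _ => ?_
        rw [crd_eq, Finset.mul_sum]
        exact Finset.sum_congr rfl fun k _ => by ring
    _ = ∑ k, ∑ e, y e * row Γ (F' e) e k * (Mat Γ F).adjugate k j := Finset.sum_comm
    _ = ∑ k, (∑ e, y e * row Γ (F' e) e k) * (Mat Γ F).adjugate k j := by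
        refine Finset.sum_congr rfl fun k _ => ?_
        rw [Finset.sum_mul]
    _ = 0 := by
        refine Finset.sum_eq_zero fun k _ => ?_
        rw [h1 k, zero_mul]

omit [DecidableEq V] in
private theorem Fd_sum {n : ℕ} {x : ℕ → E} (hx : Inj n x) (f : E → ℤ) (hf : ∀ e, (∀ a < n, x a ≠ e) → f e = 0) :
    ∑ e, f e = ∑ a : Fin n, f (x a) := by
  have hinj : Function.Injective fun a : Fin n => x a := by
    intro a b hab
    exact Fin.ext (hx a a.2 b b.2 hab)
  rw [← Finset.sum_image (f := f) (s := Finset.univ) (g := fun a : Fin n => x a) (fun a _ b _ h => hinj h)]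
  symm
  refine Finset.sum_subset (Finset.subset_univ _) ?_
  intro e _ he
  refine hf e ?_
  intro a ha hxa
  exact he (Finset.mem_image.2 ⟨⟨a, ha⟩, Finset.mem_univ _, hxa⟩)

theorem flip_det {Γ : Sys E V} {F : E → Bool} (hD : D Γ F ≠ 0) {n : ℕ} {x : ℕ → E} (hx : Inj n x)
    (hdet : (Matrix.of fun a b : Fin n => crd Γ F (!F (x a)) (x a) (x b)).det ≠ 0) :
    D Γ (ITA.flip F n x) ≠ 0 := by
  intro h0
  obtain ⟨y, hy0, hy⟩ := Matrix.exists_vecMul_eq_zero_iff.2 h0
  have hker := fun j => Fd_ker (F := F) hy j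
  have hin : ∀ a < n, ITA.flip F n x (x a) = !F (x a) := fun a ha => if_pos ⟨a, ha, rfl⟩
  have hout : ∀ e, (∀ a < n, x a ≠ e) → ITA.flip F n x e = F e := fun e he =>
    if_neg (fun ⟨a, ha, hxa⟩ => he a ha hxa)
  have hz : (fun a : Fin n => y (x a)) = 0 := by
    refine Matrix.eq_zero_of_vecMul_eq_zero hdet ?_
    ext b
    show ∑ a : Fin n, y (x a) * crd Γ F (!F (x a)) (x a) (x b) = 0
    rw [← hker (x b), Fd_sum hx]
    · refine Finset.sum_congr rfl fun a _ => ?_
      rw [hin a a.2]
    · intro e he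
      rw [hout e he, crd_self, if_neg, mul_zero]
      intro h
      exact he b b.2 h.symm
  apply hy0
  ext j
  show y j = 0
  by_cases hj : ∃ a < n, x a = j
  · obtain ⟨a, ha, rfl⟩ := hj
    exact congrFun hz ⟨a, ha⟩
  · have hj' : ∀ a < n, x a ≠ j := fun a ha h => hj ⟨a, ha, h⟩
    have h1 := hker j
    rw [Finset.sum_eq_single j] at h1
    · rw [hout j hj', crd_self, if_pos rfl] at h1
      exact (mul_eq_zero.1 h1).resolve_right hD
    · intro e _ hej
      by_cases he : ∃ a < n, x a = e
      · obtain ⟨a, ha, rfl⟩ := he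
        have : y (x a) = 0 := congrFun hz ⟨a, ha⟩
        rw [this, zero_mul]
      · rw [hout e (fun a ha h => he ⟨a, ha, h⟩), crd_self, if_neg hej, mul_zero]
    · intro h
      exact absurd (Finset.mem_univ j) h

end NCC
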