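import Pool.Agent.NCC.Cr

/-!
# NCC: the flow equation in the coordinates of a state

The equations `hk k g`, multiplied by the entries of the adjugate, and the coordinates of the rows of the state (`crd_self`).
-/

set_option autoImplicit false

namespace NCC

open Finset ITA

variable {E V : Type} [DecidableEq V] [Fintype E] [DecidableEq E]

theorem flow2 {Γ : Sys E V} {G : Type} [Group G] (y : E → G) (c : E → G → ℤ)
    (hk : ∀ j g, ∑ e, (c e g * row Γ false e j + c e (g * (y e)⁻¹) * row Γ true e j) = 0)
    (F : E → Bool) (j : E) (g : G) :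
    D Γ F * cof y c (F j) j g + ∑ e, crd Γ F (!F e) e j * cof y c (!F e) e g = 0 := by
  have h1 : ∑ e, (c e g * crd Γ F false e j + c e (g * (y e)⁻¹) * crd Γ F true e j) = 0 := by
    have h2 : ∑ k, (∑ e, (c e g * row Γ false e k + c e (g * (y e)⁻¹) * row Γ true e k)) *
        (Mat Γ F).adjugate k j = 0 := Finset.sum_eq_zero fun k _ => by rw [hk, zero_mul]
    rw [← h2]
    simp only [Finset.sum_mul]
    rw [Finset.sum_comm]
    refine Finset.sum_congr rfl fun e _ => ?_
    rw [crd_eq, crd_eq, Finset.mul_sum, Finset.mul_sum, ← Finset.sum_add_distrib]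
    exact Finset.sum_congr rfl fun k _ => by ring
  have h3 : ∀ e, c e g * crd Γ F false e j + c e (g * (y e)⁻¹) * crd Γ F true e j =
      crd Γ F (F e) e j * cof y c (F e) e g + crd Γ F (!F e) e j * cof y c (!F e) e g := by
    intro e
    cases F e
    · simp only [Bool.not_false, cof, Bool.false_eq_true, if_false, if_true]
      ring
    · simp only [Bool.not_true, cof, Bool.false_eq_true, if_false, if_true]
      ring
  have h4 : ∑ e, crd Γ F (F e) e j * cof y c (F e) e g = D Γ F * cof y c (F j) j g := by
    rw [Finset.sum_eq_single j]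
    · rw [crd_self, if_pos rfl]
    · intro e _ he
      rw [crd_self, if_neg he, zero_mul]
    · intro h
      exact absurd (Finset.mem_univ j) h
  rw [← h4, ← Finset.sum_add_distrib, ← h1]
  exact Finset.sum_congr rfl fun e _ => (h3 e).symm

end NCC
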