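import Pool.Agent.NCC.St

/-!
# NCC: injectivity and integrality of the Laplacian

`inj2`: the Laplacian of a unimodular system is injective on functions with finite support, over every commutative ring
(divide by `1 - t`: partial sums; induction on the length of the support). `int2`: a rational solution with integral
right hand side is integral (strong induction on a common denominator `m`, `inj2` over `ZMod q` for a prime divisor `q`
of `m`).
-/

set_option autoImplicit false

namespace NCC

open Finset ITA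

variable {E V : Type} [DecidableEq V] [Fintype E] [DecidableEq E]

private theorem Ii_S {R : Type} [CommRing R] (n : ℤ → R) (a : ℤ) (hs : ∀ d, d < a → n d = 0) (d : ℤ) :
    ∑ e ∈ Icc a d, n e - ∑ e ∈ Icc a (d - 1), n e = n d := by
  rcases lt_or_ge d a with h | h
  · rw [Icc_eq_empty (by omega), Icc_eq_empty (by omega), hs d h]
    simp
  · have h1 : Icc a d = insert d (Icc a (d - 1)) := by
      ext x
      simp only [mem_insert, mem_Icc]
      omega
    rw [h1, sum_insert (by simp)]
    ring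

private theorem Ii_lin (Γ : Sys E V) {R : Type} [CommRing R] (n S : E → ℤ → R)
    (h : ∀ e d, S e d - S e (d - 1) = n e d) (j : E) (D : ℤ) :
    Lap Γ S j D - Lap Γ S j (D - 1) = Lap Γ n j D := by
  unfold Lap
  rw [← sum_sub_distrib]
  refine sum_congr rfl fun e _ => ?_
  rw [← h e D, ← h e (D - 1)]
  ring

private theorem Ii_zero (Γ : Sys E V) {R : Type} [CommRing R] (n S : E → ℤ → R)
    (h : ∀ e d, S e d - S e (d - 1) = n e d) (j : E) (a : ℤ)
    (ha : ∀ e d, d < a → S e d = 0) (hn : ∀ d, Lap Γ n j d = 0) (D : ℤ) :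
    Lap Γ S j D = 0 := by
  have h0 : ∀ D : ℤ, D < a → Lap Γ S j D = 0 := by
    intro D hD
    unfold Lap
    refine sum_eq_zero fun e _ => ?_
    rw [ha e D hD, ha e (D - 1) (by omega)]
    ring
  rcases lt_or_ge D a with h1 | h1
  · exact h0 D h1
  · refine Int.leInduction (m := a - 1) (motive := fun D _ => Lap Γ S j D = 0) (h0 _ (by omega)) ?_ D
      (by omega)
    intro d _ hd
    have h2 := Ii_lin Γ n S h j (d + 1)
    rw [hn, add_sub_cancel_right, hd, sub_zero] at h2
    exact h2

private theorem Ii_uni {Γ : Sys E V} (hU : Uni Γ) {R : Type} [CommRing R] (s : E → R)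
    (h : ∀ j, ∑ e, s e * ((row Γ false e j : R) + (row Γ true e j : R)) = 0) : ∀ e, s e = 0 := by
  set A : Matrix E E ℤ := Matrix.of fun e j : E => u Γ (Γ.i e) j - u Γ (Γ.t e) j with hA
  set B : Matrix E E R := (Int.castRingHom R).mapMatrix A with hB
  have hdet : IsUnit B.det := by
    rw [hB, ← RingHom.map_det]
    rcases hU with h1 | h1
    · rw [h1, map_one]
      exact isUnit_one
    · rw [h1, map_neg, map_one]
      exact isUnit_one.neg
  have hs : Matrix.vecMul s B = 0 := by
    funext j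
    have h1 := h j
    rw [Pi.zero_apply, ← h1]
    unfold Matrix.vecMul dotProduct
    refine sum_congr rfl fun e _ => ?_
    congr 1
    have h2 := row_add Γ e j
    rw [← Int.cast_add, h2]
    rfl
  have h1 : s = 0 := by
    have h2 : Matrix.vecMul s (B * B⁻¹) = 0 := by
      rw [← Matrix.vecMul_vecMul, hs, Matrix.zero_vecMul]
    rw [Matrix.mul_nonsing_inv B hdet, Matrix.vecMul_one] at h2
    exact h2
  intro e
  rw [h1, Pi.zero_apply]

theorem inj2 {Γ : Sys E V} (hU : Uni Γ) {R : Type} [CommRing R] (n : E → ℤ → R) (a b : ℤ)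
    (hs : ∀ e d, d < a ∨ b < d → n e d = 0) (h : ∀ j d, Lap Γ n j d = 0) : ∀ e d, n e d = 0 := by
  obtain ⟨m, hm⟩ : ∃ m : ℕ, b + 1 - a ≤ m := ⟨(b + 1 - a).toNat, Int.self_le_toNat _⟩
  induction m generalizing n b with
  | zero =>
    intro v d
    refine hs v d ?_
    push_cast at hm
    omega
  | succ m ih =>
    set S : E → ℤ → R := fun v d => ∑ e ∈ Icc a d, n v e with hS
    have h1 : ∀ v d, S v d - S v (d - 1) = n v d := fun v d => Ii_S (n v) a (fun d hd => hs v d (Or.inl hd)) d
    have h2 : ∀ v d, d < a → S v d = 0 := by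
      intro v d hd
      rw [hS]
      simp only
      rw [Icc_eq_empty (by omega), sum_empty]
    have h3 : ∀ w d, Lap Γ S w d = 0 := fun w d => Ii_zero Γ n S h1 w a h2 (h w) d
    have h4 : ∀ v d, b ≤ d → S v d = S v b := by
      intro v d hd
      refine Int.leInduction (m := b) (motive := fun D _ => S v D = S v b) rfl ?_ d hd
      intro e he hS'
      have h5 := h1 v (e + 1)
      rw [hs v (e + 1) (Or.inr (by omega)), add_sub_cancel_right, hS', sub_eq_zero] at h5
      exact h5
    have h5 : ∀ v, S v b = 0 := by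
      refine Ii_uni hU (fun v => S v b) fun j => ?_
      have h6 := h3 j (b + 1)
      unfold Lap at h6
      rw [← h6]
      refine sum_congr rfl fun v _ => ?_
      rw [h4 v (b + 1) (by omega), add_sub_cancel_right, mul_add]
    have h7 : ∀ v d, S v d = 0 := by
      refine ih S (b - 1) ?_ h3 (by push_cast at hm; omega)
      intro v d hd
      rcases hd with hd | hd
      · exact h2 v d hd
      · rw [h4 v d (by omega), h5 v]
    intro v d
    rw [← h1 v d, h7 v d, h7 v (d - 1), sub_zero]

private theorem Ii_cast (Γ : Sys E V) {n : E → ℤ → ℚ} {m : ℚ} {k : E → ℤ → ℤ}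
    (hk : ∀ v d, m * n v d = (k v d : ℚ)) (w : E) (d : ℤ) :
    ((Lap Γ k w d : ℤ) : ℚ) = m * Lap Γ n w d := by
  unfold Lap
  rw [Int.cast_sum, Finset.mul_sum]
  refine sum_congr rfl fun v _ => ?_
  push_cast
  rw [← hk v d, ← hk v (d - 1)]
  ring

private theorem Ii_mod (Γ : Sys E V) (q : ℕ) (k : E → ℤ → ℤ) (w : E) (d : ℤ) :
    ((Lap Γ k w d : ℤ) : ZMod q) = Lap Γ (fun v e => ((k v e : ℤ) : ZMod q)) w d := by
  unfold Lap
  rw [Int.cast_sum]
  refine sum_congr rfl fun v _ => ?_
  push_cast
  ring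

private theorem Ii_main {Γ : Sys E V} (hU : Uni Γ) (n : E → ℤ → ℚ) (a b : ℤ)
    (hs : ∀ v d, d < a ∨ b < d → n v d = 0) (h : ∀ w d, ∃ m : ℤ, Lap Γ n w d = m) :
    ∀ m : ℕ, 0 < m → (∀ v d, ∃ k : ℤ, (m : ℚ) * n v d = k) → ∀ v d, ∃ k : ℤ, n v d = k := by
  intro m
  induction m using Nat.strong_induction_on with
  | _ m ih =>
    intro hm hk
    rcases eq_or_ne m 1 with h1 | h1
    · intro v d
      obtain ⟨k, hk'⟩ := hk v d
      refine ⟨k, ?_⟩
      rw [h1, Nat.cast_one, one_mul] at hk'
      exact hk'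
    · have hq : m.minFac.Prime := Nat.minFac_prime h1
      obtain ⟨m', hm'⟩ := Nat.minFac_dvd m
      have hm'0 : 0 < m' := by
        rcases Nat.eq_zero_or_pos m' with h2 | h2
        · rw [h2, mul_zero] at hm'
          omega
        · exact h2
      have hlt : m' < m := by
        have h2 := hq.two_le
        have h3 : 2 * m' ≤ m.minFac * m' := Nat.mul_le_mul_right m' h2
        omega
      choose k hk5 using hk
      have hsup : ∀ v d, d < a ∨ b < d → ((k v d : ℤ) : ZMod m.minFac) = 0 := by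
        intro v d hd
        have h3 := hk5 v d
        rw [hs v d hd, mul_zero] at h3
        have h2 : k v d = 0 := by exact_mod_cast h3.symm
        rw [h2, Int.cast_zero]
      have hlap : ∀ w d, Lap Γ (fun v e => ((k v e : ℤ) : ZMod m.minFac)) w d = 0 := by
        intro w d
        obtain ⟨M, hM⟩ := h w d
        have h2 := Ii_cast Γ hk5 w d
        rw [hM] at h2
        have h3 : Lap Γ k w d = (m : ℤ) * M := by exact_mod_cast h2
        rw [← Ii_mod, h3, ZMod.intCast_zmod_eq_zero_iff_dvd]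
        have h4 : ((m.minFac : ℕ) : ℤ) ∣ (m : ℤ) := by exact_mod_cast Nat.minFac_dvd m
        exact Dvd.dvd.mul_right h4 M
      have hzero := inj2 hU (fun v e => ((k v e : ℤ) : ZMod m.minFac)) a b hsup hlap
      refine ih m' hlt hm'0 ?_
      intro v d
      have h2 : ((k v d : ℤ) : ZMod m.minFac) = 0 := hzero v d
      rw [ZMod.intCast_zmod_eq_zero_iff_dvd] at h2
      obtain ⟨c, hc⟩ := h2
      refine ⟨c, ?_⟩
      have h3 := hk5 v d
      rw [hc, hm'] at h3
      have h4 : ((m.minFac : ℕ) : ℚ) ≠ 0 := by exact_mod_cast hq.ne_zero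
      have h5 : ((m.minFac : ℕ) : ℚ) * ((m' : ℚ) * n v d) = ((m.minFac : ℕ) : ℚ) * (c : ℚ) := by
        have h6 : ((m.minFac * m' : ℕ) : ℚ) = ((m.minFac : ℕ) : ℚ) * (m' : ℚ) := Nat.cast_mul _ _
        rw [← hm'] at h3 h6
        rw [← mul_assoc, ← h6, h3]
        push_cast
        ring
      exact mul_left_cancel₀ h4 h5

theorem int2 {Γ : Sys E V} (hU : Uni Γ) (n : E → ℤ → ℚ) (a b : ℤ)
    (hs : ∀ e d, d < a ∨ b < d → n e d = 0) (h : ∀ j d, ∃ m : ℤ, Lap Γ n j d = m) :
    ∀ e d, ∃ m : ℤ, n e d = m := by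
  refine Ii_main hU n a b hs h (∏ v : E, ∏ d ∈ Finset.Icc a b, (n v d).den) ?_ ?_
  · exact prod_pos fun v _ => prod_pos fun d _ => (n v d).den_pos
  · intro v d
    by_cases hd : d ∈ Finset.Icc a b
    · obtain ⟨c, hc⟩ : (n v d).den ∣ ∏ v : E, ∏ d ∈ Finset.Icc a b, (n v d).den :=
        (dvd_prod_of_mem (fun d => (n v d).den) hd).trans
          (dvd_prod_of_mem (fun v => ∏ d ∈ Finset.Icc a b, (n v d).den) (mem_univ v))
      refine ⟨(c : ℤ) * (n v d).num, ?_⟩
      rw [hc, Nat.cast_mul]
      have h1 : ((n v d).den : ℚ) * n v d = (n v d).num := by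
        rw [mul_comm]
        exact Rat.mul_den_eq_num (n v d)
      calc (((n v d).den : ℕ) : ℚ) * (c : ℚ) * n v d = (c : ℚ) * ((((n v d).den : ℕ) : ℚ) * n v d) := by ring
        _ = (c : ℚ) * ((n v d).num : ℚ) := by rw [h1]
        _ = (((c : ℤ) * (n v d).num : ℤ) : ℚ) := by push_cast; ring
    · refine ⟨0, ?_⟩
      have h1 : n v d = 0 := by
        apply hs v d
        rw [mem_Icc] at hd
        by_contra h2
        rw [not_or, not_lt, not_lt] at h2
        exact hd h2
      rw [h1, mul_zero, Int.cast_zero]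

end NCC
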