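import Pool.Agent.NCC.Dd
import Pool.Agent.NCC.Cx

/-!
# NCC: injective labels: no cancellation

The columns are changed to the vertices `lam j`; up to the signs of the rows the matrix of a state is then the identity minus a
partial map, with determinant at least `0` (`det_one_sub`), and the product of the signs depends on the exponent only.
-/

set_option autoImplicit false

namespace NCC

open Finset ITA

private theorem Ij_det {m : ℕ} (i lam t : Fin m → Fin (m + 1)) (hl : Function.Injective lam) (F : Fin m → Bool) :
    ∃ d : ℤ, 0 ≤ d ∧ (NCL.stateMatrix i lam t lam F).det = (-1) ^ (m - NCL.expo F) * d := by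
  classical
  let w : Fin m → Fin (m + 1) := fun e => if F e then t e else i e
  let f : Fin m → Option (Fin m) := fun e => if h : ∃ j, lam j = w e then some h.choose else none
  have hf : ∀ e j, f e = some j ↔ w e = lam j := by
    intro e j
    by_cases h : ∃ j, lam j = w e
    · have h1 : f e = some h.choose := dif_pos h
      rw [h1]
      constructor
      · intro h2
        have h3 : h.choose = j := Option.some.inj h2
        rw [← h3]
        exact h.choose_spec.symm
      · intro h2
        have h3 : lam h.choose = lam j := h.choose_spec.trans h2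
        rw [hl h3]
    · have h1 : f e = none := dif_neg h
      rw [h1]
      constructor
      · intro h2
        exact absurd h2 (by simp)
      · intro h2
        exact absurd ⟨j, h2.symm⟩ h
  refine ⟨_, det_one_sub f, ?_⟩
  have h1 : NCL.stateMatrix i lam t lam F = Matrix.of fun e j =>
      (if F e then (1 : ℤ) else -1) *
        (Matrix.of fun e j : Fin m => ((if e = j then 1 else 0) - (if f e = some j then 1 else 0) : ℤ)) e j := by
    ext e j
    have h2 : (if lam e = lam j then (1 : ℤ) else 0) = if e = j then 1 else 0 := by
      by_cases h : e = j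
      · rw [if_pos h, if_pos (by rw [h])]
      · rw [if_neg h, if_neg fun h' => h (hl h')]
    have h3 : (if f e = some j then (1 : ℤ) else 0) = if w e = lam j then 1 else 0 := by
      by_cases h : f e = some j
      · rw [if_pos h, if_pos ((hf e j).1 h)]
      · rw [if_neg h, if_neg fun h' => h ((hf e j).2 h')]
    unfold NCL.stateMatrix
    simp only [Matrix.of_apply]
    rw [h3, h2]
    by_cases hF : F e = true
    · have hw : w e = t e := if_pos hF
      rw [if_pos hF, if_pos hF, hw]
      ring
    · have hw : w e = i e := if_neg hF
      rw [if_neg hF, if_neg hF, hw]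
      ring
  have h4 : ∏ e, (if F e = true then (1 : ℤ) else -1) = (-1) ^ (m - NCL.expo F) := by
    rw [Finset.prod_ite, Finset.prod_const_one, one_mul, Finset.prod_const]
    congr 1
    have h5 := Finset.card_filter_add_card_filter_not (s := (Finset.univ : Finset (Fin m))) (fun e => F e = true)
    rw [Finset.card_univ, Fintype.card_fin] at h5
    unfold NCL.expo
    omega
  rw [h1, Matrix.det_mul_column, h4]

theorem injective_low {m : ℕ} (i lam t : Fin m → Fin (m + 1)) (hl : Function.Injective lam) :
    NCL.NoCancelLow i lam t Fin.succ := by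
  obtain ⟨s, hs, h⟩ := col_change i lam t lam hl
  intro F F' hF hF'
  have he : NCL.expo F = NCL.expo F' := le_antisymm (hF.2 F' hF'.1) (hF'.2 F hF.1)
  obtain ⟨d, hd, h1⟩ := Ij_det i lam t hl F
  obtain ⟨d', hd', h1'⟩ := Ij_det i lam t hl F'
  have hne := mul_ne_zero hF.1 hF'.1
  have h2 : (NCL.stateMatrix i lam t Fin.succ F).det * (NCL.stateMatrix i lam t Fin.succ F').det = d * d' := by
    rw [h, h, h1, h1', ← he]
    have h3 : ((-1 : ℤ) ^ (m - NCL.expo F)) * (-1) ^ (m - NCL.expo F) = 1 := by
      rw [← mul_pow]
      norm_num
    have h4 : s * s = 1 := by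
      rcases hs with rfl | rfl <;> norm_num
    calc s * ((-1) ^ (m - NCL.expo F) * d) * (s * ((-1) ^ (m - NCL.expo F) * d'))
        = (s * s) * (((-1 : ℤ) ^ (m - NCL.expo F)) * (-1) ^ (m - NCL.expo F)) * (d * d') := by ring
      _ = d * d' := by rw [h3, h4]; ring
  rw [h2] at hne ⊢
  exact lt_of_le_of_ne (mul_nonneg hd hd') (Ne.symm hne)

end NCC
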