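import Pool.Agent.NCC.Ce
import Pool.Agent.ITA.So
import Pool.Agent.ITA.Lot

/-!
# NCC: the Jacobian matrix, lowest degree

With `⟦g⟧ = MonoidAlgebra.single g 1`: `jac_id` is the identity
`jac Γ.i Γ.t Γ.l x e w * (⟦x w⟧ - 1) = (⟦x (i e)⟧ - 1) * ([i e = w] - [l e = w] + ⟦x (l e)⟧ * ([l e = w] - [t e = w]))`;
`jac_min` multiplies the equations by `⟦x (c j)⟧ - 1` and applies `core3` to `Z e = y e * (⟦x (i e)⟧ - 1)`.
-/

set_option autoImplicit false

namespace NCC

open Finset ITA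

variable {E V : Type} [DecidableEq V] [Fintype E] [DecidableEq E]

private theorem Jm_mul {G : Type} [Group G] (g h : G) :
    (MonoidAlgebra.single g (1 : ℤ)) * MonoidAlgebra.single h (1 : ℤ)
      = MonoidAlgebra.single (g * h) 1 := by
  rw [MonoidAlgebra.single_mul_single, one_mul]

theorem jac_id {Γ : Sys E V} {G : Type} [Group G] (x : V → G) (e : E)
    (hrel : x (Γ.i e) * x (Γ.l e) = x (Γ.l e) * x (Γ.t e)) (w : V) :
    jac Γ.i Γ.t Γ.l x e w * (MonoidAlgebra.single (x w) 1 - 1) =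
      (MonoidAlgebra.single (x (Γ.i e)) 1 - 1) *
        (((if Γ.i e = w then 1 else 0) - (if Γ.l e = w then 1 else 0)) +
          MonoidAlgebra.single (x (Γ.l e)) 1 * ((if Γ.l e = w then 1 else 0)
            - (if Γ.t e = w then 1 else 0))) := by
  have h2 : (MonoidAlgebra.single (x (Γ.l e)) (1 : ℤ)) * MonoidAlgebra.single (x (Γ.t e)) (1 : ℤ)
      = (MonoidAlgebra.single (x (Γ.i e)) (1 : ℤ)) * MonoidAlgebra.single (x (Γ.l e)) (1 : ℤ) := by
    rw [Jm_mul, Jm_mul, hrel]
  have ei : (if Γ.i e = w then (1 : MonoidAlgebra ℤ G) else 0) * (MonoidAlgebra.single (x w) 1 - 1)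
      = if Γ.i e = w then MonoidAlgebra.single (x (Γ.i e)) 1 - 1 else 0 := by
    split_ifs with h
    · rw [one_mul, h]
    · rw [zero_mul]
  have el : (if Γ.l e = w then MonoidAlgebra.single (x (Γ.i e)) (1 : ℤ) else 0)
        * (MonoidAlgebra.single (x w) 1 - 1)
      = if Γ.l e = w then MonoidAlgebra.single (x (Γ.i e)) (1 : ℤ)
        * (MonoidAlgebra.single (x (Γ.l e)) 1 - 1) else 0 := by
    split_ifs with h
    · rw [h]
    · rw [zero_mul]
  have el' : (if Γ.l e = w then (1 : MonoidAlgebra ℤ G) else 0) * (MonoidAlgebra.single (x w) 1 - 1)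
      = if Γ.l e = w then MonoidAlgebra.single (x (Γ.l e)) 1 - 1 else 0 := by
    split_ifs with h
    · rw [one_mul, h]
    · rw [zero_mul]
  have et : (if Γ.t e = w then MonoidAlgebra.single (x (Γ.l e)) (1 : ℤ) else 0)
        * (MonoidAlgebra.single (x w) 1 - 1)
      = if Γ.t e = w then (MonoidAlgebra.single (x (Γ.i e)) (1 : ℤ) - 1)
        * MonoidAlgebra.single (x (Γ.l e)) 1 else 0 := by
    split_ifs with h
    · rw [← h, mul_sub, mul_one, h2, sub_mul, one_mul]
    · rw [zero_mul]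
  have hj : jac Γ.i Γ.t Γ.l x e w = (if Γ.i e = w then 1 else 0)
    + (if Γ.l e = w then MonoidAlgebra.single (x (Γ.i e)) 1 else 0)
    - (if Γ.t e = w then MonoidAlgebra.single (x (Γ.l e)) 1 else 0)
    - (if Γ.l e = w then 1 else 0) := rfl
  rw [hj, sub_mul, sub_mul, add_mul, ei, el, el', et]
  set I : MonoidAlgebra ℤ G := MonoidAlgebra.single (x (Γ.i e)) 1
  set L : MonoidAlgebra ℤ G := MonoidAlgebra.single (x (Γ.l e)) 1
  have hA : (I - 1) * (if Γ.i e = w then 1 else 0) = if Γ.i e = w then I - 1 else 0 := by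
    split_ifs
    · rw [mul_one]
    · rw [mul_zero]
  have hB : (I - 1) * (if Γ.l e = w then 1 else 0) = if Γ.l e = w then I - 1 else 0 := by
    split_ifs
    · rw [mul_one]
    · rw [mul_zero]
  have hC : (I - 1) * (L * (if Γ.l e = w then 1 else 0)) = if Γ.l e = w then (I - 1) * L else 0 := by
    split_ifs
    · rw [mul_one]
    · rw [mul_zero, mul_zero]
  have hD : (I - 1) * (L * (if Γ.t e = w then 1 else 0)) = if Γ.t e = w then (I - 1) * L else 0 := by
    split_ifs
    · rw [mul_one]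
    · rw [mul_zero, mul_zero]
  have hE : (if Γ.l e = w then I * (L - 1) else 0) - (if Γ.l e = w then L - 1 else 0)
      = (if Γ.l e = w then (I - 1) * L else 0) - (if Γ.l e = w then I - 1 else 0) := by
    split_ifs
    · noncomm_ring
    · rfl
  rw [mul_add (I - 1), mul_sub (I - 1), mul_sub L, mul_sub (I - 1), hA, hB, hC, hD]
  have hF : (if Γ.i e = w then I - 1 else 0) + (if Γ.l e = w then I * (L - 1) else 0)
      - (if Γ.t e = w then (I - 1) * L else 0) - (if Γ.l e = w then L - 1 else 0)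
      = (if Γ.i e = w then I - 1 else 0) - (if Γ.t e = w then (I - 1) * L else 0)
        + ((if Γ.l e = w then I * (L - 1) else 0) - (if Γ.l e = w then L - 1 else 0)) := by
    abel
  rw [hF, hE]
  abel

theorem jac_min {Γ : Sys E V} (hc : Function.Injective Γ.c) (hU : Uni Γ) (hcoh : Coh Γ) {G : Type}
    [Group G] (x : V → G) (hrel : ∀ e, x (Γ.i e) * x (Γ.l e) = x (Γ.l e) * x (Γ.t e))
    (deg : G → ℤ) (hdeg : ∀ g v, deg (g * x v) = deg g + 1)
    (hκ : ∀ h : V → ℤ → ℚ, Hrm Γ h → ∃ κ : G → ℚ, ∀ g e, κ (g * x (Γ.l e)) = κ g + h (Γ.l e) (deg g))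
    (y : E → MonoidAlgebra ℤ G) (hy : ∀ j, ∑ e, y e * jac Γ.i Γ.t Γ.l x e (Γ.c j) = 0) : y = 0 := by
  have hZ := core3 hc hU hcoh (fun e => x (Γ.l e)) deg (fun g e => hdeg g (Γ.l e)) hκ
    (fun e => y e * (MonoidAlgebra.single (x (Γ.i e)) 1 - 1))
    (by
      intro j
      have h1 := congrArg (fun z => z * (MonoidAlgebra.single (x (Γ.c j)) (1 : ℤ) - 1)) (hy j)
      simp only [Finset.sum_mul, zero_mul] at h1
      refine Eq.trans ?_ h1
      refine Finset.sum_congr rfl (fun e _ => ?_)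
      have hf : ((row Γ false e j : ℤ) : MonoidAlgebra ℤ G) =
          (if Γ.i e = Γ.c j then 1 else 0) - (if Γ.l e = Γ.c j then 1 else 0) := by
        show (((if Γ.i e = Γ.c j then (1 : ℤ) else 0) - (if Γ.l e = Γ.c j then (1 : ℤ) else 0) : ℤ) :
          MonoidAlgebra ℤ G) = _
        push_cast
        rfl
      have ht : ((row Γ true e j : ℤ) : MonoidAlgebra ℤ G) =
          (if Γ.l e = Γ.c j then 1 else 0) - (if Γ.t e = Γ.c j then 1 else 0) := by
        show (((if Γ.l e = Γ.c j then (1 : ℤ) else 0) - (if Γ.t e = Γ.c j then (1 : ℤ) else 0) : ℤ) :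
          MonoidAlgebra ℤ G) = _
        push_cast
        rfl
      rw [mul_assoc (y e), mul_assoc (y e), jac_id x e (hrel e) (Γ.c j), hf, ht])
  funext e
  exact sub_one_inj (g := x (Γ.i e)) deg (Or.inl (fun u => hdeg u (Γ.i e))) (hZ e)

end NCC
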