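import Pool.Agent.NCC.Jm

/-!
# NCC: the Jacobian matrix, highest degree

`uni_rev`: the matrix of the reversed system is the negative of the matrix of the system. `jac_max`: by `jac_id`,
`Z e = - (y e * (⟦x (i e)⟧ - 1) * ⟦x (l e)⟧)` satisfies the hypothesis of `core3` for the reversed system and the elements
`(x (l e))⁻¹`; hence `Z = 0` and `y = 0` (`ITA.sub_one_inj`).
-/

set_option autoImplicit false

namespace NCC

open Finset ITA

variable {E V : Type} [DecidableEq V] [Fintype E] [DecidableEq E]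

theorem uni_rev {Γ : Sys E V} (hU : Uni Γ) : Uni Γ.rev := by
  have h1 : (Matrix.of fun e j : E => u Γ.rev (Γ.rev.i e) j - u Γ.rev (Γ.rev.t e) j) =
      -(Matrix.of fun e j : E => u Γ (Γ.i e) j - u Γ (Γ.t e) j) := by
    ext e j
    show u Γ (Γ.t e) j - u Γ (Γ.i e) j = -(u Γ (Γ.i e) j - u Γ (Γ.t e) j)
    ring
  unfold Uni at hU ⊢
  rw [h1, Matrix.det_neg]
  rcases neg_one_pow_eq_or ℤ (Fintype.card E) with h | h <;> rcases hU with hU | hU <;> rw [h, hU] <;> norm_num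

private theorem Jx_alg {R : Type} [Ring R] (a L M T W I : R) (h : L * M = 1) :
    (-(a * L)) * ((T - W) + M * (W - I)) = a * ((I - W) + L * (W - T)) := by
  have h1 : (-(a * L)) * (M * (W - I)) = -(a * (W - I)) := by
    rw [neg_mul, mul_assoc a L, ← mul_assoc L M, h, one_mul]
  rw [mul_add, h1]
  noncomm_ring

private theorem Jx_mul {G : Type} [Group G] (g h : G) :
    (MonoidAlgebra.single g (1 : ℤ)) * MonoidAlgebra.single h (1 : ℤ)
      = MonoidAlgebra.single (g * h) 1 := by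
  rw [MonoidAlgebra.single_mul_single, one_mul]

private theorem Jx_one {G : Type} [Group G] :
    (MonoidAlgebra.single (1 : G) (1 : ℤ)) = 1 := by
  rw [MonoidAlgebra.one_def]

private theorem Jx_rowF {G : Type} [Group G] (Γ : Sys E V) (e j : E) :
    ((row Γ.rev false e j : ℤ) : MonoidAlgebra ℤ G) =
      (if Γ.t e = Γ.c j then 1 else 0) - (if Γ.l e = Γ.c j then 1 else 0) := by
  have h1 : row Γ.rev false e j = (if Γ.t e = Γ.c j then 1 else 0) - (if Γ.l e = Γ.c j then 1 else 0) := rfl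
  rw [h1, Int.cast_sub, Int.cast_ite, Int.cast_ite, Int.cast_one, Int.cast_zero]

private theorem Jx_rowT {G : Type} [Group G] (Γ : Sys E V) (e j : E) :
    ((row Γ.rev true e j : ℤ) : MonoidAlgebra ℤ G) =
      (if Γ.l e = Γ.c j then 1 else 0) - (if Γ.i e = Γ.c j then 1 else 0) := by
  have h1 : row Γ.rev true e j = (if Γ.l e = Γ.c j then 1 else 0) - (if Γ.i e = Γ.c j then 1 else 0) := rfl
  rw [h1, Int.cast_sub, Int.cast_ite, Int.cast_ite, Int.cast_one, Int.cast_zero]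

theorem jac_max {Γ : Sys E V} (hc : Function.Injective Γ.c) (hU : Uni Γ) (hcoh : Coh Γ.rev) {G : Type}
    [Group G] (x : V → G) (hrel : ∀ e, x (Γ.i e) * x (Γ.l e) = x (Γ.l e) * x (Γ.t e))
    (deg : G → ℤ) (hdeg : ∀ g v, deg (g * (x v)⁻¹) = deg g + 1)
    (hκ : ∀ h : V → ℤ → ℚ, Hrm Γ.rev h →
      ∃ κ : G → ℚ, ∀ g e, κ (g * (x (Γ.l e))⁻¹) = κ g + h (Γ.l e) (deg g))
    (y : E → MonoidAlgebra ℤ G) (hy : ∀ j, ∑ e, y e * jac Γ.i Γ.t Γ.l x e (Γ.c j) = 0) : y = 0 := by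
  have hinv : ∀ e, (MonoidAlgebra.single (x (Γ.l e)) (1 : ℤ)) * MonoidAlgebra.single ((x (Γ.l e))⁻¹) (1 : ℤ) = 1 :=
    fun e => by rw [Jx_mul, mul_inv_cancel, Jx_one]
  have hZ := core3 (Γ := Γ.rev) hc (uni_rev hU) hcoh (fun e => (x (Γ.l e))⁻¹) deg (fun g e => hdeg g (Γ.l e)) hκ
    (fun e => y e * (-((MonoidAlgebra.single (x (Γ.i e)) 1 - 1) * MonoidAlgebra.single (x (Γ.l e)) 1)))
    (by
      intro j
      have h1 := congrArg (fun z => z * (MonoidAlgebra.single (x (Γ.c j)) (1 : ℤ) - 1)) (hy j)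
      simp only [Finset.sum_mul, zero_mul] at h1
      refine Eq.trans ?_ h1
      refine Finset.sum_congr rfl (fun e _ => ?_)
      rw [mul_assoc (y e), mul_assoc (y e), jac_id x e (hrel e) (Γ.c j), Jx_rowF, Jx_rowT,
        Jx_alg _ _ _ _ _ _ (hinv e)])
  funext e
  have h2 : y e * (-((MonoidAlgebra.single (x (Γ.i e)) 1 - 1) * MonoidAlgebra.single (x (Γ.l e)) 1)) = 0 :=
    hZ e
  have h3 : y e * (MonoidAlgebra.single (x (Γ.i e)) 1 - 1) = 0 := by
    have h4 := congrArg (fun z => z * MonoidAlgebra.single ((x (Γ.l e))⁻¹) (1 : ℤ)) h2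
    simp only [zero_mul] at h4
    rw [mul_assoc (y e), neg_mul, mul_assoc (MonoidAlgebra.single (x (Γ.i e)) 1 - 1), hinv e, mul_one, mul_neg,
      neg_eq_zero] at h4
    exact h4
  refine sub_one_inj (g := x (Γ.i e)) deg (Or.inr (fun u => ?_)) h3
  have h5 := hdeg (u * x (Γ.i e)) (Γ.i e)
  rw [mul_inv_cancel_right] at h5
  omega

end NCC
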