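import Pool.Agent.NCC.Un
import Pool.Agent.NCC.Cr
import Pool.Agent.NCC.In

/-!
# NCC: the finite group of the initial relations

`chK_chi`: the classes `chK` satisfy the equations of `Chi`. `chK_gen`: the differences along the rows of `F0` are the
classes of the unit vectors. `card_KK`: the rows of the initial matrix are a basis of the submodule of relations, and
`Submodule.natAbs_det_basis_change` computes the cardinality from `ini_one`.
-/

set_option autoImplicit false

namespace NCC

open Finset ITA

variable {E V : Type} [DecidableEq V] [Fintype E] [DecidableEq E]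

private theorem Kq_low {Γ : Sys E V} {τ : E → ℤ} {F0 : E → Bool} (hLC : LC Γ τ F0) (b : Bool) (e : E) (a : ℤ)
    (h : lv τ b e < a) : chK Γ τ F0 a (Γ.tail b e) = chK Γ τ F0 a (Γ.head b e) := by
  unfold chK
  refine congrArg _ ?_
  funext j
  by_cases hj : lv τ (F0 j) j = a
  · rw [if_pos hj, if_pos hj]
    have h0 : crd Γ F0 b e j = 0 := by
      by_contra hne
      have := hLC b e j hne
      omega
    unfold crd at h0
    have h1 : crv Γ F0 (Γ.tail b e) j = crv Γ F0 (Γ.head b e) j := by linarith
    rw [h1]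
  · rw [if_neg hj, if_neg hj]

theorem chK_chi {Γ : Sys E V} {τ : E → ℤ} {F0 : E → Bool} (hLC : LC Γ τ F0) :
    Chi Γ τ (chK Γ τ F0) := by
  refine ⟨?_, ?_, ?_, ?_, ?_⟩
  · intro a v hv
    unfold chK
    have h1 : (fun j => if lv τ (F0 j) j = a then D Γ F0 * crv Γ F0 v j else 0) = (0 : E → ℤ) := by
      funext j
      rw [crv_off Γ F0 hv j, mul_zero]
      simp
    rw [h1]
    exact Submodule.Quotient.mk_zero _
  · intro e a h
    exact Kq_low hLC false e a (by simpa [lv] using h)
  · intro e a h
    exact Kq_low hLC true e a (by simpa [lv] using h)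
  · intro e
    unfold chK
    rw [← Submodule.Quotient.mk_sub, ← Submodule.Quotient.mk_add, ← Submodule.Quotient.mk_sub,
      Submodule.Quotient.mk_eq_zero]
    have h1 : (fun j => if lv τ (F0 j) j = τ e then D Γ F0 * crv Γ F0 (Γ.i e) j else 0) -
          (fun j => if lv τ (F0 j) j = τ e then D Γ F0 * crv Γ F0 (Γ.l e) j else 0) +
          (fun j => if lv τ (F0 j) j = τ e + 1 then D Γ F0 * crv Γ F0 (Γ.l e) j else 0) -
          (fun j => if lv τ (F0 j) j = τ e + 1 then D Γ F0 * crv Γ F0 (Γ.t e) j else 0) =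
        D Γ F0 • (fun j : E => ini Γ τ F0 false e j + ini Γ τ F0 true e j) := by
      funext j
      simp only [Pi.sub_apply, Pi.add_apply, Pi.smul_apply, smul_eq_mul, ini, crd, Sys.tail, Sys.head, lv]
      simp only [Bool.false_eq_true, if_false, if_true]
      by_cases ha : (if F0 j = true then τ j + 1 else τ j) = τ e
      · have hb : ¬ (if F0 j = true then τ j + 1 else τ j) = τ e + 1 := by
          intro hb
          omega
        simp only [if_pos ha, if_neg hb]
        ring
      · simp only [if_neg ha]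
        by_cases hb : (if F0 j = true then τ j + 1 else τ j) = τ e + 1
        · simp only [if_pos hb]
          ring
        · simp only [if_neg hb]
          ring
    rw [h1]
    exact Submodule.smul_mem _ _ (Submodule.subset_span ⟨e, rfl⟩)
  · obtain ⟨M, hM⟩ := Finite.bddAbove_range (fun j => lv τ (F0 j) j)
    refine ⟨M + 1, fun a ha v => ?_⟩
    unfold chK
    have h1 : (fun j => if lv τ (F0 j) j = a then D Γ F0 * crv Γ F0 v j else 0) = (0 : E → ℤ) := by
      funext j
      have h2 := hM (Set.mem_range_self j)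
      rw [if_neg]
      · rfl
      · intro h3
        omega
    rw [h1]
    exact Submodule.Quotient.mk_zero _

private theorem Kq_sq {Γ : Sys E V} (hc : Function.Injective Γ.c) {F0 : E → Bool} (h0 : D Γ F0 ≠ 0) :
    D Γ F0 * D Γ F0 = 1 := by
  rcases un Γ hc F0 with h | h | h
  · exact absurd h h0
  · rw [h, mul_one]
  · rw [h]
    norm_num

theorem chK_gen {Γ : Sys E V} (hc : Function.Injective Γ.c) {τ : E → ℤ} {F0 : E → Bool}
    (h0 : D Γ F0 ≠ 0) (j : E) :
    chK Γ τ F0 (lv τ (F0 j) j) (Γ.tail (F0 j) j) - chK Γ τ F0 (lv τ (F0 j) j) (Γ.head (F0 j) j) =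
      Submodule.Quotient.mk (Pi.single j 1) := by
  unfold chK
  rw [← Submodule.Quotient.mk_sub]
  refine congrArg _ ?_
  funext j'
  have hs := crd_self Γ F0 j j'
  unfold crd at hs
  simp only [Pi.sub_apply]
  by_cases hj : j = j'
  · subst hj
    rw [if_pos rfl] at hs
    rw [if_pos rfl, if_pos rfl, Pi.single_eq_same, ← mul_sub, hs, Kq_sq hc h0]
  · rw [if_neg hj] at hs
    rw [Pi.single_eq_of_ne (fun h => hj h.symm)]
    by_cases hl : lv τ (F0 j') j' = lv τ (F0 j) j
    · rw [if_pos hl, if_pos hl, ← mul_sub, hs, mul_zero]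
    · rw [if_neg hl, if_neg hl, sub_zero]

private theorem Kq_adj {Γ : Sys E V} (hc : Function.Injective Γ.c) {F0 : E → Bool} (h0 : D Γ F0 ≠ 0) :
    (Mat Γ F0).adjugate.det.natAbs = 1 := by
  have h1 : (D Γ F0).natAbs = 1 := by
    rcases un Γ hc F0 with h | h | h
    · exact absurd h h0
    · rw [h]
      rfl
    · rw [h]
      rfl
  unfold D at h1
  rw [Matrix.det_adjugate, Int.natAbs_pow, h1, one_pow]

theorem card_KK {Γ : Sys E V} (hc : Function.Injective Γ.c) {τ : E → ℤ} {F0 : E → Bool} (hLC : LC Γ τ F0)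
    (h0 : D Γ F0 ≠ 0) (hP : (∑ F : E → Bool, (if cost F = cost F0 then D Γ F else 0)) ≠ 0) :
    Nat.card (KK Γ τ F0) = (∑ F : E → Bool, (if cost F = cost F0 then D Γ F else 0)).natAbs := by
  have hdet := ini_one hLC
  have hne : (Matrix.of fun e j : E => ini Γ τ F0 false e j + ini Γ τ F0 true e j).det ≠ 0 := by
    rw [hdet]
    exact mul_ne_zero (adj_det_ne h0) hP
  have hli : LinearIndependent ℤ (fun e : E => fun j : E => ini Γ τ F0 false e j + ini Γ τ F0 true e j) :=
    Matrix.linearIndependent_rows_of_det_ne_zero hne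
  have h1 := Submodule.natAbs_det_basis_change (Pi.basisFun ℤ E) _ (Module.Basis.span hli)
  have h2 : (Subtype.val ∘ (Module.Basis.span hli)) =
      (fun e : E => fun j : E => ini Γ τ F0 false e j + ini Γ τ F0 true e j) := by
    funext e
    exact congrArg Subtype.val (Module.Basis.span_apply hli e)
  rw [h2, Pi.basisFun_det_apply, hdet, Int.natAbs_mul, Kq_adj hc h0, one_mul] at h1
  exact h1.symm

end NCC
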