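import Pool.Agent.NCC.Cr
import Pool.Agent.NCC.Un

/-!
# NCC: the kernel vector

`psi_exists`: the sums `ψ a v` of the values `χ b v` over all levels `b ≥ a`. `part`: coordinates of the differences of
the values `s (ψ a v)` with respect to the pairs of the choice `F0`; only the pairs of the same level contribute.
`kernel`: the resulting vector is in the kernel of the initial matrix.
-/

set_option autoImplicit false

namespace NCC

open Finset ITA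

variable {E V : Type} [DecidableEq V] [Fintype E] [DecidableEq E]

omit [DecidableEq V] [Fintype E] [DecidableEq E] in
private theorem Kv_step {H : Type} [AddCommGroup H] {χ : ℤ → V → H} {N : ℤ} (hN : ∀ a, N ≤ a → ∀ v, χ a v = 0)
    (a : ℤ) (v : V) : ∑ k ∈ range (N - a).toNat, χ (a + (k : ℤ)) v =
      ∑ k ∈ range (N - (a + 1)).toNat, χ (a + 1 + (k : ℤ)) v + χ a v := by
  by_cases h : a < N
  · have h1 : (N - a).toNat = (N - (a + 1)).toNat + 1 := by omega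
    rw [h1, Finset.sum_range_succ']
    have h2 : ∀ k : ℕ, a + ((k + 1 : ℕ) : ℤ) = a + 1 + (k : ℤ) := fun k => by
      push_cast
      ring
    have h3 : a + ((0 : ℕ) : ℤ) = a := by
      push_cast
      ring
    rw [h3]
    refine congrArg (fun x => x + χ a v) (Finset.sum_congr rfl fun k _ => ?_)
    rw [h2]
  · have h1 : (N - a).toNat = 0 := by omega
    have h2 : (N - (a + 1)).toNat = 0 := by omega
    rw [h1, h2, Finset.sum_range_zero, Finset.sum_range_zero, hN a (by omega) v, add_zero]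

theorem psi_exists {Γ : Sys E V} {τ : E → ℤ} {H : Type} [AddCommGroup H] {χ : ℤ → V → H}
    (hχ : Chi Γ τ χ) : ∃ ψ : ℤ → V → H, (∀ a v, ψ a v = ψ (a + 1) v + χ a v) ∧
      (∀ a v, (∀ j, Γ.c j ≠ v) → ψ a v = 0) ∧ (∀ e a, τ e < a → ψ a (Γ.i e) = ψ a (Γ.l e)) ∧
      (∀ e a, τ e + 1 < a → ψ a (Γ.l e) = ψ a (Γ.t e)) := by
  obtain ⟨N, hN⟩ := hχ.top
  refine ⟨fun a v => ∑ k ∈ range (N - a).toNat, χ (a + (k : ℤ)) v, fun a v => Kv_step hN a v, ?_, ?_, ?_⟩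
  · intro a v hv
    exact Finset.sum_eq_zero fun k _ => hχ.off _ v hv
  · intro e a ha
    exact Finset.sum_congr rfl fun k _ => hχ.lowA e _ (by omega)
  · intro e a ha
    exact Finset.sum_congr rfl fun k _ => hχ.lowB e _ (by omega)

omit [DecidableEq V] [Fintype E] [DecidableEq E] in
private theorem Kv_low {Γ : Sys E V} {τ : E → ℤ} {H : Type} {ψ : ℤ → V → H}
    (hA : ∀ e a, τ e < a → ψ a (Γ.i e) = ψ a (Γ.l e)) (hB : ∀ e a, τ e + 1 < a → ψ a (Γ.l e) = ψ a (Γ.t e))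
    (b : Bool) (j : E) (a : ℤ) (h : lv τ b j < a) : ψ a (Γ.tail b j) = ψ a (Γ.head b j) := by
  cases b
  · exact hA j a h
  · exact hB j a h

theorem part {Γ : Sys E V} (hc : Function.Injective Γ.c) {τ : E → ℤ} {F0 : E → Bool} (hLC : LC Γ τ F0)
    {H : Type} [AddCommGroup H] {ψ : ℤ → V → H} (h1 : ∀ a v, (∀ j, Γ.c j ≠ v) → ψ a v = 0)
    (hA : ∀ e a, τ e < a → ψ a (Γ.i e) = ψ a (Γ.l e)) (hB : ∀ e a, τ e + 1 < a → ψ a (Γ.l e) = ψ a (Γ.t e))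
    {R : Type} [CommRing R] (s : H → R) (s0 : s 0 = 1) (b : Bool) (e : E) :
    ∑ j, ((ini Γ τ F0 b e j : ℤ) : R) * (s (ψ (lv τ (F0 j) j) (Γ.tail (F0 j) j))
      - s (ψ (lv τ (F0 j) j) (Γ.head (F0 j) j))) =
      ((D Γ F0 : ℤ) : R) * (s (ψ (lv τ b e) (Γ.tail b e)) - s (ψ (lv τ b e) (Γ.head b e))) := by
  have h2 := crd_apply Γ hc F0 (fun v => s (ψ (lv τ b e) v) - 1)
    (fun v hv => by
      show s (ψ (lv τ b e) v) - 1 = 0
      rw [h1 _ v hv, s0, sub_self]) b e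
  simp only [zsmul_eq_mul, sub_sub_sub_cancel_right] at h2
  rw [h2]
  refine Finset.sum_congr rfl fun j _ => ?_
  by_cases h3 : crd Γ F0 b e j = 0
  · have h4 : ini Γ τ F0 b e j = 0 := by
      unfold ini
      rw [h3, ite_self]
    rw [h3, h4]
    simp
  · have h4 := hLC b e j h3
    rcases h4.lt_or_eq with h5 | h5
    · have h6 : ini Γ τ F0 b e j = 0 := by
        unfold ini
        rw [if_neg h5.ne]
      rw [h6, Kv_low hA hB (F0 j) j _ h5]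
      simp
    · have h6 : ini Γ τ F0 b e j = crd Γ F0 b e j := by
        unfold ini
        rw [if_pos h5]
      rw [h6, h5]

theorem kernel {Γ : Sys E V} (hc : Function.Injective Γ.c) {τ : E → ℤ} {F0 : E → Bool} (hLC : LC Γ τ F0)
    {H : Type} [AddCommGroup H] {χ : ℤ → V → H} (hχ : Chi Γ τ χ) {ψ : ℤ → V → H}
    (h0 : ∀ a v, ψ a v = ψ (a + 1) v + χ a v) (h1 : ∀ a v, (∀ j, Γ.c j ≠ v) → ψ a v = 0)
    (hA : ∀ e a, τ e < a → ψ a (Γ.i e) = ψ a (Γ.l e)) (hB : ∀ e a, τ e + 1 < a → ψ a (Γ.l e) = ψ a (Γ.t e))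
    {R : Type} [CommRing R] (s : H → R) (s0 : s 0 = 1) (sa : ∀ a b, s (a + b) = s a * s b) (e : E) :
    ∑ j, (((ini Γ τ F0 false e j : ℤ) : R) + s (χ (τ e) (Γ.l e)) * ((ini Γ τ F0 true e j : ℤ) : R)) *
      (s (ψ (lv τ (F0 j) j) (Γ.tail (F0 j) j)) - s (ψ (lv τ (F0 j) j) (Γ.head (F0 j) j))) = 0 := by
  have p0 := part hc hLC h1 hA hB s s0 false e
  have p1 := part hc hLC h1 hA hB s s0 true e
  have h2 : ∑ j, (((ini Γ τ F0 false e j : ℤ) : R) + s (χ (τ e) (Γ.l e)) * ((ini Γ τ F0 true e j : ℤ) : R)) *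
      (s (ψ (lv τ (F0 j) j) (Γ.tail (F0 j) j)) - s (ψ (lv τ (F0 j) j) (Γ.head (F0 j) j))) =
      ∑ j, ((ini Γ τ F0 false e j : ℤ) : R) * (s (ψ (lv τ (F0 j) j) (Γ.tail (F0 j) j))
        - s (ψ (lv τ (F0 j) j) (Γ.head (F0 j) j))) +
      s (χ (τ e) (Γ.l e)) * ∑ j, ((ini Γ τ F0 true e j : ℤ) : R) * (s (ψ (lv τ (F0 j) j) (Γ.tail (F0 j) j))
        - s (ψ (lv τ (F0 j) j) (Γ.head (F0 j) j))) := by
    rw [Finset.mul_sum, ← Finset.sum_add_distrib]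
    refine Finset.sum_congr rfl fun j _ => ?_
    ring
  rw [h2, p0, p1]
  show ((D Γ F0 : ℤ) : R) * (s (ψ (τ e) (Γ.i e)) - s (ψ (τ e) (Γ.l e))) +
    s (χ (τ e) (Γ.l e)) * (((D Γ F0 : ℤ) : R) * (s (ψ (τ e + 1) (Γ.l e)) - s (ψ (τ e + 1) (Γ.t e)))) = 0
  have e1 : ψ (τ e + 1) (Γ.i e) = ψ (τ e + 1) (Γ.l e) := hA e _ (by omega)
  have e2 : ψ (τ e + 1 + 1) (Γ.l e) = ψ (τ e + 1 + 1) (Γ.t e) := hB e _ (by omega)
  have a1 : s (ψ (τ e) (Γ.i e)) = s (ψ (τ e + 1) (Γ.l e)) * s (χ (τ e) (Γ.i e)) := by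
    rw [h0 (τ e) (Γ.i e), sa, e1]
  have a2 : s (ψ (τ e) (Γ.l e)) = s (ψ (τ e + 1) (Γ.l e)) * s (χ (τ e) (Γ.l e)) := by
    rw [h0 (τ e) (Γ.l e), sa]
  have a3 : s (ψ (τ e + 1) (Γ.l e)) = s (ψ (τ e + 1 + 1) (Γ.t e)) * s (χ (τ e + 1) (Γ.l e)) := by
    rw [h0 (τ e + 1) (Γ.l e), sa, e2]
  have a4 : s (ψ (τ e + 1) (Γ.t e)) = s (ψ (τ e + 1 + 1) (Γ.t e)) * s (χ (τ e + 1) (Γ.t e)) := by
    rw [h0 (τ e + 1) (Γ.t e), sa]
  have a5 : s (χ (τ e) (Γ.i e)) * s (χ (τ e + 1) (Γ.l e)) = s (χ (τ e) (Γ.l e)) * s (χ (τ e + 1) (Γ.t e)) := by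
    rw [← sa, ← sa]
    refine congrArg s ?_
    have h3 := hχ.rel e
    have h4 : χ (τ e) (Γ.i e) + χ (τ e + 1) (Γ.l e) - (χ (τ e) (Γ.l e) + χ (τ e + 1) (Γ.t e)) =
        χ (τ e) (Γ.i e) - χ (τ e) (Γ.l e) + χ (τ e + 1) (Γ.l e) - χ (τ e + 1) (Γ.t e) := by abel
    exact sub_eq_zero.1 (h4.trans h3)
  rw [a1, a2, a4, a3]
  linear_combination ((D Γ F0 : ℤ) : R) * s (ψ (τ e + 1 + 1) (Γ.t e)) * a5

end NCC
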