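import Pool.Agent.NCC.Ls
import Pool.Agent.ITA.Ce

/-!
# NCC: a cycle of leading terms

`lead_step2` gives a map on the set of edges with a leading value; its cycle has total level change zero and total
value change at most zero.
-/

set_option autoImplicit false

namespace NCC

open Finset ITA

variable {E V : Type} [DecidableEq V] [Fintype E] [DecidableEq E]

theorem lead_cycle2 {Γ : Sys E V} {τ : E → ℤ} {F : E → Bool} (hD : D Γ F ≠ 0) (hLC : LC Γ τ F) {G : Type}
    [Group G] (y : E → G) (h : V → ℤ → ℚ) (pos : G → ℤ × ℚ)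
    (hpos : ∀ g e, pos (g * y e) = ((pos g).1 + 1, (pos g).2 + h (Γ.l e) (pos g).1))
    (c : E → G → ℤ) (hfin : ∀ e, (Function.support (c e)).Finite)
    (hk : ∀ j g, ∑ e, (c e g * row Γ false e j + c e (g * (y e)⁻¹) * row Γ true e j) = 0)
    (hlow : ∀ e g, c e g ≠ 0 → τ e ≤ (pos g).1) (hne : ∃ e g, c e g ≠ 0 ∧ (pos g).1 = τ e) :
    ∃ (n : ℕ) (x : ℕ → E), Cyc (fun j i => crd Γ F (!F i) i j ≠ 0) n x ∧
      ∑ a ∈ range n, (if F (x a) then (-1 : ℤ) else 1) = 0 ∧
      ∑ a ∈ range n, (if F (x a) then - h (Γ.l (x a)) (τ (x a)) else h (Γ.l (x a)) (τ (x a))) ≤ 0 := by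
  set J : Set E := {j | ∃ a, Lead c pos τ j a} with hJ
  have hJne : J.Nonempty := by
    obtain ⟨v, g, hg, hd⟩ := hne
    exact ⟨v, lead_exists c pos (hfin v) hg hd⟩
  obtain ⟨v0, -⟩ := id hJne
  have hnV : Nonempty E := ⟨v0⟩
  have hval : ∀ j ∈ J, ∃ a, Lead c pos τ j a := fun j hj => hj
  choose! av hav using hval
  have hstep : ∀ j ∈ J, ∃ i, i ∈ J ∧ crd Γ F (!F i) i j ≠ 0 ∧ lv τ (!F i) i = lv τ (F j) j ∧
      av i + (if F i then 0 else h (Γ.l i) (τ i)) ≤ av j + (if F j then h (Γ.l j) (τ j) else 0) := by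
    intro j hj
    obtain ⟨i, a', hQ, ha', hlv, hle⟩ :=
      lead_step2 hD hLC y h pos hpos c hfin hk hlow (hav j hj)
    have hi : i ∈ J := ⟨a', ha'⟩
    refine ⟨i, hi, hQ, hlv, ?_⟩
    rw [lead_unique (hav i hi) ha']
    exact hle
  choose! s hs using hstep
  obtain ⟨n, x, hx, hxJ⟩ := cyc_exists J hJne s (fun j hj => (hs j hj).1)
  have hsucc : ∀ a ∈ range n, x (a + 1) = s (x a) := fun a ha => hx.arc a (mem_range.1 ha)
  refine ⟨n, x, ⟨hx.pos, hx.inj, ?_, hx.close⟩, ?_, ?_⟩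
  · intro a ha
    show crd Γ F (!F (x (a + 1))) (x (a + 1)) (x a) ≠ 0
    rw [hsucc a (mem_range.2 ha)]
    exact (hs (x a) (hxJ a)).2.1
  · have h1 : ∀ a ∈ range n, τ (x (a + 1)) + (if F (x (a + 1)) then (0 : ℤ) else 1) =
        τ (x a) + (if F (x a) then (1 : ℤ) else 0) := by
      intro a ha
      have h2 := (hs (x a) (hxJ a)).2.2.1
      rw [← hsucc a ha] at h2
      unfold lv at h2
      cases hF1 : F (x (a + 1)) <;> cases hF2 : F (x a) <;> rw [hF1, hF2] at h2 <;> simp at h2 ⊢ <;>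
        omega
    have h3 := sum_congr rfl h1
    rw [sum_add_distrib, sum_add_distrib, cyc_sum hx τ,
      cyc_sum hx (fun v => if F v then (0 : ℤ) else 1)] at h3
    have h4 : ∑ a ∈ range n, (if F (x a) then (-1 : ℤ) else 1) =
        ∑ a ∈ range n, (if F (x a) then (0 : ℤ) else 1) -
          ∑ a ∈ range n, (if F (x a) then (1 : ℤ) else 0) := by
      rw [← sum_sub_distrib]
      refine sum_congr rfl (fun a _ => ?_)
      cases F (x a) <;> simp
    rw [h4]
    linarith
  · have h1 : ∀ a ∈ range n,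
        (fun v => av v + (if F v then h (Γ.l v) (τ v) else 0)) (x (a + 1)) +
          (fun v => if F v then - h (Γ.l v) (τ v) else h (Γ.l v) (τ v)) (x (a + 1)) ≤
        (fun v => av v + (if F v then h (Γ.l v) (τ v) else 0)) (x a) := by
      intro a ha
      have h2 := (hs (x a) (hxJ a)).2.2.2
      rw [← hsucc a ha] at h2
      show av (x (a + 1)) + (if F (x (a + 1)) then h (Γ.l (x (a + 1))) (τ (x (a + 1))) else 0) +
        (if F (x (a + 1)) then - h (Γ.l (x (a + 1))) (τ (x (a + 1)))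
          else h (Γ.l (x (a + 1))) (τ (x (a + 1)))) ≤
        av (x a) + (if F (x a) then h (Γ.l (x a)) (τ (x a)) else 0)
      cases hF1 : F (x (a + 1)) <;> rw [hF1] at h2 <;> simp at h2 ⊢ <;> linarith
    have h3 := sum_le_sum h1
    have h4 := cyc_sum hx (fun v => av v + (if F v then h (Γ.l v) (τ v) else 0))
    have h5 := cyc_sum hx (fun v => if F v then - h (Γ.l v) (τ v) else h (Γ.l v) (τ v))
    rw [sum_add_distrib, h4, h5] at h3
    exact nonpos_of_add_le_right h3

end NCC
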