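import Pool.Agent.NCC.Fw
import Pool.Agent.ITA.Le

/-!
# NCC: leading terms

`lead_step2`: as `ITA.lead_step` (module ITA/Le), in the coordinates of a state `F`. From `g0` with `c j g0 ≠ 0` and
`pos g0 = (τ j, a)` one gets `g` with `cof y c (F j) j g ≠ 0` of degree `lv τ (F j) j`. By `flow2` some `i` has
`crd Γ F (!F i) i j ≠ 0` and `cof y c (!F i) i g ≠ 0`; `LC` and `hlow` force the degree to be `lv τ (!F i) i`, and the
leading value of `i` is bounded by the value at `g`.
-/

set_option autoImplicit false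

namespace NCC

open Finset ITA

variable {E V : Type} [DecidableEq V] [Fintype E] [DecidableEq E]

omit [DecidableEq V] [Fintype E] [DecidableEq E] in
private theorem Ls_start {Γ : Sys E V} {τ : E → ℤ} {F : E → Bool} {G : Type}
    [Group G] (y : E → G) (h : V → ℤ → ℚ) (pos : G → ℤ × ℚ)
    (hpos : ∀ g e, pos (g * y e) = ((pos g).1 + 1, (pos g).2 + h (Γ.l e) (pos g).1))
    (c : E → G → ℤ) {j : E} {a : ℚ} (ha : Lead c pos τ j a) :
    ∃ g, cof y c (F j) j g ≠ 0 ∧ (pos g).1 = lv τ (F j) j ∧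
      (pos g).2 = a + (if F j then h (Γ.l j) (τ j) else 0) := by
  obtain ⟨⟨g0, hg0, hp0⟩, _⟩ := ha
  cases hF : F j with
  | true =>
    refine ⟨g0 * y j, ?_, ?_, ?_⟩
    · simp only [cof, if_true, mul_inv_cancel_right]
      exact hg0
    · rw [hpos, hp0]
      simp [lv]
    · rw [hpos, hp0]
      simp
  | false =>
    refine ⟨g0, ?_, ?_, ?_⟩
    · simp only [cof, Bool.false_eq_true, if_false]
      exact hg0
    · rw [hp0]
      simp [lv]
    · rw [hp0]
      simp

theorem lead_step2 {Γ : Sys E V} {τ : E → ℤ} {F : E → Bool} (hD : D Γ F ≠ 0) (hLC : LC Γ τ F) {G : Type}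
    [Group G] (y : E → G) (h : V → ℤ → ℚ) (pos : G → ℤ × ℚ)
    (hpos : ∀ g e, pos (g * y e) = ((pos g).1 + 1, (pos g).2 + h (Γ.l e) (pos g).1))
    (c : E → G → ℤ) (hfin : ∀ e, (Function.support (c e)).Finite)
    (hk : ∀ j g, ∑ e, (c e g * row Γ false e j + c e (g * (y e)⁻¹) * row Γ true e j) = 0)
    (hlow : ∀ e g, c e g ≠ 0 → τ e ≤ (pos g).1) {j : E} {a : ℚ} (ha : Lead c pos τ j a) :
    ∃ i a', crd Γ F (!F i) i j ≠ 0 ∧ Lead c pos τ i a' ∧ lv τ (!F i) i = lv τ (F j) j ∧
      a' + (if F i then 0 else h (Γ.l i) (τ i)) ≤ a + (if F j then h (Γ.l j) (τ j) else 0) := by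
  obtain ⟨g, hg, hg1, hg2⟩ := Ls_start (F := F) y h pos hpos c ha
  have hflow := flow2 y c hk F j g
  have hsum : ∑ e, crd Γ F (!F e) e j * cof y c (!F e) e g ≠ 0 := by
    intro h0
    rw [h0, add_zero] at hflow
    rcases mul_eq_zero.1 hflow with h1 | h1
    · exact hD h1
    · exact hg h1
  obtain ⟨i, -, hne⟩ := Finset.exists_ne_zero_of_sum_ne_zero hsum
  have hQ : crd Γ F (!F i) i j ≠ 0 := left_ne_zero_of_mul hne
  have hco : cof y c (!F i) i g ≠ 0 := right_ne_zero_of_mul hne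
  have hcross : lv τ (F j) j ≤ lv τ (!F i) i := hLC _ _ _ hQ
  have hp' : pos g = ((pos (g * (y i)⁻¹)).1 + 1,
      (pos (g * (y i)⁻¹)).2 + h (Γ.l i) (pos (g * (y i)⁻¹)).1) := by
    have h2 := hpos (g * (y i)⁻¹) i
    rw [inv_mul_cancel_right] at h2
    exact h2
  have hp1 : (pos g).1 = (pos (g * (y i)⁻¹)).1 + 1 := congrArg Prod.fst hp'
  have hp2 : (pos g).2 = (pos (g * (y i)⁻¹)).2 + h (Γ.l i) (pos (g * (y i)⁻¹)).1 :=
    congrArg Prod.snd hp'
  rw [← hg1] at hcross
  cases hFi : F i with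
  | false =>
    rw [hFi] at hco hcross
    simp only [cof, Bool.not_false, if_true] at hco
    simp only [lv, Bool.not_false, if_true] at hcross
    have hlo := hlow i _ hco
    have hdeg : (pos (g * (y i)⁻¹)).1 = τ i := by omega
    obtain ⟨a', ha'⟩ := lead_exists (τ := τ) c pos (hfin i) hco hdeg
    refine ⟨i, a', hQ, ha', ?_, ?_⟩
    · rw [← hg1, hFi]
      simp only [lv, Bool.not_false, if_true]
      omega
    · rw [hFi, ← hg2, hp2, hdeg]
      simp only [Bool.false_eq_true, if_false]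
      have := ha'.2 _ hco hdeg
      linarith
  | true =>
    rw [hFi] at hco hcross
    simp only [cof, Bool.not_true, Bool.false_eq_true, if_false] at hco
    simp only [lv, Bool.not_true, Bool.false_eq_true, if_false] at hcross
    have hlo := hlow i _ hco
    have hdeg : (pos g).1 = τ i := by omega
    obtain ⟨a', ha'⟩ := lead_exists (τ := τ) c pos (hfin i) hco hdeg
    refine ⟨i, a', hQ, ha', ?_, ?_⟩
    · rw [← hg1, hFi]
      simp only [lv, Bool.not_true, Bool.false_eq_true, if_false]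
      omega
    · rw [hFi, ← hg2]
      simp only [if_true, add_zero]
      exact ha'.2 _ hco hdeg

end NCC
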