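import Pool.Agent.NCC.Nt
import Pool.Agent.NCC.Cn
import Pool.Agent.NCC.Cu

/-!
# NCC: values of the states of minimum cost are distinct

The coefficients of a solution vanish below the levels, since the leading ones are in the left kernel of a matrix with nonzero
determinant; the coefficients at the levels show that the two states have the same value in the finite group.
-/

set_option autoImplicit false

namespace NCC

open Finset ITA

variable {E V : Type} [DecidableEq V] [Fintype E] [DecidableEq E]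

private theorem Nd_cost {Γ : Sys E V} {F F0 : E → Bool} (hF : MinSt Γ F) (h0 : MinSt Γ F0) :
    cost F = cost F0 := le_antisymm (hF.2 F0 h0.1) (h0.2 F hF.1)

theorem low2 {Γ : Sys E V} (hcoh : Coh Γ) {τ : E → ℤ} {F0 F F' : E → Bool}
    (hLC : LC Γ τ F0) (h0 : MinSt Γ F0) (hF : MinSt Γ F) (hF' : MinSt Γ F') (n : E → ℤ → ℤ)
    (hb : ∃ d0, ∀ e d, d < d0 → n e d = 0)
    (hn : ∀ j d, ∑ e, (n e d * row Γ false e j + n e (d - 1) * row Γ true e j) =
      ∑ e, (if τ e = d then eps F F' e * u Γ (Γ.l e) j else 0)) : ∀ e d, d < τ e → n e d = 0 := by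
  intro e d hd
  by_contra hne
  obtain ⟨d0, hd0⟩ := hb
  obtain ⟨T, hT⟩ := (Set.finite_range τ).bddAbove
  have hT' : ∀ e, τ e ≤ T := fun e => hT ⟨e, rfl⟩
  obtain ⟨m, ⟨e1, d1, hn1, hm1⟩, hmin⟩ := Int.exists_least_of_bdd
    (P := fun m : ℤ => ∃ e, ∃ d, n e d ≠ 0 ∧ d - τ e = m)
    ⟨d0 - T, by
      rintro z ⟨u, a, he, hz⟩
      have h1 : d0 ≤ a := by
        by_contra h2
        exact he (hd0 u a (by omega))
      have h3 := hT' u
      omega⟩ ⟨d - τ e, e, d, hne, rfl⟩
  have hm : m < 0 := by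
    have := hmin (d - τ e) ⟨e, d, hne, rfl⟩
    omega
  have hlow : ∀ e d, d < τ e + m → n e d = 0 := by
    intro u a ha
    by_contra h4
    have := hmin (a - τ u) ⟨u, a, h4, rfl⟩
    omega
  have hz : ∀ j, ∑ e, n e (τ e + m) * (ini Γ τ F0 false e j + ini Γ τ F0 true e j) = 0 := by
    intro j
    rw [lead_eq hLC n hn hlow j]
    refine cn (g := fun v => crv Γ F0 v j) hLC h0.1 hF.1 (Nd_cost hF h0) hF'.1 (Nd_cost hF' h0) ?_
    intro b a hba
    by_contra hcr
    have h1 : crd Γ F0 b a j ≠ 0 := fun h2 => hcr (sub_eq_zero.1 h2)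
    have h2 := hLC b a j h1
    omega
  have hdet : (Matrix.of fun e j : E => ini Γ τ F0 false e j + ini Γ τ F0 true e j).det ≠ 0 := by
    rw [ini_one hLC]
    exact mul_ne_zero (adj_det_ne h0.1) (coh_sum hcoh h0)
  have hν : (fun e => n e (τ e + m)) = 0 := by
    refine Matrix.eq_zero_of_vecMul_eq_zero hdet ?_
    funext j
    exact hz j
  apply hn1
  have h6 : d1 = τ e1 + m := by omega
  rw [h6]
  exact congrFun hν e1

theorem distinct2 {Γ : Sys E V} (hc : Function.Injective Γ.c) (hcoh : Coh Γ) {τ : E → ℤ}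
    {F0 F F' : E → Bool} (hLC : LC Γ τ F0) (h0 : MinSt Γ F0) (hF : MinSt Γ F) (hF' : MinSt Γ F')
    (n : E → ℤ → ℤ) (hb : ∃ d0, ∀ e d, d < d0 → n e d = 0)
    (hn : ∀ j d, ∑ e, (n e d * row Γ false e j + n e (d - 1) * row Γ true e j) =
      ∑ e, (if τ e = d then eps F F' e * u Γ (Γ.l e) j else 0)) : F = F' := by
  have hlow := low2 hcoh hLC h0 hF hF' n hb hn
  have hlead : ∀ j, ∑ e, n e (τ e) * (ini Γ τ F0 false e j + ini Γ τ F0 true e j) =
      ∑ e, (if τ e = lv τ (F0 j) j then eps F F' e * crv Γ F0 (Γ.l e) j else 0) := by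
    intro j
    have h1 := lead_eq hLC n hn (m := 0) (fun e d hd => hlow e d (by omega)) j
    simp only [add_zero] at h1
    exact h1
  refine w_inj hc hcoh hLC h0 hF hF' ?_
  have key : ∑ e, eps F F' e • chK Γ τ F0 (τ e) (Γ.l e) = 0 := by
    have h1 : ∑ e, eps F F' e • chK Γ τ F0 (τ e) (Γ.l e) =
        Submodule.Quotient.mk (∑ e, (D Γ F0 * n e (τ e)) • (fun j : E =>
          ini Γ τ F0 false e j + ini Γ τ F0 true e j)) := by
      have h2 : ∑ e, (D Γ F0 * n e (τ e)) • (fun j : E => ini Γ τ F0 false e j + ini Γ τ F0 true e j) =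
          ∑ e, eps F F' e • (fun j : E => if lv τ (F0 j) j = τ e then D Γ F0 * crv Γ F0 (Γ.l e) j else 0) := by
        funext j
        rw [Finset.sum_apply, Finset.sum_apply]
        have h3 : ∑ e, ((D Γ F0 * n e (τ e)) • (fun j : E => ini Γ τ F0 false e j + ini Γ τ F0 true e j)) j =
            D Γ F0 * ∑ e, n e (τ e) * (ini Γ τ F0 false e j + ini Γ τ F0 true e j) := by
          rw [Finset.mul_sum]
          refine Finset.sum_congr rfl fun e _ => ?_
          rw [Pi.smul_apply, smul_eq_mul, mul_assoc]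
        rw [h3, hlead j, Finset.mul_sum]
        refine Finset.sum_congr rfl fun e _ => ?_
        rw [Pi.smul_apply, smul_eq_mul]
        by_cases h4 : τ e = lv τ (F0 j) j
        · rw [if_pos h4, if_pos h4.symm]
          ring
        · rw [if_neg h4, if_neg (fun h5 => h4 h5.symm), mul_zero, mul_zero]
      rw [h2, ← Submodule.mkQ_apply, map_sum]
      refine Finset.sum_congr rfl fun e _ => ?_
      rw [map_smul]
      rfl
    rw [h1, Submodule.Quotient.mk_eq_zero]
    refine Submodule.sum_mem _ fun e _ => Submodule.smul_mem _ _ (Submodule.subset_span ⟨e, rfl⟩)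
  have h5 : ∑ e, eps F F' e • chK Γ τ F0 (τ e) (Γ.l e) =
      ∑ e, (if F e then chK Γ τ F0 (τ e) (Γ.l e) else 0) -
        ∑ e, (if F' e then chK Γ τ F0 (τ e) (Γ.l e) else 0) := by
    rw [← Finset.sum_sub_distrib]
    refine Finset.sum_congr rfl fun e _ => ?_
    unfold eps
    rw [sub_smul]
    congr 1
    · by_cases h6 : F e
      · rw [if_pos h6, if_pos h6, one_smul]
      · rw [if_neg h6, if_neg h6, zero_smul]
    · by_cases h6 : F' e
      · rw [if_pos h6, if_pos h6, one_smul]
      · rw [if_neg h6, if_neg h6, zero_smul]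
  rw [key] at h5
  exact sub_eq_zero.1 h5.symm

end NCC
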