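import Pool.Agent.NCC.Nd
import Pool.Agent.NCC.Ii
import Pool.Agent.NCC.Lt

/-!
# NCC: value differences are not in the span of the relations

A linear combination of the relations with coefficients `n e d` has the coordinate `Lap Γ n j d` at `(j, d)`. If it is
equal to the difference of the values of two choices, all coefficients are integers (`int2`), and the choices are
equal (`distinct2`).
-/

set_option autoImplicit false

namespace NCC

open Finset ITA

variable {E V : Type} [DecidableEq V] [Fintype E] [DecidableEq E]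

private theorem Nm_single {E : Type} [DecidableEq E] (a b : E) (d e : ℤ) (c : ℚ) :
    Finsupp.single (a, d) c (b, e) = if a = b ∧ d = e then c else 0 := by
  rw [Finsupp.single_apply]
  simp only [Prod.mk.injEq]

private theorem Nm_vec (Γ : Sys E V) (v : V) (d' d : ℤ) (j : E) :
    vec Γ v d' (j, d) = if d' = d then (u Γ v j : ℚ) else 0 := by
  rw [vec, Finsupp.finsetSum_apply, Finset.sum_eq_single j]
  · rw [Nm_single]
    simp
  · intro k _ hk
    rw [Nm_single]
    simp [hk]
  · intro h
    exact absurd (Finset.mem_univ j) h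

private theorem Nm_lap (Γ : Sys E V) (j : E) (d : ℤ) (c : (E × ℤ) →₀ ℚ) :
    (c.sum fun x a => a • rl Γ x) (j, d) = Lap Γ (fun e d => c (e, d)) j d := by
  induction c using Finsupp.induction_linear with
  | zero => simp [Lap]
  | add c1 c2 h1 h2 =>
    rw [Finsupp.sum_add_index' (fun x => by simp) (fun x a b => by rw [add_smul]), Finsupp.add_apply, h1, h2]
    simp only [Lap, Finsupp.add_apply]
    rw [← Finset.sum_add_distrib]
    refine Finset.sum_congr rfl fun e _ => ?_
    ring
  | single x a =>
    obtain ⟨e0, d0⟩ := x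
    rw [Finsupp.sum_single_index (by rw [zero_smul]), Finsupp.smul_apply, smul_eq_mul, Lap, Finset.sum_eq_single e0]
    · simp only [rl, Finsupp.sub_apply, Finsupp.add_apply, Nm_vec, Nm_single, row, Sys.tail, Sys.head]
      have he : (d0 + 1 = d) ↔ (d0 = d - 1) := by omega
      simp only [he]
      by_cases h1 : d0 = d <;> by_cases h2 : d0 = d - 1
      · exfalso
        omega
      · simp only [eq_true h1, eq_false h2, and_true, and_false, if_true, if_false]
        push_cast
        ring
      · simp only [eq_false h1, eq_true h2, and_true, and_false, if_true, if_false]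
        push_cast
        ring
      · simp only [eq_false h1, eq_false h2, and_false, if_false]
        ring
    · intro e _ hne
      have hne' : e0 ≠ e := fun h => hne h.symm
      simp [hne']
    · intro h
      exact absurd (Finset.mem_univ e0) h

private theorem Nm_ww (Γ : Sys E V) (τ : E → ℤ) (F F' : E → Bool) (j : E) (d : ℤ) :
    ww Γ τ F F' (j, d) = ((∑ e, (if τ e = d then eps F F' e * u Γ (Γ.l e) j else 0) : ℤ) : ℚ) := by
  rw [ww, Finsupp.finsetSum_apply, Int.cast_sum]
  refine Finset.sum_congr rfl fun e _ => ?_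
  rw [Finsupp.smul_apply, Nm_vec, smul_eq_mul]
  by_cases h : τ e = d <;> simp [h]

theorem not_mem2 {Γ : Sys E V} (hc : Function.Injective Γ.c) (hU : Uni Γ) (hcoh : Coh Γ) {τ : E → ℤ}
    (hτ : ∀ F, MinSt Γ F → LC Γ τ F) {F F' : E → Bool} (hF : MinSt Γ F) (hF' : MinSt Γ F')
    (h : ww Γ τ F F' ∈ Submodule.span ℚ (Set.range (rl Γ))) : F = F' := by
  obtain ⟨c, hcc⟩ := Finsupp.mem_span_range_iff_exists_finsupp.1 h
  set n : E → ℤ → ℚ := fun e d => c (e, d) with hn
  have key : ∀ j d, Lap Γ n j d =
      ((∑ e, (if τ e = d then eps F F' e * u Γ (Γ.l e) j else 0) : ℤ) : ℚ) := by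
    intro j d
    rw [hn, ← Nm_lap Γ j d c, hcc, Nm_ww]
  obtain ⟨a, ha⟩ := (c.support.image Prod.snd).bddBelow
  obtain ⟨b, hb⟩ := (c.support.image Prod.snd).bddAbove
  have hs : ∀ e d, d < a ∨ b < d → n e d = 0 := by
    intro e d hd
    by_contra hne
    have hm : d ∈ c.support.image Prod.snd :=
      Finset.mem_image.2 ⟨(e, d), Finsupp.mem_support_iff.2 hne, rfl⟩
    have h1 := ha (Finset.mem_coe.2 hm)
    have h2 := hb (Finset.mem_coe.2 hm)
    omega
  have hint := int2 hU n a b hs fun j d => ⟨_, key j d⟩
  set m : E → ℤ → ℤ := fun e d => ⌊n e d⌋ with hm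
  have hmn : ∀ e d, ((m e d : ℤ) : ℚ) = n e d := by
    intro e d
    obtain ⟨k, hk⟩ := hint e d
    rw [hm]
    simp only [hk, Int.floor_intCast]
  refine distinct2 hc hcoh (hτ F hF) hF hF hF' m ⟨a, fun e d hd => ?_⟩ ?_
  · rw [hm]
    simp only [hs e d (Or.inl hd), Int.floor_zero]
  · intro j d
    have hk := key j d
    rw [Lap] at hk
    have hq : ((∑ e, (m e d * row Γ false e j + m e (d - 1) * row Γ true e j) : ℤ) : ℚ) =
        ((∑ e, (if τ e = d then eps F F' e * u Γ (Γ.l e) j else 0) : ℤ) : ℚ) := by
      rw [← hk, Int.cast_sum]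
      refine Finset.sum_congr rfl fun e _ => ?_
      push_cast
      rw [hmn, hmn]
    exact_mod_cast hq

end NCC
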