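import Pool.Agent.NCC.Cr

/-!
# NCC: the equations in the coordinates of a state

The equations of the columns are transformed by the adjugate of the matrix of a state (`trans`); in the lowest degree only the
initial parts of the coordinates contribute (`lead_eq`).
-/

set_option autoImplicit false

namespace NCC

open Finset ITA

variable {E V : Type} [DecidableEq V] [Fintype E] [DecidableEq E]

theorem trans {Γ : Sys E V} (F0 : E → Bool) {F F' : E → Bool} {τ : E → ℤ} (n : E → ℤ → ℤ)
    (hn : ∀ j d, ∑ e, (n e d * row Γ false e j + n e (d - 1) * row Γ true e j) =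
      ∑ e, (if τ e = d then eps F F' e * u Γ (Γ.l e) j else 0)) (j : E) (d : ℤ) :
    ∑ e, (n e d * crd Γ F0 false e j + n e (d - 1) * crd Γ F0 true e j) =
      ∑ e, (if τ e = d then eps F F' e * crv Γ F0 (Γ.l e) j else 0) := by
  have h1 : ∀ e, n e d * crd Γ F0 false e j + n e (d - 1) * crd Γ F0 true e j =
      ∑ k, (n e d * row Γ false e k + n e (d - 1) * row Γ true e k) * (Mat Γ F0).adjugate k j := by
    intro e
    rw [crd_eq, crd_eq, Finset.mul_sum, Finset.mul_sum, ← Finset.sum_add_distrib]
    refine Finset.sum_congr rfl fun k _ => ?_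
    ring
  have h2 : ∀ e, (if τ e = d then eps F F' e * crv Γ F0 (Γ.l e) j else 0) =
      ∑ k, (if τ e = d then eps F F' e * u Γ (Γ.l e) k else 0) * (Mat Γ F0).adjugate k j := by
    intro e
    by_cases he : τ e = d
    · simp only [if_pos he, crv, Finset.mul_sum, mul_assoc]
    · simp only [if_neg he, zero_mul, Finset.sum_const_zero]
  rw [Finset.sum_congr rfl fun e _ => h1 e, Finset.sum_congr rfl fun e _ => h2 e,
    Finset.sum_comm, Finset.sum_comm (s := Finset.univ) (t := Finset.univ)
      (f := fun e k => (if τ e = d then eps F F' e * u Γ (Γ.l e) k else 0) *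
        (Mat Γ F0).adjugate k j)]
  refine Finset.sum_congr rfl fun k _ => ?_
  rw [← Finset.sum_mul, ← Finset.sum_mul, hn k d]

private theorem Nt_lead {s t m x y c : ℤ} (hst : c ≠ 0 → s ≤ t) (hx : s + m < t + m → x = 0)
    (hxy : s = t → x = y) : x * c = y * (if s = t then c else 0) := by
  by_cases h : s = t
  · rw [if_pos h, hxy h]
  · rw [if_neg h, mul_zero]
    by_cases hc : c = 0
    · rw [hc, mul_zero]
    · have h1 := hst hc
      rw [hx (by omega), zero_mul]

theorem lead_eq {Γ : Sys E V} {F0 F F' : E → Bool} {τ : E → ℤ} (hLC : LC Γ τ F0) (n : E → ℤ → ℤ)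
    (hn : ∀ j d, ∑ e, (n e d * row Γ false e j + n e (d - 1) * row Γ true e j) =
      ∑ e, (if τ e = d then eps F F' e * u Γ (Γ.l e) j else 0)) {m : ℤ}
    (hlow : ∀ e d, d < τ e + m → n e d = 0) (j : E) :
    ∑ e, n e (τ e + m) * (ini Γ τ F0 false e j + ini Γ τ F0 true e j) =
      ∑ e, (if τ e = lv τ (F0 j) j + m then eps F F' e * crv Γ F0 (Γ.l e) j else 0) := by
  rw [← trans F0 n hn j (lv τ (F0 j) j + m)]
  refine Finset.sum_congr rfl fun e _ => ?_
  have h1 : lv τ false e = τ e := rfl
  have h2 : lv τ true e = τ e + 1 := rfl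
  have h3 : n e (lv τ (F0 j) j + m) * crd Γ F0 false e j =
      n e (τ e + m) * ini Γ τ F0 false e j := by
    refine Nt_lead (m := m) (hLC false e j) (fun h => hlow e _ ?_) (fun h => ?_)
    · rw [h1] at h
      exact h
    · rw [h, h1]
  have h4 : n e (lv τ (F0 j) j + m - 1) * crd Γ F0 true e j =
      n e (τ e + m) * ini Γ τ F0 true e j := by
    refine Nt_lead (m := m) (hLC true e j) (fun h => hlow e _ ?_) (fun h => ?_)
    · rw [h2] at h
      omega
    · rw [h, h2]
      congr 1
      ring
  rw [h3, h4, mul_add]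

end NCC
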