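import Pool.Agent.NCC.Un
import Pool.Agent.NCC.Lot

/-!
# NCC: trees are unimodular

By total unimodularity (`tu`) the determinant is `0`, `1` or `-1`. A vector annihilated by the matrix gives a function on
the vertices which vanishes at the root and is constant along the edges of the tree, hence zero.
-/

set_option autoImplicit false

namespace NCC

open Finset ITA

theorem uni_tree {m : ℕ} {i t : Fin m → Fin (m + 1)} (hT : NCL.IsOrientedTree i t)
    (lam c : Fin m → Fin (m + 1)) (hc : Function.Injective c) (h0 : ∀ j, c j ≠ 0) :
    Uni (⟨i, lam, t, c⟩ : Sys (Fin m) (Fin (m + 1))) := by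
  rcases tu c hc i t with h | h | h
  · exfalso
    rw [← Matrix.exists_mulVec_eq_zero_iff] at h
    obtain ⟨g, hg, hgz⟩ := h
    have hGc : ∀ j, (∑ k, if c j = c k then g k else 0) = g j := by
      intro j
      rw [Finset.sum_eq_single j]
      · rw [if_pos rfl]
      · intro k _ hk
        rw [if_neg fun h4 => hk (hc h4).symm]
      · intro h4
        exact absurd (Finset.mem_univ j) h4
    have hG0 : (∑ k, if (0 : Fin (m + 1)) = c k then g k else 0) = 0 :=
      Finset.sum_eq_zero fun k _ => if_neg (h0 k).symm
    have hGe : ∀ e, (∑ k, if i e = c k then g k else 0) = ∑ k, if t e = c k then g k else 0 := by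
      intro e
      have h1 := congrFun hgz e
      simp only [Matrix.mulVec, dotProduct, Matrix.of_apply, Pi.zero_apply, sub_mul, ite_mul, one_mul,
        zero_mul, Finset.sum_sub_distrib] at h1
      exact sub_eq_zero.mp h1
    have hadj : ∀ a b, (SimpleGraph.fromRel (fun a b => ∃ e, i e = a ∧ t e = b)).Adj a b →
        (∑ k, if a = c k then g k else 0) = ∑ k, if b = c k then g k else 0 := by
      intro a b hab
      rw [SimpleGraph.fromRel_adj] at hab
      rcases hab.2 with ⟨e, h1, h2⟩ | ⟨e, h1, h2⟩
      · rw [← h1, ← h2]
        exact hGe e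
      · rw [← h1, ← h2]
        exact (hGe e).symm
    have hwalk : ∀ a b, (SimpleGraph.fromRel (fun a b => ∃ e, i e = a ∧ t e = b)).Walk a b →
        (∑ k, if a = c k then g k else 0) = ∑ k, if b = c k then g k else 0 := by
      intro a b w
      induction w with
      | nil => rfl
      | cons h1 _ ih => exact (hadj _ _ h1).trans ih
    apply hg
    funext j
    obtain ⟨w⟩ := hT.1.preconnected (c j) 0
    have h1 := hwalk _ _ w
    rw [hGc, hG0] at h1
    exact h1
  · exact Or.inl h
  · exact Or.inr h

end NCC
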