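import Pool.Agent.NCC.Jx
import Pool.Agent.NCC.Tc
import Pool.Agent.NCC.Fb
import Pool.Agent.NCC.Rv

/-!
# NCC: labelled oriented trees without cancellation, one block

If all states of least exponent, or all states of greatest exponent, have the same sign, the tree is aspherical.
-/

set_option autoImplicit false

namespace NCC

open Finset ITA

theorem one_block {m : ℕ} (i lam t : Fin m → Fin (m + 1)) (hT : NCL.IsOrientedTree i t)
    (h : NCL.NoCancelLow i lam t Fin.succ ∨ NCL.NoCancelHigh i lam t Fin.succ) :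
    NCL.Aspherical i lam t := by
  intro a b hab
  have hU : Uni (⟨i, lam, t, Fin.succ⟩ : Sys (Fin m) (Fin (m + 1))) :=
    uni_tree hT lam Fin.succ (Fin.succ_injective m) (fun j => Fin.succ_ne_zero j)
  have hrel : ∀ e, NCL.gen i lam t ((⟨i, lam, t, Fin.succ⟩ : Sys (Fin m) (Fin (m + 1))).i e)
      * NCL.gen i lam t ((⟨i, lam, t, Fin.succ⟩ : Sys (Fin m) (Fin (m + 1))).l e)
      = NCL.gen i lam t ((⟨i, lam, t, Fin.succ⟩ : Sys (Fin m) (Fin (m + 1))).l e)
        * NCL.gen i lam t ((⟨i, lam, t, Fin.succ⟩ : Sys (Fin m) (Fin (m + 1))).t e) :=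
    fun e => NCL.relator_trivial i lam t e
  obtain ⟨deg, hd, hdeg⟩ := deg_exists i lam t
  have hy : ∀ j : Fin m, ∑ e, (fun e => a e - b e) e
      * jac (⟨i, lam, t, Fin.succ⟩ : Sys (Fin m) (Fin (m + 1))).i
        (⟨i, lam, t, Fin.succ⟩ : Sys (Fin m) (Fin (m + 1))).t
        (⟨i, lam, t, Fin.succ⟩ : Sys (Fin m) (Fin (m + 1))).l (NCL.gen i lam t) e
        ((⟨i, lam, t, Fin.succ⟩ : Sys (Fin m) (Fin (m + 1))).c j) = 0 := by
    intro j
    have h2 : NCL.boundary i lam t a j.succ = NCL.boundary i lam t b j.succ := by rw [hab]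
    have h3 : NCL.boundary i lam t a j.succ - NCL.boundary i lam t b j.succ = 0 := sub_eq_zero.2 h2
    unfold NCL.boundary at h3
    rw [← Finset.sum_sub_distrib] at h3
    rw [← h3]
    refine Finset.sum_congr rfl (fun e _ => ?_)
    rw [NCL.fox_rel, ← sub_mul]
  have h1 : (fun e => a e - b e) = 0 := by
    rcases h with hl | hh
    · refine jac_min (Γ := ⟨i, lam, t, Fin.succ⟩) (Fin.succ_injective m) hU (coh_low hl)
        (NCL.gen i lam t) hrel deg hd ?_ _ hy
      intro h' hh'
      obtain ⟨κ, hκ⟩ := hdeg h' (fun e d => hh'.rel e d)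
      exact ⟨κ, fun g e => hκ g (lam e)⟩
    · refine jac_max (Γ := ⟨i, lam, t, Fin.succ⟩) (Fin.succ_injective m) hU (coh_high hh)
        (NCL.gen i lam t) hrel (fun g => - deg g) ?_ ?_ _ hy
      · intro g v
        have h5 := hd (g * (NCL.gen i lam t v)⁻¹) v
        rw [inv_mul_cancel_right] at h5
        omega
      · intro h' hh'
        obtain ⟨κ, hκ⟩ := hdeg (fun v d => - h' v (-d - 1)) (fun e d => by
          have h6 := hh'.rel e (-d - 2)
          have e1 : -d - 2 + 1 = -d - 1 := by ring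
          have e2 : -(d + 1) - 1 = -d - 2 := by ring
          rw [e1] at h6
          show - h' (i e) (-d - 1) - (- h' (lam e) (-d - 1)) + (- h' (lam e) (-(d + 1) - 1))
            - (- h' (t e) (-(d + 1) - 1)) = 0
          rw [e2]
          have h7 : h' (t e) (-d - 2) - h' (lam e) (-d - 2) + h' (lam e) (-d - 1)
            - h' (i e) (-d - 1) = 0 := h6
          linarith)
        refine ⟨κ, fun g e => ?_⟩
        have h8 := hκ (g * (NCL.gen i lam t (lam e))⁻¹) (lam e)
        rw [inv_mul_cancel_right] at h8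
        have h9 := hd (g * (NCL.gen i lam t (lam e))⁻¹) (lam e)
        rw [inv_mul_cancel_right] at h9
        have h10 : deg (g * (NCL.gen i lam t (lam e))⁻¹) = deg g - 1 := by omega
        rw [h10] at h8
        have e3 : -(deg g - 1) - 1 = - deg g := by ring
        rw [e3] at h8
        show κ (g * (NCL.gen i lam t (lam e))⁻¹) = κ g + h' (lam e) (- deg g)
        linarith
  funext e
  have h2 := congrFun h1 e
  exact sub_eq_zero.1 h2

end NCC
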