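import Pool.Agent.NCC.Cr

/-!
# NCC: a permutation between two states of the same cost

The determinant of the coordinates of the rows of `F` with respect to `F0` is not zero, so one of its terms is not zero;
the levels along this permutation do not increase and have the same sum.
-/

set_option autoImplicit false

namespace NCC

open Finset ITA

variable {E V : Type} [DecidableEq V] [Fintype E] [DecidableEq E]

theorem sum_lv (τ : E → ℤ) (F : E → Bool) : ∑ e, lv τ (F e) e = ∑ e, τ e + (cost F : ℤ) := by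
  have h1 : ∀ e, lv τ (F e) e = τ e + (if F e = true then 1 else 0) := by
    intro e
    unfold lv
    split_ifs <;> ring
  have h2 : (cost F : ℤ) = ∑ e, (if F e = true then (1 : ℤ) else 0) := by
    unfold cost
    rw [Finset.card_filter]
    push_cast
    rfl
  rw [Finset.sum_congr rfl fun e _ => h1 e, Finset.sum_add_distrib, h2]

theorem perm_level {Γ : Sys E V} {τ : E → ℤ} {F0 F : E → Bool} (hLC : LC Γ τ F0) (h0 : D Γ F0 ≠ 0)
    (hF : D Γ F ≠ 0) (hc : cost F = cost F0) :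
    ∃ σ : Equiv.Perm E, ∀ e, crd Γ F0 (F e) e (σ e) ≠ 0 ∧ lv τ (F0 (σ e)) (σ e) = lv τ (F e) e := by
  have h1 : (Matrix.of fun e j : E => crd Γ F0 (F e) e j).det ≠ 0 := by
    rw [crd_det]
    exact mul_ne_zero hF (adj_det_ne h0)
  rw [Matrix.det_apply] at h1
  obtain ⟨π, -, h2⟩ := Finset.exists_ne_zero_of_sum_ne_zero h1
  have h3 : ∏ i, (Matrix.of fun e j : E => crd Γ F0 (F e) e j) (π i) i ≠ 0 := by
    intro h
    rw [h, smul_zero] at h2
    exact h2 rfl
  rw [Finset.prod_ne_zero_iff] at h3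
  have h4 : ∀ e, crd Γ F0 (F e) e (π⁻¹ e) ≠ 0 := by
    intro e
    have h5 := h3 (π⁻¹ e) (Finset.mem_univ _)
    have h6 : π (π⁻¹ e) = e := Equiv.apply_symm_apply π e
    rw [Matrix.of_apply, h6] at h5
    exact h5
  have h5 : ∀ e ∈ (Finset.univ : Finset E), lv τ (F0 (π⁻¹ e)) (π⁻¹ e) ≤ lv τ (F e) e :=
    fun e _ => hLC (F e) e (π⁻¹ e) (h4 e)
  have h6 : ∑ e, lv τ (F0 (π⁻¹ e)) (π⁻¹ e) = ∑ e, lv τ (F e) e := by
    rw [Equiv.sum_comp π⁻¹ (fun e => lv τ (F0 e) e), sum_lv, sum_lv, hc]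
  exact ⟨π⁻¹, fun e => ⟨h4 e, (Finset.sum_eq_sum_iff_of_le h5).1 h6 e (Finset.mem_univ _)⟩⟩

end NCC
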