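import Pool.Agent.NCC.Ii

/-!
# NCC: extension of harmonic functions over one block

The linear map sending the basis vector of `(e, d)` to `rl Γ (e, d)` is injective by `inj2`, so its dual map is
surjective; a functional with prescribed values on the relations corrects the function which equals `h0` outside the
block and vanishes on the block.
-/

set_option autoImplicit false

namespace NCC

open Finset ITA

variable {E V : Type} [DecidableEq V] [Fintype E] [DecidableEq E]

omit [DecidableEq E] in
private theorem Xe_vec_apply (Γ : Sys E V) (v : V) (d : ℤ) (j : E) (d' : ℤ) :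
    vec Γ v d (j, d') = if d = d' then (u Γ v j : ℚ) else 0 := by
  classical
  unfold vec
  rw [Finsupp.finsetSum_apply]
  simp only [Finsupp.single_apply, Prod.mk.injEq]
  by_cases hd : d = d'
  · simp [hd]
  · simp [hd]

omit [DecidableEq E] in
private theorem Xe_rl_apply (Γ : Sys E V) (e : E) (d : ℤ) (j : E) (d' : ℤ) :
    rl Γ (e, d) (j, d') = (if d = d' then (row Γ false e j : ℚ) else 0) +
      (if d = d' - 1 then (row Γ true e j : ℚ) else 0) := by
  unfold rl
  simp only [Finsupp.sub_apply, Finsupp.add_apply, Xe_vec_apply]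
  have h1 : (d + 1 = d') ↔ (d = d' - 1) := by constructor <;> intro h <;> omega
  simp only [h1, row, Sys.tail, Sys.head]
  by_cases ha : d = d'
  · by_cases hb : d = d' - 1
    · omega
    · rw [if_pos ha, if_pos ha, if_neg hb, if_neg hb, if_pos ha, if_neg hb]
      simp
  · by_cases hb : d = d' - 1
    · rw [if_neg ha, if_neg ha, if_pos hb, if_pos hb, if_neg ha, if_pos hb]
      simp
    · rw [if_neg ha, if_neg ha, if_neg hb, if_neg hb, if_neg ha, if_neg hb]
      simp

omit [DecidableEq E] in
private theorem Xe_T_apply (Γ : Sys E V) (n : (E × ℤ) →₀ ℚ) (j : E) (d : ℤ) :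
    Finsupp.linearCombination ℚ (rl Γ) n (j, d) = Lap Γ (fun e d => n (e, d)) j d := by
  classical
  induction n using Finsupp.induction_linear with
  | zero => simp [Lap]
  | add f g hf hg =>
    rw [map_add, Finsupp.add_apply, hf, hg]
    unfold Lap
    rw [← Finset.sum_add_distrib]
    refine Finset.sum_congr rfl fun e _ => ?_
    simp only [Finsupp.add_apply]
    ring
  | single a b =>
    obtain ⟨e, d'⟩ := a
    rw [Finsupp.linearCombination_single, Finsupp.smul_apply, Xe_rl_apply, smul_eq_mul]
    unfold Lap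
    rw [Finset.sum_eq_single e]
    · simp only [Finsupp.single_apply, Prod.mk.injEq, true_and]
      by_cases h1 : d' = d
      · by_cases h2 : d' = d - 1
        · omega
        · rw [if_pos h1, if_neg h2, if_pos h1, if_neg h2]
          ring
      · by_cases h2 : d' = d - 1
        · rw [if_neg h1, if_pos h2, if_neg h1, if_pos h2]
          ring
        · rw [if_neg h1, if_neg h2, if_neg h1, if_neg h2]
          ring
    · intro x _ hx
      have hx' : ¬ (e = x) := fun h => hx h.symm
      simp [hx']
    · intro h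
      exact absurd (Finset.mem_univ e) h

private theorem Xe_inj {Γ : Sys E V} (hU : Uni Γ) :
    Function.Injective (Finsupp.linearCombination ℚ (rl Γ)) := by
  rw [injective_iff_map_eq_zero]
  intro n hn
  have hLap : ∀ j d, Lap Γ (fun e d => n (e, d)) j d = 0 := by
    intro j d
    rw [← Xe_T_apply, hn]
    rfl
  have hsup : ∀ (e : E) (d : ℤ), d < -((n.support.sup (fun x => x.2.natAbs) : ℕ) : ℤ) ∨
      ((n.support.sup (fun x => x.2.natAbs) : ℕ) : ℤ) < d → n (e, d) = 0 := by
    intro e d h
    by_contra hne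
    have hmem : (e, d) ∈ n.support := Finsupp.mem_support_iff.mpr hne
    have hle : d.natAbs ≤ n.support.sup (fun x => x.2.natAbs) :=
      Finset.le_sup (f := fun x : E × ℤ => x.2.natAbs) hmem
    omega
  have h0 := inj2 hU (fun e d => n (e, d)) _ _ hsup hLap
  ext ⟨e, d⟩
  exact h0 e d

theorem ext_h {Γ : Sys E V} (hU : Uni Γ) (h0 : V → ℤ → ℚ) :
    ∃ h : V → ℤ → ℚ, (∀ v, (∀ j, Γ.c j ≠ v) → h v = h0 v) ∧
      ∀ e d, h (Γ.i e) d - h (Γ.l e) d + h (Γ.l e) (d + 1) - h (Γ.t e) (d + 1) = 0 := by
  classical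
  let g : V → ℤ → ℚ := fun v d => if ∃ j, Γ.c j = v then 0 else h0 v d
  obtain ⟨φ, hφ⟩ := LinearMap.dualMap_surjective_of_injective (Xe_inj hU)
    (Finsupp.linearCombination ℚ (fun x : E × ℤ =>
      -(g (Γ.i x.1) x.2 - g (Γ.l x.1) x.2 + g (Γ.l x.1) (x.2 + 1) - g (Γ.t x.1) (x.2 + 1))))
  have hφ' : ∀ x : E × ℤ, φ (rl Γ x) =
      -(g (Γ.i x.1) x.2 - g (Γ.l x.1) x.2 + g (Γ.l x.1) (x.2 + 1) - g (Γ.t x.1) (x.2 + 1)) := by
    intro x
    have h1 := LinearMap.congr_fun hφ (Finsupp.single x 1)
    rw [LinearMap.dualMap_apply, Finsupp.linearCombination_single,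
      Finsupp.linearCombination_single, one_smul, one_smul] at h1
    exact h1
  refine ⟨fun v d => g v d + φ (vec Γ v d), ?_, ?_⟩
  · intro v hv
    funext d
    have h1 : vec Γ v d = 0 := by
      unfold vec
      refine Finset.sum_eq_zero fun j _ => ?_
      have h2 : u Γ v j = 0 := by
        unfold u
        rw [if_neg (fun h => hv j h.symm)]
      rw [h2]
      simp
    have h3 : g v d = h0 v d := if_neg (fun ⟨j, hj⟩ => hv j hj)
    show g v d + φ (vec Γ v d) = h0 v d
    rw [h1, map_zero, h3, add_zero]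
  · intro e d
    have h1 := hφ' (e, d)
    unfold rl at h1
    rw [map_sub, map_add, map_sub] at h1
    show g (Γ.i e) d + φ (vec Γ (Γ.i e) d) - (g (Γ.l e) d + φ (vec Γ (Γ.l e) d)) +
      (g (Γ.l e) (d + 1) + φ (vec Γ (Γ.l e) (d + 1))) -
      (g (Γ.t e) (d + 1) + φ (vec Γ (Γ.t e) (d + 1))) = 0
    linarith

end NCC
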