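import Pool.Agent.NCC.Xe
import Pool.Agent.NCC.Blk

/-!
# NCC: extension of harmonic functions over all higher blocks

`ext_all`: for every `N ≥ K` there is `h` with `h v = h0 v` if `v = 0` or `ρ v ≤ K`, and `RelAt i lam t h e` for all `e` with
`K < rank e ≤ N` (rank `= max (ρ (i e)) (ρ (t e))`): induction on `N`, for `N = K` take `h0`. Step: apply `ext_h` to the
block `N + 1` with the function for `N`; only the values at the vertices `v ≠ 0` with `ρ v = N + 1` are changed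
(`NCL.IsColumns`), so the relations at the edges of rank `≤ N` remain true (their vertices and labels have rank `≤ N`,
`hlam`). Then take `N` greater than all ranks (`Finset.sup`).
-/

set_option autoImplicit false

namespace NCC

open Finset ITA

private theorem Xi_step {m : ℕ} {i lam t : Fin m → Fin (m + 1)} {ρ : Fin (m + 1) → ℕ}
    (hlam : ∀ e, ρ (lam e) ≤ max (ρ (i e)) (ρ (t e)))
    (hblk : ∀ k, ∃ c, NCL.IsColumns i t ρ k c ∧ Uni (blk i lam t ρ k c)) (K : ℕ)
    (h0 : Fin (m + 1) → ℤ → ℚ) (N : ℕ) (hN : K ≤ N) :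
    ∃ h : Fin (m + 1) → ℤ → ℚ, (∀ v, v = 0 ∨ ρ v ≤ K → h v = h0 v) ∧
      ∀ e, K < max (ρ (i e)) (ρ (t e)) → max (ρ (i e)) (ρ (t e)) ≤ N → RelAt i lam t h e := by
  induction N, hN using Nat.le_induction with
  | base =>
    exact ⟨h0, fun _ _ => rfl, fun e h1 h2 => absurd h1 (not_lt.mpr h2)⟩
  | succ N hN ih =>
    obtain ⟨h, hh, hr⟩ := ih
    obtain ⟨c, hc, hU⟩ := hblk (N + 1)
    obtain ⟨h', hh', hr'⟩ := ext_h hU h
    have hout : ∀ v, v = 0 ∨ ρ v ≤ N → h' v = h v := by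
      intro v hv
      refine hh' v fun j hj => ?_
      have h1 := (hc.2 v).mp ⟨j, hj⟩
      rcases hv with hv | hv
      · exact h1.1 hv
      · have h2 := h1.2
        omega
    refine ⟨h', fun v hv => ?_, fun e h1 h2 => ?_⟩
    · rw [hout v (hv.imp id fun h3 => h3.trans hN), hh v hv]
    · rcases Nat.lt_or_ge N (max (ρ (i e)) (ρ (t e))) with h3 | h3
      · exact hr' ⟨e, le_antisymm h2 h3⟩
      · intro d
        rw [hout (i e) (Or.inr ((le_max_left _ _).trans h3)), hout (lam e) (Or.inr ((hlam e).trans h3)),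
          hout (t e) (Or.inr ((le_max_right _ _).trans h3))]
        exact hr e h1 h3 d

theorem ext_all {m : ℕ} {i lam t : Fin m → Fin (m + 1)} {ρ : Fin (m + 1) → ℕ}
    (hlam : ∀ e, ρ (lam e) ≤ max (ρ (i e)) (ρ (t e)))
    (hblk : ∀ k, ∃ c, NCL.IsColumns i t ρ k c ∧ Uni (blk i lam t ρ k c)) (K : ℕ)
    (h0 : Fin (m + 1) → ℤ → ℚ) :
    ∃ h : Fin (m + 1) → ℤ → ℚ, (∀ v, v = 0 ∨ ρ v ≤ K → h v = h0 v) ∧
      ∀ e, K < max (ρ (i e)) (ρ (t e)) → RelAt i lam t h e := by
  obtain ⟨h, hh, hr⟩ := Xi_step hlam hblk K h0 (K + ∑ e, max (ρ (i e)) (ρ (t e))) (Nat.le_add_right _ _)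
  refine ⟨h, hh, fun e he => hr e he ?_⟩
  exact (Finset.single_le_sum (f := fun e => max (ρ (i e)) (ρ (t e))) (fun _ _ => Nat.zero_le _)
    (Finset.mem_univ e)).trans (Nat.le_add_left _ _)

end NCC
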